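import Pool.Agent.Lib.MP_938ce2_ag_L4.LD4

/-!
Row D1: generators of the dihedral quotient.
-/

set_option autoImplicit false
set_option linter.unusedSectionVars false

namespace Pool.Agent.Lib.MP_938ce2_ag_L4

open Finset Module
open Pool.Agent.Lib.MP_938ce2_ag_h67 (sg)
open Pool.Agent.Lib.MP_938ce2_ag_h60 (CMType GeneratedByDivisors Nondeg)
open Pool.Agent.Lib.MP_938ce2_ag_u2 (Act)
open Pool.Agent.Lib.MP_938ce2_ag_L3 (VK Prim)

variable {G X : Type} [Group G] [Fintype G] [MulAction G X] [Fintype X] [DecidableEq X]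
  [MulAction.IsPretransitive G X] {c : G} {g : ℕ}

private theorem central4 : ∀ z : DihedralGroup 4, (∀ w, z * w = w * z) → z * z = 1 → z ≠ 1 →
    z = DihedralGroup.r 2 := by
  decide

private theorem central6 : ∀ z : DihedralGroup 6, (∀ w, z * w = w * z) → z * z = 1 → z ≠ 1 →
    z = DihedralGroup.r 3 := by
  decide

private theorem r_pow (m i : ℕ) : (DihedralGroup.r (1 : ZMod m)) ^ i = DihedralGroup.r (i : ZMod m) :=
  DihedralGroup.r_one_pow i

/-- RECIPE. `e : G ⧸ N ≃* DihedralGroup (2 n)`; `r`, `s` lifts of `e⁻¹ (r 1)` and `e⁻¹ (sr 0)`. The image of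
`c` is central (`Act.comm`), of order two (`Act.sq`), not `1` (`c ∉ N`); the only such element of
`DihedralGroup (2 n)` is `r n` for `n = 2, 3` (`decide` or `fin_cases` on `DihedralGroup 4` and
`DihedralGroup 6`: `∀ z, (∀ w, z * w = w * z) → z * z = 1 → z ≠ 1 → z = r n`). The index is
`Nat.card (G ⧸ N) = Nat.card (DihedralGroup (2 n)) = 4 n`. All fields of `DD` are statements about the images
in `DihedralGroup 4`, `DihedralGroup 6` (`QuotientGroup.eq_one_iff`): `r ^ i = 1 ↔ 2 n ∣ i`,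
`r ^ i * sr 0 ≠ 1`, every element is `r ^ i` or `r ^ i * sr 0` with `i < 2 n`. -/
theorem exists_DD (hA : Act G X c g) (x0 : X) (n : ℕ) (hn : n = 2 ∨ n = 3) (N : Subgroup G)
    (hN : N ∈ Dih n c x0) : ∃ r s : G, DD n c x0 N r s := by
  obtain ⟨hnorm, hstab, hcN, ⟨e⟩⟩ := hN
  have hn0 : n ≠ 0 := by rcases hn with rfl | rfl <;> norm_num
  have hn2 : NeZero (2 * n) := ⟨by omega⟩
  -- the homomorphism to the dihedral group
  obtain ⟨φ, hφ⟩ : ∃ φ : G →* DihedralGroup (2 * n), φ = e.toMonoidHom.comp (QuotientGroup.mk' N) :=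
    ⟨_, rfl⟩
  have hsurj : Function.Surjective φ := by
    rw [hφ]
    exact e.surjective.comp (QuotientGroup.mk'_surjective N)
  have hker : ∀ x : G, φ x = 1 ↔ x ∈ N := by
    intro x
    rw [hφ]
    change e (QuotientGroup.mk' N x) = 1 ↔ x ∈ N
    rw [EmbeddingLike.map_eq_one_iff]
    exact QuotientGroup.eq_one_iff x
  obtain ⟨r, hr⟩ := hsurj (DihedralGroup.r 1)
  obtain ⟨s, hs⟩ := hsurj (DihedralGroup.sr 0)
  have hri : ∀ i : ℕ, φ (r ^ i) = DihedralGroup.r (i : ZMod (2 * n)) := by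
    intro i
    rw [map_pow, hr]
    exact r_pow _ i
  have hc : φ c = DihedralGroup.r (n : ZMod (2 * n)) := by
    have h1 : ∀ w, φ c * w = w * φ c := by
      intro w
      obtain ⟨x, rfl⟩ := hsurj w
      rw [← map_mul, ← map_mul, hA.comm]
    have h2 : φ c * φ c = 1 := by
      rw [← map_mul, hA.sq, map_one]
    have h3 : φ c ≠ 1 := fun h => hcN ((hker c).1 h)
    rcases hn with rfl | rfl
    · exact central4 _ h1 h2 h3
    · exact central6 _ h1 h2 h3
  refine ⟨r, s, ⟨hnorm, hstab, hcN, ?_, ?_, ?_, ?_, ?_, ?_, ?_⟩⟩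
  · have h1 : N.index = Nat.card (G ⧸ N) := rfl
    rw [h1, Nat.card_congr e.toEquiv, DihedralGroup.nat_card]
    ring
  · rw [← hker, map_mul, hc, hri, DihedralGroup.r_mul_r, ← Nat.cast_add]
    have h1 : ((n + n : ℕ) : ZMod (2 * n)) = 0 := by
      rw [← two_mul]
      exact ZMod.natCast_self _
    rw [h1]
    rfl
  · rw [← hker, map_mul, hs, DihedralGroup.sr_mul_sr, sub_self]
    rfl
  · rw [← hker, map_mul, map_mul, hr, hs, DihedralGroup.r_mul_sr, DihedralGroup.sr_mul_sr, sub_self]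
    rfl
  · intro i
    rw [← hker, hri]
    have h1 : (DihedralGroup.r (i : ZMod (2 * n)) = 1) ↔ (i : ZMod (2 * n)) = 0 := by
      change (DihedralGroup.r (i : ZMod (2 * n)) = DihedralGroup.r 0) ↔ _
      rw [DihedralGroup.r.injEq]
    rw [h1, ZMod.natCast_eq_zero_iff]
  · intro i hi
    rw [← hker, map_mul, hri, hs, DihedralGroup.r_mul_sr] at hi
    have h1 : DihedralGroup.sr (0 - (i : ZMod (2 * n))) = DihedralGroup.r 0 := hi
    exact nomatch h1
  · intro σ
    rcases hz : φ σ with i | i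
    · refine ⟨ZMod.val i, ZMod.val_lt i, Or.inl ?_⟩
      rw [← hker, map_mul, map_inv, hri, hz, ZMod.natCast_zmod_val, inv_mul_cancel]
    · refine ⟨ZMod.val (-i), ZMod.val_lt _, Or.inr ?_⟩
      rw [← hker, map_mul, map_inv, map_mul, hri, hz, hs, ZMod.natCast_zmod_val,
        DihedralGroup.r_mul_sr, zero_sub, neg_neg, inv_mul_cancel]

end Pool.Agent.Lib.MP_938ce2_ag_L4
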