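import Pool.Agent.Lib.MP_938ce2_ag_L4.D2
import Pool.Agent.Lib.MP_938ce2_ag_L3.B8

/-!
Row D3: equal norms give degenerate CM types.
-/

set_option autoImplicit false
set_option linter.unusedSectionVars false

namespace Pool.Agent.Lib.MP_938ce2_ag_L4

open Finset Module
open Pool.Agent.Lib.MP_938ce2_ag_h67 (sg)
open Pool.Agent.Lib.MP_938ce2_ag_h60 (CMType GeneratedByDivisors Nondeg)
open Pool.Agent.Lib.MP_938ce2_ag_u2 (Act)
open Pool.Agent.Lib.MP_938ce2_ag_L3 (VK VK_iff exists_blk exists_blk_cm Prim)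

variable {G X : Type} [Group G] [Fintype G] [MulAction G X] [Fintype X] [DecidableEq X]
  [MulAction.IsPretransitive G X] {c : G} {g : ℕ}

private lemma per {n : ℕ} {P : ℕ → ℤ} (hP : ∀ i, P (i + n) = - P i) (i k : ℕ) :
    P (i + 2 * n * k) = P i := by
  induction k with
  | zero => simp
  | succ k ih =>
    have h1 : i + 2 * n * (k + 1) = (i + 2 * n * k + n) + n := by ring
    rw [h1, hP, hP, neg_neg, ih]

private lemma per_eq {n : ℕ} {c : G} {x0 : X} {N : Subgroup G} {r s : G} (h : DD n c x0 N r s)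
    {P : ℕ → ℤ} (hP : ∀ i, P (i + n) = - P i) {i j : ℕ} (hij : (r ^ i)⁻¹ * r ^ j ∈ N) :
    P i = P j := by
  rcases le_total i j with hle | hle
  · obtain ⟨d, rfl⟩ := Nat.exists_eq_add_of_le hle
    rw [pow_add, inv_mul_cancel_left, h.rN] at hij
    obtain ⟨k, rfl⟩ := hij
    exact (per hP i k).symm
  · obtain ⟨d, rfl⟩ := Nat.exists_eq_add_of_le hle
    have h1 : ((r ^ (j + d))⁻¹ * r ^ j)⁻¹ ∈ N := N.inv_mem hij
    rw [mul_inv_rev, inv_inv, pow_add, inv_mul_cancel_left, h.rN] at h1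
    obtain ⟨k, rfl⟩ := h1
    exact per hP j k

/-- the abstract form -/
private lemma deg_of_seq (hA : Act G X c g) {n : ℕ} {x0 : X} {N : Subgroup G}
    {r s : G} (h : DD n c x0 N r s) {Φ : Finset X} (hΦ : CMType c Φ) (P Q : ℕ → ℤ)
    (hP : ∀ i, P (i + n) = - P i) (hQ : ∀ i, Q (i + n) = - Q i) (hne : ∃ i, P i ≠ 0 ∨ Q i ≠ 0)
    (h1 : ∀ j < 2 * n, ∑ i ∈ range n, (P (j + i) * bsum N x0 Φ (r ^ i)
      + Q (j + i) * bsum N x0 Φ (r ^ i * s)) = 0)
    (h2 : ∀ j < 2 * n, ∑ i ∈ range n, (Q (j + 2 * n - i) * bsum N x0 Φ (r ^ i)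
      + P (j + 2 * n - i) * bsum N x0 Φ (r ^ i * s)) = 0) : ¬ Nondeg c Φ := by
  classical
  have hN := h.normal
  obtain ⟨β, hβ, -⟩ := exists_blk x0 N h.stab
  -- the value on the classes
  obtain ⟨H, hHr, hHs⟩ : ∃ H : G ⧸ N → ℤ, (∀ i, H ((r ^ i : G) : G ⧸ N) = P i) ∧
      ∀ i, H ((r ^ i * s : G) : G ⧸ N) = Q i := by
    refine ⟨fun z => if hz : ∃ i : ℕ, ((r ^ i : G) : G ⧸ N) = z then P hz.choose else
      if hz' : ∃ i : ℕ, ((r ^ i * s : G) : G ⧸ N) = z then Q hz'.choose else 0, ?_, ?_⟩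
    · intro i
      have hz : ∃ j : ℕ, ((r ^ j : G) : G ⧸ N) = ((r ^ i : G) : G ⧸ N) := ⟨i, rfl⟩
      beta_reduce
      rw [dif_pos hz]
      exact per_eq h hP (QuotientGroup.eq.1 hz.choose_spec)
    · intro i
      have hz : ¬ ∃ j : ℕ, ((r ^ j : G) : G ⧸ N) = ((r ^ i * s : G) : G ⧸ N) := by
        rintro ⟨j, hj⟩
        have h3 := QuotientGroup.eq.1 hj
        -- `r ^ (i + (2 n - 1) j) s ∈ N`
        have h4 : r ^ (2 * n * j) ∈ N := (h.rN _).2 (dvd_mul_right _ _)
        have h5 : r ^ (2 * n * j) * ((r ^ j)⁻¹ * (r ^ i * s)) ∈ N := N.mul_mem h4 h3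
        rcases Nat.eq_zero_or_pos n with hn0 | hn0
        · have h6 := h.index
          rw [hn0, mul_zero] at h6
          exact Subgroup.index_ne_zero_of_finite h6
        · have h6 : 2 * n * j = (2 * n * j - j) + j := by
            have : j ≤ 2 * n * j := Nat.le_mul_of_pos_left _ (by omega)
            omega
          rw [h6, pow_add] at h5
          have h7 : r ^ (2 * n * j - j) * r ^ j * ((r ^ j)⁻¹ * (r ^ i * s)) =
              r ^ (2 * n * j - j + i) * s := by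
            rw [pow_add]
            group
          rw [h7] at h5
          exact h.sN _ h5
      beta_reduce
      rw [dif_neg hz]
      have hz' : ∃ j : ℕ, ((r ^ j * s : G) : G ⧸ N) = ((r ^ i * s : G) : G ⧸ N) := ⟨i, rfl⟩
      rw [dif_pos hz']
      refine per_eq h hQ ?_
      have h3 := QuotientGroup.eq.1 hz'.choose_spec
      have h4 := hN.conj_mem _ h3 s
      have h5 : s * ((r ^ hz'.choose * s)⁻¹ * (r ^ i * s)) * s⁻¹ =
          (r ^ hz'.choose)⁻¹ * r ^ i := by group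
      rwa [h5] at h4
  -- multiplication by `c`
  have hcr : ∀ σ : G, ((c * σ : G) : G ⧸ N) = ((r ^ n * σ : G) : G ⧸ N) := by
    intro σ
    rw [QuotientGroup.eq]
    have h3 : r ^ (2 * n) ∈ N := (h.rN _).2 (dvd_refl _)
    have h4 : (c * r ^ n)⁻¹ * r ^ (2 * n) ∈ N := N.mul_mem (N.inv_mem h.rn) h3
    have h5 : (c * r ^ n)⁻¹ * r ^ (2 * n) = c⁻¹ * r ^ n := by
      have h6 : c * r ^ n = r ^ n * c := hA.comm _
      rw [h6, two_mul, pow_add]
      group
    rw [h5] at h4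
    have h6 := hN.conj_mem _ h4 σ⁻¹
    have h7 : σ⁻¹ * (c⁻¹ * r ^ n) * σ⁻¹⁻¹ = (c * σ)⁻¹ * (r ^ n * σ) := by group
    rwa [h7] at h6
  have hclass : ∀ σ : G, ∃ j < 2 * n, ((r ^ j : G) : G ⧸ N) = (σ : G ⧸ N) ∨
      ((r ^ j * s : G) : G ⧸ N) = (σ : G ⧸ N) := by
    intro σ
    obtain ⟨j, hj, h3⟩ := h.cover σ
    exact ⟨j, hj, h3.imp QuotientGroup.eq.2 QuotientGroup.eq.2⟩
  have hHc : ∀ σ : G, H ((c * σ : G) : G ⧸ N) = - H (σ : G ⧸ N) := by
    intro σ
    obtain ⟨j, -, h3 | h3⟩ := hclass σ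
    · have h4 : ((c * σ : G) : G ⧸ N) = ((r ^ (j + n) : G) : G ⧸ N) := by
        rw [hcr, add_comm, pow_add, QuotientGroup.mk_mul, QuotientGroup.mk_mul, h3]
      rw [h4, hHr, hP, ← h3, hHr]
    · have h4 : ((c * σ : G) : G ⧸ N) = ((r ^ (j + n) * s : G) : G ⧸ N) := by
        rw [hcr, add_comm, pow_add, mul_assoc, QuotientGroup.mk_mul, QuotientGroup.mk_mul _ (r ^ n), h3]
      rw [h4, hHs, hQ, ← h3, hHs]
  have hodd : ∀ x, H (β (c • x)) = - H (β x) := by
    intro x
    obtain ⟨σ, rfl⟩ := MulAction.exists_smul_eq G x0 x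
    rw [smul_smul, hβ, hβ, hHc]
  have hf : (fun x => ((H (β x) : ℤ) : ℚ)) ∈ VK c x0 N := by
    refine ⟨fun x => ?_, fun σ k hk => ?_⟩
    · change ((H (β (c • x)) : ℤ) : ℚ) = - ((H (β x) : ℤ) : ℚ)
      rw [hodd]
      push_cast
      rfl
    · change ((H (β ((σ * k) • x0)) : ℤ) : ℚ) = ((H (β (σ • x0)) : ℤ) : ℚ)
      rw [hβ, hβ]
      have h3 : ((σ * k : G) : G ⧸ N) = (σ : G ⧸ N) := by
        rw [eq_comm, QuotientGroup.eq, inv_mul_cancel_left]
        exact hk
      rw [h3]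
  -- `s r ^ i` is `r ^ (- i) s`
  have hsr : ∀ i : ℕ, ((s * r ^ i : G) : G ⧸ N) = (((r ^ i)⁻¹ * s : G) : G ⧸ N) := by
    have hs2 : ((s : G) : G ⧸ N) * (s : G ⧸ N) = 1 := by
      rw [← QuotientGroup.mk_mul]
      exact (QuotientGroup.eq_one_iff _).2 h.ss
    have hrs2 : ((r : G) : G ⧸ N) * (s : G ⧸ N) * ((r : G ⧸ N) * (s : G ⧸ N)) = 1 := by
      rw [← QuotientGroup.mk_mul, ← QuotientGroup.mk_mul]
      exact (QuotientGroup.eq_one_iff _).2 h.rs
    intro i
    rw [QuotientGroup.mk_mul, QuotientGroup.mk_mul, QuotientGroup.mk_inv, QuotientGroup.mk_pow]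
    induction i with
    | zero => simp
    | succ i ih =>
      have h3 : ((s : G) : G ⧸ N) * (r : G ⧸ N) = ((r : G) : G ⧸ N)⁻¹ * (s : G ⧸ N) := by
        have h4 : ((r : G) : G ⧸ N) * ((s : G ⧸ N) * (r : G ⧸ N)) * (s : G ⧸ N) = 1 := by
          rw [← hrs2]
          group
        have h5 : ((s : G) : G ⧸ N) * (r : G ⧸ N) =
            ((r : G) : G ⧸ N)⁻¹ * (((r : G) : G ⧸ N) * ((s : G ⧸ N) * (r : G ⧸ N))
              * (s : G ⧸ N)) * (s : G ⧸ N)⁻¹ := by group
        rw [h5, h4, mul_one]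
        congr 1
        exact (eq_inv_of_mul_eq_one_left hs2).symm
      rw [pow_succ, ← mul_assoc, ih, mul_assoc, h3, ← pow_succ, pow_succ', mul_inv_rev, mul_assoc]
  have hsr' : ∀ (j i : ℕ), i < n → ((r ^ j * s * r ^ i : G) : G ⧸ N) =
      ((r ^ (j + 2 * n - i) * s : G) : G ⧸ N) := by
    intro j i hi
    rw [mul_assoc, QuotientGroup.mk_mul, hsr]
    have h3 : r ^ (j + 2 * n - i) = r ^ j * r ^ (2 * n) * (r ^ i)⁻¹ := by
      rw [eq_mul_inv_iff_mul_eq, ← pow_add, ← pow_add]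
      congr 1
      omega
    have h4 : ((r ^ (2 * n) : G) : G ⧸ N) = 1 :=
      (QuotientGroup.eq_one_iff _).2 ((h.rN _).2 (dvd_refl _))
    rw [h3]
    simp only [QuotientGroup.mk_mul, h4, mul_one]
    group
  have hss' : ∀ (j i : ℕ), i < n → ((r ^ j * s * (r ^ i * s) : G) : G ⧸ N) =
      ((r ^ (j + 2 * n - i) : G) : G ⧸ N) := by
    intro j i hi
    have hs2 : ((s : G) : G ⧸ N) * (s : G ⧸ N) = 1 := by
      rw [← QuotientGroup.mk_mul]
      exact (QuotientGroup.eq_one_iff _).2 h.ss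
    rw [← mul_assoc, QuotientGroup.mk_mul, hsr' j i hi, QuotientGroup.mk_mul, mul_assoc, hs2,
      mul_one]
  intro hnd
  have hzero : ∀ x, H (β x) = 0 := by
    refine hnd (fun x => H (β x)) hodd fun σ => ?_
    have h3 : (fun x => ((H (β (σ • x)) : ℤ) : ℚ)) ∈ VK c x0 N :=
      Pool.Agent.Lib.MP_938ce2_ag_L3.VK_inv hA x0 N _ hf σ
    have h4 := sum_VK hA h hΦ h3
    have h5 : ∑ i ∈ range n, (((H (β (σ • r ^ i • x0)) : ℤ) : ℚ) * (bsum N x0 Φ (r ^ i) : ℚ)
        + ((H (β (σ • (r ^ i * s) • x0)) : ℤ) : ℚ) * (bsum N x0 Φ (r ^ i * s) : ℚ)) = 0 := by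
      obtain ⟨j, hj, h6 | h6⟩ := hclass σ
      · have h7 := h1 j hj
        have h8 : ((∑ i ∈ range n, (P (j + i) * bsum N x0 Φ (r ^ i)
            + Q (j + i) * bsum N x0 Φ (r ^ i * s)) : ℤ) : ℚ) = 0 := by rw [h7]; rfl
        rw [← h8]
        push_cast
        refine sum_congr rfl fun i _ => ?_
        rw [smul_smul, smul_smul, hβ, hβ, QuotientGroup.mk_mul N σ (r ^ i), QuotientGroup.mk_mul N σ (r ^ i * s),
          ← h6, ← QuotientGroup.mk_mul, ← QuotientGroup.mk_mul, ← mul_assoc, ← pow_add, hHr, hHs]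
      · have h7 := h2 j hj
        have h8 : ((∑ i ∈ range n, (Q (j + 2 * n - i) * bsum N x0 Φ (r ^ i)
            + P (j + 2 * n - i) * bsum N x0 Φ (r ^ i * s)) : ℤ) : ℚ) = 0 := by rw [h7]; rfl
        rw [← h8]
        push_cast
        refine sum_congr rfl fun i hi => ?_
        rw [mem_range] at hi
        rw [smul_smul, smul_smul, hβ, hβ, QuotientGroup.mk_mul N σ (r ^ i), QuotientGroup.mk_mul N σ (r ^ i * s),
          ← h6, ← QuotientGroup.mk_mul, ← QuotientGroup.mk_mul, hsr' j i hi, hss' j i hi, hHr, hHs]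
    rw [h5, mul_zero] at h4
    have h6 := hA.sum_type hΦ (fun x => (sg Φ x : ℚ) * ((H (β (σ • x)) : ℤ) : ℚ))
    rw [h4] at h6
    have h7 : ∑ x ∈ Φ, (sg Φ x : ℚ) * ((H (β (σ • x)) : ℤ) : ℚ) =
        ∑ x ∈ Φ, ((H (β (σ • x)) : ℤ) : ℚ) := by
      refine sum_congr rfl fun x hx => ?_
      rw [Pool.Agent.Lib.MP_938ce2_ag_h67.sg, if_pos hx]
      simp
    have h8 : ∑ x ∈ Φ, (sg Φ (c • x) : ℚ) * ((H (β (σ • c • x)) : ℤ) : ℚ) =
        ∑ x ∈ Φ, ((H (β (σ • x)) : ℤ) : ℚ) := by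
      refine sum_congr rfl fun x hx => ?_
      have h9 : σ • c • x = c • σ • x := by
        rw [smul_smul, smul_smul, hA.comm]
      rw [Pool.Agent.Lib.MP_938ce2_ag_h67.sg, if_neg ((hΦ x).1 hx), h9, hodd]
      simp
    rw [h7, h8] at h6
    have h9 : ∑ x ∈ Φ, ((H (β (σ • x)) : ℤ) : ℚ) = 0 := by linarith
    exact_mod_cast h9
  obtain ⟨i, hi | hi⟩ := hne
  · have h3 := hzero (r ^ i • x0)
    rw [hβ, hHr] at h3
    exact hi h3
  · have h3 := hzero ((r ^ i * s) • x0)
    rw [hβ, hHs] at h3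
    exact hi h3

/-- the traces of `(x + y ζ) ζ ^ (-i)` -/
private def pp (n : ℕ) (x y : ℤ) (i : ℕ) : ℤ :=
  if n = 2 then
    (if i % 4 = 0 then 2 * x else if i % 4 = 1 then 2 * y else if i % 4 = 2 then -(2 * x)
      else -(2 * y))
  else
    (if i % 6 = 0 then 2 * x + y else if i % 6 = 1 then x + 2 * y else if i % 6 = 2 then -x + y
      else if i % 6 = 3 then -(2 * x + y) else if i % 6 = 4 then -(x + 2 * y) else x - y)

private lemma pp_add (n : ℕ) (hn : n = 2 ∨ n = 3) (x y : ℤ) (i : ℕ) :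
    pp n x y (i + n) = - pp n x y i := by
  rcases hn with rfl | rfl
  · have h1 : (i + 2) % 4 = (i % 4 + 2) % 4 := by omega
    have h2 : i % 4 < 4 := Nat.mod_lt _ (by norm_num)
    unfold pp
    rw [h1]
    generalize i % 4 = t at *
    interval_cases t <;> simp
  · have h1 : (i + 3) % 6 = (i % 6 + 3) % 6 := by omega
    have h2 : i % 6 < 6 := Nat.mod_lt _ (by norm_num)
    unfold pp
    rw [h1]
    generalize i % 6 = t at *
    interval_cases t <;> simp <;> ring

/-- RECIPE. Let `(x, y, u, v) = co ..`, `α = x + y ζ`, `β = u + v ζ`, `ζ` of order `2 n`. Let `p i = Tr (α ζ ^ (-i))`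
and `q i = - Tr (β ζ ^ (-i))` (both have period `2 n` and change the sign under `i ↦ i + n`). Explicitly `p =
(2 x, 2 y, -2 x, -2 y)` for `n = 2` and `p = (2 x + y, x + 2 y, -x + y, -2 x - y, -x - 2 y, x - y)` for `n = 3`;
`q` the same with `(-u, -v)`. If `x = y = u = v = 0` take instead `p` for `(x, y) = (1, 0)` and `q = 0`. Let
`h : X → ℤ` have the value `p i` on the block of `r ^ i` and `q i` on the block of `r ^ i s` (use `β : X → G ⧸ N` of
`exists_blk` and a section of `DD.cover`). It is odd and not zero, and `∑ φ ∈ Φ, h (σ • φ) = 0` for all `σ`: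
`2 ∑ φ ∈ Φ, h (σ • φ) = ∑ x, sg Φ x h (σ • x)`, `x ↦ h (σ • x)` is in `VK c x0 N`, `sum_VK`, and with
`σ = r ^ j k` the sum is `Tr (ζ ^ (-j) (α α' - β β')) = 0` (`α'` the conjugate), with `σ = r ^ j s k` it is
`Tr (ζ ^ (-j) (α β - β α)) = 0` because `s r ^ i = r ^ (-i) s` modulo `N`. In coordinates these are `2 n` linear
identities in `x, y, u, v` and `Sing`; they are checked by `ring` / `linear_combination`. Alternatively use
`not_nondeg_of_orth` with `V` = span of the translates of `h`. -/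
theorem deg_of_sing (hA : Act G X c g) {n : ℕ} (hn : n = 2 ∨ n = 3) {x0 : X} {N : Subgroup G}
    {r s : G} (h : DD n c x0 N r s) {Φ : Finset X} (hΦ : CMType c Φ)
    (hs : Sing n (co n N x0 r s Φ)) : ¬ Nondeg c Φ := by
  have hc0 : co n N x0 r s Φ 0 = fx n fun i => bsum N x0 Φ (r ^ i) := rfl
  have hc1 : co n N x0 r s Φ 1 = fy n fun i => bsum N x0 Φ (r ^ i) := rfl
  have hc2 : co n N x0 r s Φ 2 = fx n fun i => bsum N x0 Φ (r ^ i * s) := rfl
  have hc3 : co n N x0 r s Φ 3 = fy n fun i => bsum N x0 Φ (r ^ i * s) := rfl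
  unfold Sing at hs
  rw [hc0, hc1, hc2, hc3] at hs
  obtain ⟨a, ha⟩ : ∃ a : ℕ → ℤ, a = fun i => bsum N x0 Φ (r ^ i) := ⟨_, rfl⟩
  obtain ⟨b, hb⟩ : ∃ b : ℕ → ℤ, b = fun i => bsum N x0 Φ (r ^ i * s) := ⟨_, rfl⟩
  rw [← ha, ← hb] at hs
  have ha' : ∀ i, bsum N x0 Φ (r ^ i) = a i := fun i => by rw [ha]
  have hb' : ∀ i, bsum N x0 Φ (r ^ i * s) = b i := fun i => by rw [hb]
  by_cases h0 : fx n a = 0 ∧ fy n a = 0 ∧ fx n b = 0 ∧ fy n b = 0
  · obtain ⟨e1, e2, e3, e4⟩ := h0
    refine deg_of_seq hA h hΦ (pp n 1 0) (fun _ => 0) (pp_add n hn 1 0) (fun _ => by simp)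
      ⟨0, Or.inl ?_⟩ ?_ ?_
    · rcases hn with rfl | rfl <;> simp [pp]
    · intro j hj
      simp only [ha', hb']
      rcases hn with rfl | rfl
      · simp only [fx, fy, if_true] at e1 e2 e3 e4
        interval_cases j <;> simp [sum_range_succ, pp, e1, e2]
      · simp only [fx, fy, show ¬ (3 = 2) by norm_num, if_false] at e1 e2 e3 e4
        interval_cases j <;> simp [sum_range_succ, pp] <;> linarith
    · intro j hj
      simp only [ha', hb']
      rcases hn with rfl | rfl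
      · simp only [fx, fy, if_true] at e1 e2 e3 e4
        interval_cases j <;> simp [sum_range_succ, pp, e3, e4]
      · simp only [fx, fy, show ¬ (3 = 2) by norm_num, if_false] at e1 e2 e3 e4
        interval_cases j <;> simp [sum_range_succ, pp] <;> linarith
  · refine deg_of_seq hA h hΦ (pp n (fx n a) (fy n a)) (fun i => - pp n (fx n b) (fy n b) i)
      (pp_add n hn _ _) (fun i => by rw [pp_add n hn]) ?_ ?_ ?_
    · by_contra hcon
      push Not at hcon
      apply h0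
      rcases hn with rfl | rfl
      · have h1 := hcon 0
        have h2 := hcon 1
        simp only [pp, if_true, Nat.zero_mod, Nat.one_mod, one_ne_zero, if_false, neg_eq_zero] at h1 h2
        omega
      · have h1 := hcon 0
        have h2 := hcon 1
        simp only [pp, show ¬ (3 = 2) by norm_num, if_true, Nat.zero_mod, Nat.one_mod, one_ne_zero,
          if_false, neg_eq_zero] at h1 h2
        omega
    · intro j hj
      simp only [ha', hb']
      rcases hn with rfl | rfl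
      · simp only [nrm, fx, fy, if_true] at hs
        interval_cases j <;> simp [sum_range_succ, pp, fx, fy]
        · linear_combination 2 * hs
        · ring
        · linear_combination (-2) * hs
        · ring
      · simp only [nrm, fx, fy, show ¬ (3 = 2) by norm_num, if_false] at hs
        interval_cases j <;> simp [sum_range_succ, pp, fx, fy]
        · linear_combination 2 * hs
        · linear_combination hs
        · linear_combination (-1) * hs
        · linear_combination (-2) * hs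
        · linear_combination (-1) * hs
        · linear_combination hs
    · intro j hj
      simp only [ha', hb']
      rcases hn with rfl | rfl
      · interval_cases j <;> simp [sum_range_succ, pp, fx, fy] <;> ring
      · interval_cases j <;> simp [sum_range_succ, pp, fx, fy] <;> ring

end Pool.Agent.Lib.MP_938ce2_ag_L4
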