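import Pool.Agent.Lib.MP_938ce2_ag_L4.LD4
import Pool.Agent.Lib.MP_938ce2_ag_L3.B6

/-!
Row D5: the spaces of different subgroups are disjoint.
-/

set_option autoImplicit false
set_option linter.unusedSectionVars false

namespace Pool.Agent.Lib.MP_938ce2_ag_L4

open Finset Module
open Pool.Agent.Lib.MP_938ce2_ag_h67 (sg)
open Pool.Agent.Lib.MP_938ce2_ag_h60 (CMType GeneratedByDivisors Nondeg)
open Pool.Agent.Lib.MP_938ce2_ag_u2 (Act)
open Pool.Agent.Lib.MP_938ce2_ag_L3 (VK VK_iff exists_blk exists_blk_cm Prim)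

variable {G X : Type} [Group G] [Fintype G] [MulAction G X] [Fintype X] [DecidableEq X]
  [MulAction.IsPretransitive G X] {c : G} {g : ℕ}

private lemma d5_key (hA : Act G X c g) {n : ℕ} (hn : n = 2 ∨ n = 3) {x0 : X} {N N₁ : Subgroup G}
    {r s : G} (h : DD n c x0 N r s) (hN₁ : N₁.Normal) (hle : N ≤ N₁) (hne : N ≠ N₁) {f : X → ℚ}
    (hf : f ∈ ED n c x0 N r) (hf₁ : f ∈ VK c x0 N₁) : f = 0 := by
  have h2n : r ^ (2 * n) ∈ N₁ := hle ((h.rN (2 * n)).2 dvd_rfl)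
  have hcr : c * r ^ n ∈ N₁ := hle h.rn
  have hsub : ∀ a b : ℕ, r ^ a ∈ N₁ → r ^ (a + b) ∈ N₁ → r ^ b ∈ N₁ := by
    intro a b ha hb
    have h1 := N₁.mul_mem (N₁.inv_mem ha) hb
    rwa [pow_add, inv_mul_cancel_left] at h1
  have hcN : r ^ n ∈ N₁ → f = 0 := by
    intro h1
    have hc : c ∈ N₁ := by
      have h2 := N₁.mul_mem hcr (N₁.inv_mem h1)
      rwa [mul_inv_cancel_right] at h2
    rw [Pool.Agent.Lib.MP_938ce2_ag_L3.VK_eq_bot hA x0 N₁ hc, Submodule.mem_bot] at hf₁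
    exact hf₁
  obtain ⟨i, hi0, hi1, hi⟩ : ∃ i, 0 < i ∧ i < 2 * n ∧ r ^ i ∈ N₁ := by
    obtain ⟨τ, hτ1, hτ2⟩ : ∃ τ ∈ N₁, τ ∉ N := by
      by_contra hcon
      push Not at hcon
      exact hne (le_antisymm hle hcon)
    obtain ⟨i, hi, h1 | h1⟩ := h.cover τ
    · refine ⟨i, ?_, hi, ?_⟩
      · rcases Nat.eq_zero_or_pos i with h0 | h0
        · rw [h0, pow_zero, inv_one, one_mul] at h1
          exact absurd h1 hτ2
        · exact h0
      · have h2 := N₁.mul_mem hτ1 (N₁.inv_mem (hle h1))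
        rwa [mul_inv_rev, inv_inv, mul_inv_cancel_left] at h2
    · have h2 : r ^ i * s ∈ N₁ := by
        have h2 := N₁.mul_mem hτ1 (N₁.inv_mem (hle h1))
        rwa [mul_inv_rev, inv_inv, mul_inv_cancel_left] at h2
      refine ⟨2, two_pos, by omega, ?_⟩
      have e1 : (r : G ⧸ N₁) ^ i * (s : G ⧸ N₁) = 1 := (QuotientGroup.eq_one_iff (r ^ i * s)).2 h2
      have e2 : (s : G ⧸ N₁) * (s : G ⧸ N₁) = 1 := (QuotientGroup.eq_one_iff (s * s)).2 (hle h.ss)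
      have e3 : (r : G ⧸ N₁) * (s : G ⧸ N₁) * ((r : G ⧸ N₁) * (s : G ⧸ N₁)) = 1 :=
        (QuotientGroup.eq_one_iff (r * s * (r * s))).2 (hle h.rs)
      have e4 : (s : G ⧸ N₁) = ((r : G ⧸ N₁) ^ i)⁻¹ := eq_inv_of_mul_eq_one_right e1
      have e5 : (s : G ⧸ N₁) * (r : G ⧸ N₁) = (r : G ⧸ N₁) * (s : G ⧸ N₁) := by
        rw [e4]
        exact ((Commute.refl (r : G ⧸ N₁)).pow_left i).inv_left.eq
      have e6 : (r : G ⧸ N₁) * (s : G ⧸ N₁) * ((r : G ⧸ N₁) * (s : G ⧸ N₁)) =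
          (r : G ⧸ N₁) * (r : G ⧸ N₁) * ((s : G ⧸ N₁) * (s : G ⧸ N₁)) := by
        rw [mul_assoc, ← mul_assoc (s : G ⧸ N₁) (r : G ⧸ N₁) (s : G ⧸ N₁), e5]
        group
      rw [e6, e2, mul_one] at e3
      refine (QuotientGroup.eq_one_iff (r ^ 2)).1 ?_
      rw [pow_two]
      exact e3
  rcases hn with rfl | rfl
  · apply hcN
    interval_cases i
    · rw [pow_one] at hi
      exact N₁.pow_mem hi 2
    · exact hi
    · have h3 := hsub 3 1 hi h2n
      rw [pow_one] at h3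
      exact N₁.pow_mem h3 2
  · by_cases h3 : r ^ 3 ∈ N₁
    · exact hcN h3
    have hr2 : r ^ 2 ∈ N₁ := by
      interval_cases i
      · rw [pow_one] at hi
        exact N₁.pow_mem hi 2
      · exact hi
      · exact absurd hi h3
      · exact hsub 4 2 hi h2n
      · have h4 := hsub 5 1 hi h2n
        rw [pow_one] at h4
        exact N₁.pow_mem h4 2
    have hr4 : r ^ 4 ∈ N₁ := by
      have h4 := N₁.pow_mem hr2 2
      rwa [← pow_mul] at h4
    funext x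
    obtain ⟨σ, rfl⟩ := MulAction.exists_smul_eq G x0 x
    have h5 := (mem_ED.1 hf).2 rfl σ
    rw [hf₁.2 σ _ hr2, hf₁.2 σ _ hr4] at h5
    rw [Pi.zero_apply]
    linarith

/-- RECIPE. Let `f` be in both, `N₁ = N ⊔ N'` (normal). `f ∈ VK c x0 N₁` (`VK_sup` of row B6). `N₁ ≠ N` or
`N₁ ≠ N'`; let `N₁ ≠ N` (the other case is symmetric: make a private lemma for one side). An element of
`N₁` which is not in `N` is `r ^ i k` with `0 < i < 2 n` or `r ^ i s k`, `k ∈ N ≤ N₁`, so `r ^ i ∈ N₁` or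
`r ^ i s ∈ N₁`. In the second case conjugation by `r` gives `r ^ (i + 2) s k' ∈ N₁`, so `r ^ 2 ∈ N₁`. For
`n = 2` in all cases `r ^ 2 ∈ N₁`, so `c ∈ N₁` and `VK c x0 N₁ = ⊥` (`VK_eq_bot`). For `n = 3`: `c ∈ N₁` (if
`i = 3`) or `r ^ 2 ∈ N₁`; in the last case `f (σ r ^ 2 • x0) = f (σ • x0)` and the relation of `ED` is
`3 f (σ • x0) = 0`. Every element of `X` is `σ • x0` (transitivity). -/
theorem disj_ED (hA : Act G X c g) {n n' : ℕ} (hn : n = 2 ∨ n = 3) (hn' : n' = 2 ∨ n' = 3)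
    {x0 : X} {N N' : Subgroup G} {r s r' s' : G} (h : DD n c x0 N r s)
    (h' : DD n' c x0 N' r' s') (hne : N ≠ N') :
    Disjoint (ED n c x0 N r) (ED n' c x0 N' r') := by
  rw [Submodule.disjoint_def]
  intro f hf hf'
  have hnor := h.normal
  have hnor' := h'.normal
  have hsup : f ∈ VK c x0 (N ⊔ N') :=
    Pool.Agent.Lib.MP_938ce2_ag_L3.VK_sup x0 N N' (Submodule.mem_inf.2 ⟨hf.1, hf'.1⟩)
  have hN : (N ⊔ N').Normal := Subgroup.sup_normal N N'
  by_cases h1 : N = N ⊔ N'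
  · by_cases h2 : N' = N ⊔ N'
    · exact absurd (h1.trans h2.symm) hne
    · exact d5_key hA hn' h' hN le_sup_right h2 hf' hsup
  · exact d5_key hA hn h hN le_sup_left h1 hf hsup

end Pool.Agent.Lib.MP_938ce2_ag_L4
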