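import Pool.Agent.Lib.MP_938ce2_ag_L3.LD

/-!
The dihedral Galois CM subfields: definitions for the lower bound.

`G` is a finite group acting transitively on `X`, `c` a central involution without fixed points on `X`,
`x0 : X` a base point. `N` is a normal subgroup which contains the stabilizers, `c ∉ N`, and `G ⧸ N` is a
dihedral group of order `4 n` (`n = 2`: order 8, `n = 3`: order 12). The image of `c` is `r ^ n`. For a CM
type `Φ` let `S σ = bsum N x0 Φ σ` be the sum of the signs over the block `σ N x0`. The numbers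
`S (r ^ i)`, `i < n`, give a number `α = ∑ S (r ^ i) ζ ^ i` in `ℤ[ζ]`, `ζ` a primitive root of unity of
order `2 n`, so `α = x + y ζ` with `x = fx n`, `y = fy n`, and the numbers `S (r ^ i s)` give a number
`β = u + v ζ`. The norms are `nrm n x y` and `nrm n u v`. The CM type is degenerate if they are equal.
-/

set_option autoImplicit false
set_option linter.unusedSectionVars false

namespace Pool.Agent.Lib.MP_938ce2_ag_L4

open Finset Module
open Pool.Agent.Lib.MP_938ce2_ag_h67 (sg)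
open Pool.Agent.Lib.MP_938ce2_ag_h60 (CMType GeneratedByDivisors Nondeg)
open Pool.Agent.Lib.MP_938ce2_ag_u2 (Act)
open Pool.Agent.Lib.MP_938ce2_ag_L3 (VK Prim)

/-- the first coordinate of `∑ a i ζ ^ i` -/
def fx (n : ℕ) (a : ℕ → ℤ) : ℤ := if n = 2 then a 0 else a 0 - a 2

/-- the second coordinate of `∑ a i ζ ^ i` -/
def fy (n : ℕ) (a : ℕ → ℤ) : ℤ := if n = 2 then a 1 else a 1 + a 2

/-- the norm of `x + y ζ` -/
def nrm (n : ℕ) (x y : ℤ) : ℤ := if n = 2 then x ^ 2 + y ^ 2 else x ^ 2 + x * y + y ^ 2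

/-- equal norms -/
def Sing (n : ℕ) (w : Fin 4 → ℤ) : Prop := nrm n (w 0) (w 1) = nrm n (w 2) (w 3)

section

variable {G X : Type} [Group G] [MulAction G X]

/-- the Galois CM subfields with dihedral Galois group of order `4 n` -/
def Dih (n : ℕ) (c : G) (x0 : X) : Set (Subgroup G) :=
  {N | ∃ _ : N.Normal, MulAction.stabilizer G x0 ≤ N ∧ c ∉ N ∧
    Nonempty (G ⧸ N ≃* DihedralGroup (2 * n))}

/-- `r` and `s` generate the dihedral group `G ⧸ N` -/
structure DD (n : ℕ) (c : G) (x0 : X) (N : Subgroup G) (r s : G) : Prop where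
  normal : N.Normal
  stab : MulAction.stabilizer G x0 ≤ N
  cN : c ∉ N
  index : N.index = 4 * n
  rn : c * r ^ n ∈ N
  ss : s * s ∈ N
  rs : r * s * (r * s) ∈ N
  rN : ∀ i : ℕ, r ^ i ∈ N ↔ 2 * n ∣ i
  sN : ∀ i : ℕ, r ^ i * s ∉ N
  cover : ∀ σ : G, ∃ i < 2 * n, (r ^ i)⁻¹ * σ ∈ N ∨ (r ^ i * s)⁻¹ * σ ∈ N

variable [Fintype X] [DecidableEq X]

open Classical in
/-- the sum of the signs over the block `σ N x0` -/
noncomputable def bsum (N : Subgroup G) (x0 : X) (Φ : Finset X) (σ : G) : ℤ :=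
  ∑ x ∈ univ.filter (fun x => ∃ k ∈ N, (σ * k) • x0 = x), sg Φ x

/-- the numbers `x`, `y`, `u`, `v` -/
noncomputable def co (n : ℕ) (N : Subgroup G) (x0 : X) (r s : G) (Φ : Finset X) : Fin 4 → ℤ :=
  ![fx n fun i => bsum N x0 Φ (r ^ i), fy n fun i => bsum N x0 Φ (r ^ i),
    fx n fun i => bsum N x0 Φ (r ^ i * s), fy n fun i => bsum N x0 Φ (r ^ i * s)]

open Classical in
/-- the CM types with equal norms and coordinates at most `R` -/
noncomputable def evD (n : ℕ) (c : G) (N : Subgroup G) (x0 : X) (r s : G) (R : ℕ) :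
    Finset (Finset X) :=
  univ.filter fun Φ => CMType c Φ ∧ Sing n (co n N x0 r s Φ) ∧ ∀ j, |co n N x0 r s Φ j| ≤ (R : ℤ)

lemma mem_evD {n : ℕ} {c : G} {N : Subgroup G} {x0 : X} {r s : G} {R : ℕ} {Φ : Finset X} :
    Φ ∈ evD n c N x0 r s R ↔
      CMType c Φ ∧ Sing n (co n N x0 r s Φ) ∧ ∀ j, |co n N x0 r s Φ j| ≤ (R : ℤ) := by
  classical
  unfold evD
  rw [mem_filter]
  exact ⟨fun h => h.2, fun h => ⟨mem_univ _, h⟩⟩

/-- the functions in `VK c x0 N` which belong to the faithful two-dimensional representation -/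
def ED (n : ℕ) (c : G) (x0 : X) (N : Subgroup G) (r : G) : Submodule ℚ (X → ℚ) where
  carrier := {f | f ∈ VK c x0 N ∧ (n = 3 → ∀ σ : G, f (σ • x0) + f ((σ * r ^ 2) • x0)
    + f ((σ * r ^ 4) • x0) = 0)}
  add_mem' := by
    rintro v w ⟨h1, h2⟩ ⟨h3, h4⟩
    refine ⟨add_mem h1 h3, fun hn σ => ?_⟩
    have h5 := h2 hn σ
    have h6 := h4 hn σ
    simp only [Pi.add_apply]
    linarith
  zero_mem' := ⟨zero_mem _, fun _ _ => by simp⟩
  smul_mem' := by
    rintro a v ⟨h1, h2⟩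
    refine ⟨Submodule.smul_mem _ a h1, fun hn σ => ?_⟩
    have h5 := h2 hn σ
    simp only [Pi.smul_apply, smul_eq_mul]
    rw [← mul_add, ← mul_add, h5, mul_zero]

lemma mem_ED {n : ℕ} {c : G} {x0 : X} {N : Subgroup G} {r : G} {f : X → ℚ} :
    f ∈ ED n c x0 N r ↔ f ∈ VK c x0 N ∧ (n = 3 → ∀ σ : G, f (σ • x0) + f ((σ * r ^ 2) • x0)
      + f ((σ * r ^ 4) • x0) = 0) := Iff.rfl

end

end Pool.Agent.Lib.MP_938ce2_ag_L4
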