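import Pool.Agent.Lib.MP_938ce2_ag_L3.B1
import Pool.Agent.Lib.MP_938ce2_ag_L3.A2
import Pool.Agent.Lib.MP_938ce2_ag_L3.A3
import Pool.Agent.Lib.MP_938ce2_ag_L4.LD4

/-!
Row D6: the CM types with given values on a space of functions of the block.
-/

set_option autoImplicit false
set_option linter.unusedSectionVars false

namespace Pool.Agent.Lib.MP_938ce2_ag_L4

open Finset Module
open Pool.Agent.Lib.MP_938ce2_ag_h67 (sg)
open Pool.Agent.Lib.MP_938ce2_ag_h60 (CMType GeneratedByDivisors Nondeg)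
open Pool.Agent.Lib.MP_938ce2_ag_u2 (Act)
open Pool.Agent.Lib.MP_938ce2_ag_L3 (VK VK_iff exists_blk exists_blk_cm Prim mem_VK exists_pivot
  count_pivot)

variable {G X : Type} [Group G] [Fintype G] [MulAction G X] [Fintype X] [DecidableEq X]
  [MulAction.IsPretransitive G X] {c : G} {g : ℕ}

private lemma sum_sg {W : Type} [DecidableEq W] (η S : Finset W) :
    ∑ w ∈ S, (sg η w : ℚ) = 2 * ((η ∩ S).card : ℚ) - S.card := by
  have h1 : ∀ w ∈ S, (sg η w : ℚ) = 2 * (if w ∈ η then 1 else 0) - 1 := by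
    intro w _
    unfold sg
    split_ifs <;> norm_num
  rw [sum_congr rfl h1, sum_sub_distrib, ← mul_sum, sum_boole]
  simp only [sum_const, nsmul_eq_mul, mul_one]
  congr 3
  congr 1
  ext w
  simp only [mem_filter, mem_inter]
  exact and_comm

open Classical in
/-- RECIPE. Copy of the proof of `L3.orth_card_le` (file L3/B3.lean, 180 lines), with the value `ℓ v` in place
of `0`: the set `T` of that proof becomes the set of the `n` with
`∑ z, u z (2 n z - r) = ℓ' u` for all `u ∈ U'` (or: `T` = the set of the vectors of block counts of the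
`η ⊆ Φ₀` which satisfy the conditions); only differences of two elements of `T` are used. -/
theorem val_card_le (hA : Act G X c g) (x0 : X) (K : Subgroup G)
    (hK : MulAction.stabilizer G x0 ≤ K) (hc : c ∉ K) (U : Submodule ℚ (X → ℚ)) (hU : U ≤ VK c x0 K)
    (ℓ : (X → ℚ) → ℚ) (r : ℕ) (hr : r * K.index = 2 * g) :
    (univ.filter fun Φ : Finset X => CMType c Φ ∧ ∀ v ∈ U, ∑ x, (sg Φ x : ℚ) * v x = ℓ v).card
      * 2 ^ (r * finrank ℚ U) ≤ 2 ^ g * (r.choose (r / 2)) ^ finrank ℚ U := by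
  classical
  obtain ⟨β, hβ, hcard⟩ := exists_blk x0 K hK
  obtain ⟨Φ₀, h₀, hun⟩ := exists_blk_cm hA x0 K hc β hβ
  have hidx : 0 < K.index := Nat.pos_of_ne_zero Subgroup.index_ne_zero_of_finite
  have hfib : ∀ z, (univ.filter fun x => β x = z).card = r := by
    intro z
    have h1 := hcard z
    rw [hA.card, ← hr] at h1
    exact Nat.eq_of_mul_eq_mul_right hidx h1
  have hVβ : ∀ v ∈ U, ∀ x y, β x = β y → v x = v y := by
    intro v hv x y hxy
    obtain ⟨h, -, h2⟩ := (VK_iff hA x0 K β hβ v).1 (hU hv)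
    rw [h2, h2, hxy]
  let Z := {z : G ⧸ K // ∃ x ∈ Φ₀, β x = z}
  let βW : {x // x ∈ Φ₀} → Z := fun w => ⟨β w, w, w.2, rfl⟩
  let s : Z → X := fun z => z.2.choose
  have hs1 : ∀ z : Z, s z ∈ Φ₀ := fun z => z.2.choose_spec.1
  have hs2 : ∀ z : Z, β (s z) = z.1 := fun z => z.2.choose_spec.2
  let R : (X → ℚ) →ₗ[ℚ] (Z → ℚ) := LinearMap.funLeft ℚ ℚ s
  have hR : ∀ (v : X → ℚ) (z : Z), R v z = v (s z) := fun _ _ => rfl
  let U' : Submodule ℚ (Z → ℚ) := U.map R
  have hker : ∀ v ∈ U, R v = 0 → v = 0 := by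
    intro v hv h0
    have hin : ∀ x ∈ Φ₀, v x = 0 := by
      intro x hx
      have h1 : R v (βW ⟨x, hx⟩) = 0 := by rw [h0]; rfl
      rw [hR] at h1
      rw [← h1]
      exact hVβ v hv _ _ (hs2 (βW ⟨x, hx⟩)).symm
    funext x
    by_cases hx : x ∈ Φ₀
    · exact hin x hx
    · have hx2 : c • x ∈ Φ₀ := by
        by_contra h
        exact hx ((h₀ x).2 h)
      have h1 := hin _ hx2
      rw [(mem_VK.1 (hU hv)).1 x, neg_eq_zero] at h1
      exact h1
  have hfr : finrank ℚ U' = finrank ℚ U := by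
    have h1 : U' = LinearMap.range (R.domRestrict U) := by
      ext w
      constructor
      · rintro ⟨v, hv, rfl⟩
        exact ⟨⟨v, hv⟩, rfl⟩
      · rintro ⟨v, rfl⟩
        exact ⟨v.1, v.2, rfl⟩
    rw [h1]
    refine LinearMap.finrank_range_of_inj ?_
    rw [injective_iff_map_eq_zero]
    intro v hv
    exact Subtype.ext (hker v.1 v.2 hv)
  obtain ⟨P, hP, hPw⟩ := exists_pivot U'
  let T : Set (Z → ℕ) := {n | ∀ v ∈ U, ∑ z, R v z * (2 * (n z : ℚ) - r) = ℓ v / 2}
  have hT : ∀ n ∈ T, ∀ n' ∈ T, (∀ z, z ∉ P → n z = n' z) → n = n' := by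
    intro n hn n' hn' hnn
    obtain ⟨u, ⟨v, hv, rfl⟩, huw⟩ := hPw fun z => (n z : ℚ) - n' z
    have h1 : ∑ z, R v z * (2 * (n z : ℚ) - r) - ∑ z, R v z * (2 * (n' z : ℚ) - r) = 0 := by
      rw [hn v hv, hn' v hv, sub_self]
    rw [← sum_sub_distrib] at h1
    have h2 : ∀ z : Z, R v z * (2 * (n z : ℚ) - r) - R v z * (2 * (n' z : ℚ) - r) =
        2 * ((n z : ℚ) - n' z) ^ 2 := by
      intro z
      by_cases hz : z ∈ P
      · rw [huw z hz]
        ring
      · rw [hnn z hz]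
        ring
    rw [sum_congr rfl fun z _ => h2 z] at h1
    have h3 := (sum_eq_zero_iff_of_nonneg fun z _ => by positivity).1 h1
    funext z
    have h4 := h3 z (mem_univ z)
    have h5 : ((n z : ℚ) - n' z) ^ 2 = 0 := by linarith
    have h6 : (n z : ℚ) - n' z = 0 := by
      exact pow_eq_zero_iff (two_ne_zero) |>.1 h5
    exact_mod_cast sub_eq_zero.1 h6
  have hfibW : ∀ z : Z, (univ.filter fun w => βW w = z).card = r := by
    intro z
    rw [← hfib z.1]
    refine card_bij (fun w _ => w.1) ?_ ?_ ?_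
    · intro w hw
      rw [mem_filter] at hw ⊢
      exact ⟨mem_univ _, congrArg Subtype.val hw.2⟩
    · intro w _ w' _ h
      exact Subtype.ext h
    · intro x hx
      rw [mem_filter] at hx
      have hx0 : x ∈ Φ₀ := (hun (s z) x ((hs2 z).trans hx.2.symm)).1 (hs1 z)
      refine ⟨⟨x, hx0⟩, ?_, rfl⟩
      rw [mem_filter]
      exact ⟨mem_univ _, Subtype.ext hx.2⟩
  have hcnt := count_pivot βW r P (fun z _ => by convert hfibW z) T hT
  rw [hP, hfr, Pool.Agent.Lib.MP_938ce2_ag_u2.card_cm hA h₀] at hcnt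
  refine le_trans (Nat.mul_le_mul_right _ ?_) hcnt
  have e2 := Pool.Agent.Lib.MP_938ce2_ag_u2.card_cm_filter hA h₀
    (fun Φ => ∀ v ∈ U, ∑ x, (sg Φ x : ℚ) * v x = ℓ v)
  have e3 : (univ.filter fun Φ : Finset X => CMType c Φ ∧
      ∀ v ∈ U, ∑ x, (sg Φ x : ℚ) * v x = ℓ v).card = (univ.filter fun η : Finset {x // x ∈ Φ₀} =>
        ∀ v ∈ U, ∑ x, (sg (Pool.Agent.Lib.MP_938ce2_ag_u2.cmExt c Φ₀ η) x : ℚ) * v x = ℓ v).card := by
    convert e2
  have e4 : (univ.filter fun η : Finset {x // x ∈ Φ₀} =>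
      ∀ v ∈ U, ∑ x, (sg (Pool.Agent.Lib.MP_938ce2_ag_u2.cmExt c Φ₀ η) x : ℚ) * v x = ℓ v).card ≤
      (univ.filter fun η : Finset {x // x ∈ Φ₀} =>
        (fun z => (η.filter fun w => βW w = z).card) ∈ T).card := by
    refine card_le_card fun η hη => ?_
    rw [mem_filter] at hη ⊢
    refine ⟨mem_univ _, ?_⟩
    intro v hv
    have h1 := hη.2 v hv
    have h2 := Pool.Agent.Lib.MP_938ce2_ag_u2.sum_cmExt hA h₀ η v (mem_VK.1 (hU hv)).1
    simp only [zsmul_eq_mul] at h2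
    rw [h1, two_nsmul] at h2
    have h3 : ∑ w : {x // x ∈ Φ₀}, (sg η w : ℚ) * v w = ℓ v / 2 := by linarith
    have h5 : ∑ w : {x // x ∈ Φ₀}, (sg η w : ℚ) * v w =
        ∑ z : Z, ∑ w ∈ univ.filter (fun w => βW w = z), (sg η w : ℚ) * v w :=
      (sum_fiberwise univ βW _).symm
    rw [h5] at h3
    rw [← h3]
    refine sum_congr rfl fun z _ => ?_
    have h6 : ∀ w ∈ univ.filter (fun w => βW w = z),
        (sg η w : ℚ) * v w = (sg η w : ℚ) * v (s z) := by
      intro w hw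
      rw [mem_filter] at hw
      rw [hVβ v hv w.1 (s z) ((congrArg Subtype.val hw.2).trans (hs2 z).symm)]
    have h7 : (η ∩ univ.filter (fun w => βW w = z)) = η.filter fun w => βW w = z := by
      ext w
      simp only [mem_inter, mem_filter, mem_univ, true_and]
    rw [sum_congr rfl h6, ← sum_mul, sum_sg, hfibW z, hR, mul_comm, h7]
  refine le_trans (le_of_eq ?_) (e4.trans (le_of_eq ?_))
  · convert e3
  · congr!

end Pool.Agent.Lib.MP_938ce2_ag_L4
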