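import Pool.Agent.Lib.MP_938ce2_ag_K.K3
import Pool.Agent.Lib.MP_938ce2_ag_L4.LD4

/-!
Row N4: few pairs of small equal norms.
-/

set_option autoImplicit false
set_option linter.unusedSectionVars false

namespace Pool.Agent.Lib.MP_938ce2_ag_L4

open Finset Module
open Pool.Agent.Lib.MP_938ce2_ag_h67 (sg)
open Pool.Agent.Lib.MP_938ce2_ag_h60 (CMType GeneratedByDivisors Nondeg)
open Pool.Agent.Lib.MP_938ce2_ag_u2 (Act)
open Pool.Agent.Lib.MP_938ce2_ag_L3 (VK Prim)

variable {G X : Type} [Group G] [Fintype G] [MulAction G X] [Fintype X] [DecidableEq X]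
  [MulAction.IsPretransitive G X] {c : G} {g : ℕ}

open Classical in
/-- the integral points with equal norms in a box -/
noncomputable def singPts (n R : ℕ) : Finset (Fin 4 → ℤ) :=
  (Fintype.piFinset fun _ : Fin 4 => Icc (-(R : ℤ)) R).filter fun w => Sing n w

private lemma mat_fin (T : ℕ) :
    ({W : Matrix (Fin 2) (Fin 2) ℤ | (∀ i j, |W i j| ≤ T) ∧ W.det = 0}).Finite := by
  have h : (Set.pi Set.univ fun _ : Fin 2 => Set.pi Set.univ fun _ : Fin 2 =>
      Set.Icc (-(T : ℤ)) T).Finite :=
    Set.Finite.pi fun _ => Set.Finite.pi fun _ => Set.finite_Icc _ _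
  refine Set.Finite.subset h ?_
  rintro W ⟨hW, -⟩ i - j -
  exact abs_le.1 (hW i j)

private lemma card_le_ncard (n R : ℕ) (f : (Fin 4 → ℤ) → Matrix (Fin 2) (Fin 2) ℤ)
    (hf : Function.Injective f)
    (h : ∀ w : Fin 4 → ℤ, (∀ i, |w i| ≤ (R : ℤ)) → Sing n w → (∀ i j, |f w i j| ≤ ((6 * R : ℕ) : ℤ)) ∧
      (f w).det = 0) :
    (singPts n R).card ≤
      ({W : Matrix (Fin 2) (Fin 2) ℤ | (∀ i j, |W i j| ≤ ((6 * R : ℕ) : ℤ)) ∧ W.det = 0}).ncard := by
  classical
  rw [← Set.ncard_coe_finset]
  refine Set.ncard_le_ncard_of_injOn f ?_ hf.injOn (mat_fin _)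
  intro w hw
  have hw2 : w ∈ singPts n R := hw
  unfold singPts at hw2
  rw [mem_filter, Fintype.mem_piFinset] at hw2
  refine h w (fun i => ?_) hw2.2
  have := mem_Icc.1 (hw2.1 i)
  exact abs_le.2 this

/-- RECIPE. `K.card_sing 2` counts the singular integral `2 × 2` matrices with entries of absolute value
at most `T`: at most `C T² (1 + log T)`. For `n = 2` send `w = (x, y, u, v)` to the matrix
`[[x - u, v - y], [v + y, x + u]]`, its determinant is `x² + y² - u² - v²`, entries at most `2 R`. For
`n = 3` put `p = 2 x + y`, `q = 2 u + v` and take `[[p - q, 3 (v - y)], [v + y, p + q]]`: the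
determinant is `4 (x² + x y + y²) - 4 (u² + u v + v²)`, entries at most `6 R`. Both maps are injective.
(`Set.ncard_le_ncard_of_injOn` or `Finset.card_le_card_of_injOn`.) -/
theorem card_singPts (n : ℕ) (hn : n = 2 ∨ n = 3) : ∃ C : ℝ, 0 < C ∧ ∀ R : ℕ, 1 ≤ R →
    ((singPts n R).card : ℝ) ≤ C * (R : ℝ) ^ 2 * (1 + Real.log R) := by
  obtain ⟨C, hC, hb⟩ := Pool.Agent.Lib.MP_938ce2_ag_K.card_sing 2 le_rfl
  refine ⟨C * 36 * 3, by positivity, fun R hR => ?_⟩
  have hR1 : (1 : ℝ) ≤ R := by exact_mod_cast hR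
  have hlog : 0 ≤ Real.log R := Real.log_nonneg hR1
  have h6 : Real.log 6 ≤ 2 := by
    have : (6 : ℝ) ≤ Real.exp 2 := by
      have h1 : (2.7 : ℝ) ≤ Real.exp 1 := by linarith [Real.exp_one_gt_d9]
      have h2 : Real.exp 2 = Real.exp 1 * Real.exp 1 := by
        rw [← Real.exp_add]; norm_num
      rw [h2]
      nlinarith
    calc Real.log 6 ≤ Real.log (Real.exp 2) := Real.log_le_log (by norm_num) this
      _ = 2 := Real.log_exp 2
  have key : ((singPts n R).card : ℝ) ≤
      (({W : Matrix (Fin 2) (Fin 2) ℤ | (∀ i j, |W i j| ≤ ((6 * R : ℕ) : ℤ)) ∧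
        W.det = 0}).ncard : ℝ) := by
    rcases hn with rfl | rfl
    · refine Nat.cast_le.2 (card_le_ncard 2 R
        (fun w => !![w 0 - w 2, w 3 - w 1; w 3 + w 1, w 0 + w 2]) ?_ ?_)
      · intro w z h
        have h00 := congrFun (congrFun h 0) 0
        have h01 := congrFun (congrFun h 0) 1
        have h10 := congrFun (congrFun h 1) 0
        have h11 := congrFun (congrFun h 1) 1
        simp at h00 h01 h10 h11
        funext i
        fin_cases i <;> simp <;> omega
      · intro w hw hs
        have h0 := abs_le.1 (hw 0)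
        have h1 := abs_le.1 (hw 1)
        have h2 := abs_le.1 (hw 2)
        have h3 := abs_le.1 (hw 3)
        constructor
        · intro i j
          rw [abs_le]
          fin_cases i <;> fin_cases j <;> simp <;> constructor <;> omega
        · unfold Sing nrm at hs
          simp only [if_true] at hs
          rw [Matrix.det_fin_two_of]
          linear_combination hs
    · refine Nat.cast_le.2 (card_le_ncard 3 R
        (fun w => !![(2 * w 0 + w 1) - (2 * w 2 + w 3), 3 * (w 3 - w 1);
          w 3 + w 1, (2 * w 0 + w 1) + (2 * w 2 + w 3)]) ?_ ?_)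
      · intro w z h
        have h00 := congrFun (congrFun h 0) 0
        have h01 := congrFun (congrFun h 0) 1
        have h10 := congrFun (congrFun h 1) 0
        have h11 := congrFun (congrFun h 1) 1
        simp at h00 h01 h10 h11
        funext i
        fin_cases i <;> simp <;> omega
      · intro w hw hs
        have h0 := abs_le.1 (hw 0)
        have h1 := abs_le.1 (hw 1)
        have h2 := abs_le.1 (hw 2)
        have h3 := abs_le.1 (hw 3)
        constructor
        · intro i j
          rw [abs_le]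
          fin_cases i <;> fin_cases j <;> simp <;> constructor <;> omega
        · unfold Sing nrm at hs
          rw [if_neg (by norm_num), if_neg (by norm_num)] at hs
          rw [Matrix.det_fin_two_of]
          linear_combination 4 * hs
  refine key.trans ((hb (6 * R) (by omega)).trans ?_)
  have hl : Real.log ((6 * R : ℕ) : ℝ) = Real.log 6 + Real.log R := by
    push_cast
    rw [Real.log_mul (by norm_num) (by positivity)]
  rw [hl]
  have hp : (((6 * R : ℕ) : ℝ)) ^ (2 ^ 2 - min 2 4) = 36 * (R : ℝ) ^ 2 := by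
    push_cast
    norm_num
    ring
  rw [hp]
  have : 1 + (Real.log 6 + Real.log R) ≤ 3 * (1 + Real.log R) := by linarith
  calc C * (36 * (R : ℝ) ^ 2) * (1 + (Real.log 6 + Real.log R))
      ≤ C * (36 * (R : ℝ) ^ 2) * (3 * (1 + Real.log R)) := by gcongr
    _ = C * 36 * 3 * (R : ℝ) ^ 2 * (1 + Real.log R) := by ring

end Pool.Agent.Lib.MP_938ce2_ag_L4
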