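import Pool.Agent.Lib.MP_938ce2_ag_L4.D4
import Pool.Agent.Lib.MP_938ce2_ag_L4.D5
import Pool.Agent.Lib.MP_938ce2_ag_L4.D6
import Pool.Agent.Lib.MP_938ce2_ag_L4.N4

/-!
Row D7: pairs of events.
-/

set_option autoImplicit false
set_option linter.unusedSectionVars false

namespace Pool.Agent.Lib.MP_938ce2_ag_L4

open Finset Module
open Pool.Agent.Lib.MP_938ce2_ag_h67 (sg)
open Pool.Agent.Lib.MP_938ce2_ag_h60 (CMType GeneratedByDivisors Nondeg)
open Pool.Agent.Lib.MP_938ce2_ag_u2 (Act)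
open Pool.Agent.Lib.MP_938ce2_ag_L3 (VK VK_iff exists_blk exists_blk_cm Prim)

variable {G X : Type} [Group G] [Fintype G] [MulAction G X] [Fintype X] [DecidableEq X]
  [MulAction.IsPretransitive G X] {c : G} {g : ℕ}

private lemma VK_mono (x0 : X) {K N : Subgroup G} (h : K ≤ N) : VK c x0 N ≤ VK c x0 K := by
  intro f hf
  exact ⟨hf.1, fun σ k hk => hf.2 σ k (h hk)⟩

private lemma ED_le_VK (n : ℕ) (x0 : X) (N : Subgroup G) (r : G) :
    ED n c x0 N r ≤ VK c x0 N := fun _ hf => hf.1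

open Classical in
/-- the number of CM types with given coordinates -/
private lemma class_card (hA : Act G X c g) {n n' : ℕ} (hn : n = 2 ∨ n = 3) (hn' : n' = 2 ∨ n' = 3)
    {x0 : X} {N N' : Subgroup G} {r s r' s' : G} (h : DD n c x0 N r s)
    (h' : DD n' c x0 N' r' s') (hne : N ≠ N') (w w' : Fin 4 → ℤ) :
    ((univ.filter fun Φ : Finset X => CMType c Φ ∧ co n N x0 r s Φ = w ∧
      co n' N' x0 r' s' Φ = w').card : ℝ) ≤ (72 / (g : ℝ)) ^ 4 * 2 ^ g := by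
  have hg1 : 1 ≤ g := hA.pos
  have hgR : (0 : ℝ) < g := by exact_mod_cast hg1
  rcases (univ.filter fun Φ : Finset X => CMType c Φ ∧ co n N x0 r s Φ = w ∧
      co n' N' x0 r' s' Φ = w').eq_empty_or_nonempty with he | ⟨Φ₀, hΦ₀⟩
  · rw [he, card_empty, Nat.cast_zero]
    positivity
  rw [mem_filter] at hΦ₀
  obtain ⟨-, hcm₀, hw₀, hw₀'⟩ := hΦ₀
  have hK : MulAction.stabilizer G x0 ≤ N ⊓ N' := le_inf h.stab h'.stab
  have hcK : c ∉ N ⊓ N' := fun hm => h.cN hm.1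
  obtain ⟨β, hβ, hβc⟩ := exists_blk x0 (N ⊓ N') hK
  set b : ℕ := (univ.filter fun x => β x = ((1 : G) : G ⧸ (N ⊓ N'))).card with hb
  have hbK : b * (N ⊓ N').index = 2 * g := by
    rw [← hA.card]
    exact hβc _
  have hind : (N ⊓ N').index ≤ 144 := by
    refine (Subgroup.index_inf_le).trans ?_
    rw [h.index, h'.index]
    rcases hn with rfl | rfl <;> rcases hn' with rfl | rfl <;> norm_num
  have hb1 : 1 ≤ b := by
    rcases Nat.eq_zero_or_pos b with h0 | h0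
    · rw [h0, Nat.zero_mul] at hbK
      omega
    · exact h0
  have hb72 : (g : ℝ) ≤ 72 * b := by
    have h1 : 2 * g ≤ b * 144 := by
      rw [← hbK]
      exact Nat.mul_le_mul_left b hind
    have h2 : (2 : ℝ) * g ≤ b * 144 := by exact_mod_cast h1
    linarith
  have hbR : (0 : ℝ) < b := by exact_mod_cast hb1
  set U : Submodule ℚ (X → ℚ) := ED n c x0 N r ⊔ ED n' c x0 N' r' with hU
  have hUV : U ≤ VK c x0 (N ⊓ N') :=
    sup_le ((ED_le_VK n x0 N r).trans (VK_mono x0 inf_le_left))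
      ((ED_le_VK n' x0 N' r').trans (VK_mono x0 inf_le_right))
  have hfin : finrank ℚ U = 8 := by
    have h1 := Submodule.finrank_sup_add_finrank_inf_eq (ED n c x0 N r) (ED n' c x0 N' r')
    rw [(disj_ED hA hn hn' h h' hne).eq_bot, finrank_bot, finrank_ED hA hn h,
      finrank_ED hA hn' h'] at h1
    exact h1
  have hv := val_card_le hA x0 (N ⊓ N') hK hcK U hUV (fun v => ∑ x, (sg Φ₀ x : ℚ) * v x) b hbK
  rw [hfin] at hv
  have hsub : (univ.filter fun Φ : Finset X => CMType c Φ ∧ co n N x0 r s Φ = w ∧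
      co n' N' x0 r' s' Φ = w') ⊆ (univ.filter fun Φ : Finset X => CMType c Φ ∧
        ∀ v ∈ U, ∑ x, (sg Φ x : ℚ) * v x = ∑ x, (sg Φ₀ x : ℚ) * v x) := by
    intro Φ hΦ
    rw [mem_filter] at hΦ ⊢
    obtain ⟨-, hcm, hw, hw'⟩ := hΦ
    refine ⟨mem_univ _, hcm, fun v hv => ?_⟩
    obtain ⟨f₁, hf₁, f₂, hf₂, rfl⟩ := Submodule.mem_sup.mp hv
    have e : ∀ Ψ : Finset X, ∑ x, (sg Ψ x : ℚ) * (f₁ + f₂) x
        = ∑ x, (sg Ψ x : ℚ) * f₁ x + ∑ x, (sg Ψ x : ℚ) * f₂ x := by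
      intro Ψ
      rw [← sum_add_distrib]
      refine sum_congr rfl fun x _ => ?_
      rw [Pi.add_apply]
      ring
    rw [e, e, sum_ED hA hn h hcm hf₁, sum_ED hA hn h hcm₀ hf₁, sum_ED hA hn' h' hcm hf₂,
      sum_ED hA hn' h' hcm₀ hf₂, hw, hw₀, hw', hw₀']
  have hcard := card_le_card hsub
  have h1 : ((univ.filter fun Φ : Finset X => CMType c Φ ∧ co n N x0 r s Φ = w ∧
      co n' N' x0 r' s' Φ = w').card : ℝ) * 2 ^ (b * 8) ≤ 2 ^ g * (b.choose (b / 2) : ℝ) ^ 8 := by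
    have h2 := (Nat.mul_le_mul_right (2 ^ (b * 8)) hcard).trans hv
    exact_mod_cast h2
  have h3 : (b.choose (b / 2) : ℝ) ^ 8 ≤ 2 ^ (b * 8) / (b : ℝ) ^ 4 := by
    have h4 := Pool.Agent.Lib.MP_938ce2_ag_L3.choose_mid_le b hb1
    calc (b.choose (b / 2) : ℝ) ^ 8 ≤ (2 ^ b / √(b : ℝ)) ^ 8 :=
          pow_le_pow_left₀ (Nat.cast_nonneg _) h4 8
      _ = 2 ^ (b * 8) / (b : ℝ) ^ 4 := by
          rw [div_pow, ← pow_mul]
          congr 1
          rw [show (8 : ℕ) = 2 * 4 by norm_num, pow_mul, Real.sq_sqrt hbR.le]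
  have h5 : (0 : ℝ) < 2 ^ (b * 8) := by positivity
  have h6 : ((univ.filter fun Φ : Finset X => CMType c Φ ∧ co n N x0 r s Φ = w ∧
      co n' N' x0 r' s' Φ = w').card : ℝ) ≤ 2 ^ g / (b : ℝ) ^ 4 := by
    have h7 : ((univ.filter fun Φ : Finset X => CMType c Φ ∧ co n N x0 r s Φ = w ∧
        co n' N' x0 r' s' Φ = w').card : ℝ) * 2 ^ (b * 8)
          ≤ 2 ^ g / (b : ℝ) ^ 4 * 2 ^ (b * 8) := by
      refine h1.trans ((mul_le_mul_of_nonneg_left h3 (by positivity)).trans (le_of_eq ?_))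
      ring
    exact le_of_mul_le_mul_right h7 h5
  refine h6.trans ?_
  rw [div_eq_inv_mul]
  refine mul_le_mul_of_nonneg_right ?_ (by positivity)
  rw [← inv_pow]
  refine pow_le_pow_left₀ (by positivity) ?_ 4
  rw [inv_eq_one_div, div_le_div_iff₀ hbR hgR]
  linarith

/-- RECIPE. `Φ` in the intersection has `w = co .. Φ ∈ singPts n R` and `w' = co .. Φ ∈ singPts n' R`. For given
`(w, w')` the number of these `Φ` is at most `2 ^ g (72 / g) ^ 4`: `val_card_le` with `K = N ⊓ N'`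
(`c ∉ K`, `stabilizer ≤ K`, index at most `144`: `Subgroup.index_inf_le`), `U = ED N ⊔ ED N'`, `finrank = 8`
(`disj_ED`, `finrank_ED`, `Submodule.finrank_sup_add_finrank_inf_eq`), `U ≤ VK c x0 K`; the sums
`∑ sg f` for `f = f₁ + f₂ ∈ U` are determined by `w`, `w'` (`sum_ED`; `ℓ v` := the common value if there is a
type `Φ₀` with these coordinates, for instance `ℓ v = ∑ x, sg Φ₀ x v x`). `r` is the size of the blocks
(`exists_blk` gives `r * K.index = 2 g`), `L3.choose_mid_le`: `r.choose (r / 2) ≤ 2 ^ r / √r`, so the number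
is at most `2 ^ g / r ^ 4`, and `r ≥ 2 g / 144`. -/
theorem pair_card (hA : Act G X c g) {n n' : ℕ} (hn : n = 2 ∨ n = 3) (hn' : n' = 2 ∨ n' = 3)
    {x0 : X} {N N' : Subgroup G} {r s r' s' : G} (h : DD n c x0 N r s)
    (h' : DD n' c x0 N' r' s') (hne : N ≠ N') (R : ℕ) :
    ((evD n c N x0 r s R ∩ evD n' c N' x0 r' s' R).card : ℝ)
      ≤ (singPts n R).card * (singPts n' R).card * (72 / (g : ℝ)) ^ 4 * 2 ^ g := by
  classical
  have hmem : ∀ {m : ℕ} {M : Subgroup G} {a b : G} {Φ : Finset X}, Φ ∈ evD m c M x0 a b R →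
      co m M x0 a b Φ ∈ singPts m R := by
    intro m M a b Φ hΦ
    obtain ⟨-, h1, h2⟩ := mem_evD.mp hΦ
    unfold singPts
    rw [mem_filter]
    refine ⟨Fintype.mem_piFinset.mpr fun j => ?_, h1⟩
    rw [mem_Icc]
    exact abs_le.mp (h2 j)
  have hsub : evD n c N x0 r s R ∩ evD n' c N' x0 r' s' R ⊆
      (singPts n R ×ˢ singPts n' R).biUnion fun p =>
        univ.filter fun Φ : Finset X => CMType c Φ ∧ co n N x0 r s Φ = p.1 ∧
          co n' N' x0 r' s' Φ = p.2 := by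
    intro Φ hΦ
    rw [mem_inter] at hΦ
    rw [mem_biUnion]
    refine ⟨(co n N x0 r s Φ, co n' N' x0 r' s' Φ), ?_, ?_⟩
    · rw [mem_product]
      exact ⟨hmem hΦ.1, hmem hΦ.2⟩
    · rw [mem_filter]
      exact ⟨mem_univ _, (mem_evD.mp hΦ.1).1, rfl, rfl⟩
  have h1 : (evD n c N x0 r s R ∩ evD n' c N' x0 r' s' R).card ≤
      ∑ p ∈ singPts n R ×ˢ singPts n' R,
        (univ.filter fun Φ : Finset X => CMType c Φ ∧ co n N x0 r s Φ = p.1 ∧
          co n' N' x0 r' s' Φ = p.2).card :=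
    (card_le_card hsub).trans card_biUnion_le
  have h2 : ((evD n c N x0 r s R ∩ evD n' c N' x0 r' s' R).card : ℝ) ≤
      ∑ p ∈ singPts n R ×ˢ singPts n' R,
        ((univ.filter fun Φ : Finset X => CMType c Φ ∧ co n N x0 r s Φ = p.1 ∧
          co n' N' x0 r' s' Φ = p.2).card : ℝ) := by exact_mod_cast h1
  refine h2.trans ((sum_le_sum fun p _ => class_card hA hn hn' h h' hne p.1 p.2).trans
    (le_of_eq ?_))
  rw [sum_const, nsmul_eq_mul, card_product]
  push_cast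
  ring

end Pool.Agent.Lib.MP_938ce2_ag_L4
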