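import Pool.Agent.Lib.MP_938ce2_ag_L4.D2
import Pool.Agent.Lib.MP_938ce2_ag_L3.A2

/-!
Row D8: the number of CM types with given block sums.
-/

set_option autoImplicit false
set_option linter.unusedSectionVars false

namespace Pool.Agent.Lib.MP_938ce2_ag_L4

open Finset Module
open Pool.Agent.Lib.MP_938ce2_ag_h67 (sg)
open Pool.Agent.Lib.MP_938ce2_ag_h60 (CMType GeneratedByDivisors Nondeg)
open Pool.Agent.Lib.MP_938ce2_ag_u2 (Act)
open Pool.Agent.Lib.MP_938ce2_ag_L3 (VK VK_iff exists_blk exists_blk_cm Prim)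

variable {G X : Type} [Group G] [Fintype G] [MulAction G X] [Fintype X] [DecidableEq X]
  [MulAction.IsPretransitive G X] {c : G} {g : ℕ}

/-- representatives of half of the blocks -/
private def rep (n : ℕ) (r s : G) : Fin n ⊕ Fin n → G :=
  Sum.elim (fun i => r ^ (i : ℕ)) fun i => r ^ (i : ℕ) * s

/-- all the blocks -/
private def allB (c : G) (n : ℕ) (N : Subgroup G) (r s : G) : (Fin n ⊕ Fin n) × Bool → G ⧸ N :=
  fun p => if p.2 then ((c * rep n r s p.1 : G) : G ⧸ N) else ((rep n r s p.1 : G) : G ⧸ N)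

private lemma allB_surj {n : ℕ} {x0 : X} {N : Subgroup G} {r s : G}
    (hcomm : ∀ σ : G, c * σ = σ * c) (hsq : c * c = 1)
    (h : DD n c x0 N r s) : Function.Surjective (allB c n N r s) := by
  have := h.normal
  intro z
  induction z using QuotientGroup.induction_on with
  | H σ =>
    obtain ⟨i, hi, h1⟩ := h.cover σ
    have hcinv : c⁻¹ = c := inv_eq_of_mul_eq_one_right hsq
    have key : ∀ j : ℕ, ((r ^ (j + n) : G) : G ⧸ N) = ((c * r ^ j : G) : G ⧸ N) := by
      intro j
      rw [eq_comm, QuotientGroup.eq]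
      have h2 : (c * r ^ j)⁻¹ * r ^ (j + n) = c * r ^ n := by
        rw [pow_add, mul_inv_rev, hcinv, mul_assoc, ← mul_assoc c, hcomm (r ^ j), mul_assoc,
          inv_mul_cancel_left]
      rw [h2]
      exact h.rn
    have key2 : ∀ j : ℕ, ((r ^ (j + n) * s : G) : G ⧸ N) = ((c * (r ^ j * s) : G) : G ⧸ N) := by
      intro j
      rw [← mul_assoc, QuotientGroup.mk_mul, key, ← QuotientGroup.mk_mul]
    rcases lt_or_ge i n with hin | hin
    · rcases h1 with h1 | h1
      · refine ⟨(Sum.inl ⟨i, hin⟩, false), ?_⟩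
        simp only [allB, rep, Sum.elim_inl]
        exact QuotientGroup.eq.2 h1
      · refine ⟨(Sum.inr ⟨i, hin⟩, false), ?_⟩
        simp only [allB, rep, Sum.elim_inr]
        exact QuotientGroup.eq.2 h1
    · obtain ⟨j, rfl⟩ : ∃ j, i = j + n := ⟨i - n, by omega⟩
      have hj : j < n := by omega
      rcases h1 with h1 | h1
      · refine ⟨(Sum.inl ⟨j, hj⟩, true), ?_⟩
        simp only [allB, rep, Sum.elim_inl, if_true]
        rw [← key]
        exact QuotientGroup.eq.2 h1
      · refine ⟨(Sum.inr ⟨j, hj⟩, true), ?_⟩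
        simp only [allB, rep, Sum.elim_inr, if_true]
        rw [← key2]
        exact QuotientGroup.eq.2 h1

private lemma allB_bij {n : ℕ} {x0 : X} {N : Subgroup G} {r s : G}
    (hcomm : ∀ σ : G, c * σ = σ * c) (hsq : c * c = 1)
    (h : DD n c x0 N r s) : Function.Bijective (allB c n N r s) := by
  classical
  refine (Fintype.bijective_iff_surjective_and_card _).2 ⟨allB_surj hcomm hsq h, ?_⟩
  have h1 : Fintype.card (G ⧸ N) = 4 * n := by
    rw [← h.index, Subgroup.index_eq_card, Nat.card_eq_fintype_card]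
  rw [h1]
  simp only [Fintype.card_prod, Fintype.card_sum, Fintype.card_fin, Fintype.card_bool]
  ring

private lemma sum_sg {W : Type} [DecidableEq W] (η S : Finset W) :
    ∑ w ∈ S, sg η w = 2 * ((η ∩ S).card : ℤ) - S.card := by
  have h1 : ∀ w ∈ S, sg η w = 2 * (if w ∈ η then 1 else 0) - 1 := by
    intro w _
    unfold sg
    split_ifs <;> norm_num
  rw [sum_congr rfl h1, sum_sub_distrib, ← mul_sum, sum_boole]
  simp only [sum_const, nsmul_eq_mul, mul_one]
  congr 3
  congr 1
  ext w
  simp only [mem_filter, mem_inter]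
  exact and_comm

open Classical in
/-- RECIPE. Let `Φ₀` be the set of the `x` whose block is the block of `r ^ i` or `r ^ i s` with `i < n`
(`β : X → G ⧸ N` of `exists_blk`): a CM type, because `c r ^ i N = r ^ (i + n) N` and these `4 n` blocks are all
blocks and different. `W = {x // x ∈ Φ₀}`, `η ↦ cmExt c Φ₀ η` is the bijection from the subsets of `W` to the CM
types (`u2.card_cm_filter hA h₀ P`), the elements of `cmExt c Φ₀ η` in `Φ₀` are those of `η`, so `bsum (r ^ i) = 2 a -
L`, where `a` is the number of elements of `η` in the block of `r ^ i`. The blocks in `Φ₀` are indexed by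
`Fin n × Bool` (or `Fin n ⊕ Fin n`), each has `L` elements, `count_eq` of row A2. -/
theorem count_val (hA : Act G X c g) {n : ℕ} {x0 : X} {N : Subgroup G} {r s : G}
    (h : DD n c x0 N r s) (L : ℕ) (hL : 2 * n * L = g) (k l : Fin n → ℕ) :
    (univ.filter fun Φ : Finset X => CMType c Φ ∧
      ∀ i : Fin n, bsum N x0 Φ (r ^ (i : ℕ)) = 2 * (k i : ℤ) - L ∧
        bsum N x0 Φ (r ^ (i : ℕ) * s) = 2 * (l i : ℤ) - L).card
      = (∏ i, L.choose (k i)) * ∏ i, L.choose (l i) := by
  obtain ⟨β, hβ, hcard⟩ := exists_blk x0 N h.stab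
  have hbij := allB_bij hA.comm hA.sq h
  have hn : 0 < n := by
    rcases Nat.eq_zero_or_pos n with h1 | h1
    · exfalso
      have := hA.pos
      rw [← hL, h1] at this
      simp at this
    · exact h1
  have hfib : ∀ z, (univ.filter fun x => β x = z).card = L := by
    intro z
    have h1 := hcard z
    rw [hA.card, ← hL, h.index] at h1
    have h2 : (univ.filter fun x => β x = z).card * (4 * n) = L * (4 * n) := by
      rw [h1]; ring
    exact Nat.eq_of_mul_eq_mul_right (by omega) h2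
  have heq : ∀ (τ : G) (x : X), β (τ • x) = τ • β x := by
    intro τ x
    obtain ⟨σ, rfl⟩ := MulAction.exists_smul_eq G x0 x
    rw [← mul_smul, hβ, hβ]
    rfl
  -- the CM type
  have h2 : ∀ x : X, (∃ z, β x = ((rep n r s z : G) : G ⧸ N)) ↔
      ¬ ∃ z, β (c • x) = ((rep n r s z : G) : G ⧸ N) := by
    intro x
    obtain ⟨⟨z, b⟩, hz⟩ := hbij.2 (β x)
    have hcx := heq c x
    cases b with
    | false =>
      have hz1 : β x = ((rep n r s z : G) : G ⧸ N) := by
        rw [← hz]; simp [allB]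
      refine ⟨fun _ => ?_, fun _ => ⟨z, hz1⟩⟩
      rintro ⟨z', hz'⟩
      have h3 : allB c n N r s (z', false) = allB c n N r s (z, true) := by
        have h4 : allB c n N r s (z', false) = ((rep n r s z' : G) : G ⧸ N) := by simp [allB]
        have h5 : allB c n N r s (z, true) = ((c * rep n r s z : G) : G ⧸ N) := by simp [allB]
        rw [h4, h5, ← hz', hcx, hz1]
        rfl
      have h6 := hbij.1 h3
      simp at h6
    | true =>
      have hz1 : β x = ((c * rep n r s z : G) : G ⧸ N) := by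
        rw [← hz]; simp [allB]
      have hz2 : β (c • x) = ((rep n r s z : G) : G ⧸ N) := by
        rw [hcx, hz1]
        have h3 : c • ((c * rep n r s z : G) : G ⧸ N) = ((c * (c * rep n r s z) : G) : G ⧸ N) := rfl
        rw [h3, ← mul_assoc, hA.sq, one_mul]
      refine ⟨?_, fun h3 => absurd ⟨z, hz2⟩ h3⟩
      rintro ⟨z', hz'⟩
      exfalso
      have h3 : allB c n N r s (z', false) = allB c n N r s (z, true) := by
        have h4 : allB c n N r s (z', false) = ((rep n r s z' : G) : G ⧸ N) := by simp [allB]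
        have h5 : allB c n N r s (z, true) = ((c * rep n r s z : G) : G ⧸ N) := by simp [allB]
        rw [h4, h5, ← hz', hz1]
      have h6 := hbij.1 h3
      simp at h6
  set Φ₀ : Finset X := univ.filter fun x => ∃ z, β x = ((rep n r s z : G) : G ⧸ N) with hΦ₀
  have hmem : ∀ x, x ∈ Φ₀ ↔ ∃ z, β x = ((rep n r s z : G) : G ⧸ N) := by
    intro x
    rw [hΦ₀, mem_filter]
    exact ⟨fun h => h.2, fun h => ⟨mem_univ _, h⟩⟩
  have h₀ : CMType c Φ₀ := by
    intro x
    rw [hmem, hmem]
    exact h2 x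
  have hrep : ∀ z z' : Fin n ⊕ Fin n, ((rep n r s z : G) : G ⧸ N) = ((rep n r s z' : G) : G ⧸ N) →
      z = z' := by
    intro z z' hzz
    have h3 : allB c n N r s (z, false) = allB c n N r s (z', false) := by
      have h4 : allB c n N r s (z', false) = ((rep n r s z' : G) : G ⧸ N) := by simp [allB]
      have h5 : allB c n N r s (z, false) = ((rep n r s z : G) : G ⧸ N) := by simp [allB]
      rw [h4, h5, hzz]
    have h6 := hbij.1 h3
    exact (Prod.mk.inj h6).1
  let βW : {x // x ∈ Φ₀} → Fin n ⊕ Fin n := fun w => ((hmem w.1).1 w.2).choose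
  have hβW : ∀ w : {x // x ∈ Φ₀}, β w.1 = ((rep n r s (βW w) : G) : G ⧸ N) :=
    fun w => ((hmem w.1).1 w.2).choose_spec
  have hβW2 : ∀ (w : {x // x ∈ Φ₀}) (z : Fin n ⊕ Fin n),
      βW w = z ↔ β w.1 = ((rep n r s z : G) : G ⧸ N) := by
    intro w z
    constructor
    · rintro rfl
      exact hβW w
    · intro h3
      exact hrep _ _ ((hβW w).symm.trans h3)
  have hfibW : ∀ z : Fin n ⊕ Fin n, (univ.filter fun w => βW w = z).card = L := by
    intro z
    rw [← hfib ((rep n r s z : G) : G ⧸ N)]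
    refine card_bij (fun w _ => w.1) ?_ ?_ ?_
    · intro w hw
      rw [mem_filter] at hw ⊢
      exact ⟨mem_univ _, (hβW2 w z).1 hw.2⟩
    · intro w _ w' _ h
      exact Subtype.ext h
    · intro x hx
      rw [mem_filter] at hx
      refine ⟨⟨x, (hmem x).2 ⟨z, hx.2⟩⟩, ?_, rfl⟩
      rw [mem_filter]
      exact ⟨mem_univ _, (hβW2 _ z).2 hx.2⟩
  -- the block sums
  have hbs : ∀ (η : Finset {x // x ∈ Φ₀}) (z : Fin n ⊕ Fin n),
      bsum N x0 (Pool.Agent.Lib.MP_938ce2_ag_u2.cmExt c Φ₀ η) (rep n r s z)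
        = 2 * ((η.filter fun w => βW w = z).card : ℤ) - L := by
    intro η z
    have h3 : bsum N x0 (Pool.Agent.Lib.MP_938ce2_ag_u2.cmExt c Φ₀ η) (rep n r s z)
        = ∑ w ∈ univ.filter (fun w => βW w = z), sg η w := by
      unfold bsum
      symm
      refine sum_bij (fun w _ => w.1) ?_ ?_ ?_ ?_
      · intro w hw
        simp only [mem_filter, mem_univ, true_and] at hw ⊢
        obtain ⟨σ, hσ⟩ := MulAction.exists_smul_eq G x0 w.1
        have h4 := (hβW2 w z).1 hw
        rw [← hσ, hβ, eq_comm, QuotientGroup.eq] at h4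
        exact ⟨_, h4, by rw [mul_inv_cancel_left, hσ]⟩
      · intro w _ w' _ h
        exact Subtype.ext h
      · intro x hx
        simp only [mem_filter, mem_univ, true_and] at hx
        obtain ⟨k, hk, rfl⟩ := hx
        have h4 : β ((rep n r s z * k) • x0) = ((rep n r s z : G) : G ⧸ N) := by
          rw [hβ, QuotientGroup.mk_mul_of_mem _ hk]
        refine ⟨⟨_, (hmem _).2 ⟨z, h4⟩⟩, ?_, rfl⟩
        rw [mem_filter]
        exact ⟨mem_univ _, (hβW2 _ z).2 h4⟩
      · intro w _
        have h4 : w ∈ η ↔ w.1 ∈ Pool.Agent.Lib.MP_938ce2_ag_u2.cmExt c Φ₀ η := by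
          unfold Pool.Agent.Lib.MP_938ce2_ag_u2.cmExt
          rw [mem_filter]
          constructor
          · intro h5
            exact ⟨mem_univ _, Or.inl ⟨w.2, h5⟩⟩
          · rintro ⟨-, ⟨_, h5⟩ | ⟨h5, _⟩⟩
            · exact h5
            · exact absurd h5 ((h₀ w.1).1 w.2)
        unfold sg
        by_cases h5 : w ∈ η
        · rw [if_pos h5, if_pos (h4.1 h5)]
        · rw [if_neg h5, if_neg fun h6 => h5 (h4.2 h6)]
    rw [h3, sum_sg, hfibW z]
    congr 3
    congr 1
    ext w
    simp only [mem_inter, mem_filter, mem_univ, true_and]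
  have e2 := Pool.Agent.Lib.MP_938ce2_ag_u2.card_cm_filter hA h₀
    (fun Φ => ∀ i : Fin n, bsum N x0 Φ (r ^ (i : ℕ)) = 2 * (k i : ℤ) - L ∧
        bsum N x0 Φ (r ^ (i : ℕ) * s) = 2 * (l i : ℤ) - L)
  have e3 : (univ.filter fun Φ : Finset X => CMType c Φ ∧
      ∀ i : Fin n, bsum N x0 Φ (r ^ (i : ℕ)) = 2 * (k i : ℤ) - L ∧
        bsum N x0 Φ (r ^ (i : ℕ) * s) = 2 * (l i : ℤ) - L).card
      = (univ.filter fun η : Finset {x // x ∈ Φ₀} =>
        ∀ z, (η.filter fun w => βW w = z).card = Sum.elim k l z).card := by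
    have e6 : (univ.filter fun Φ : Finset X => CMType c Φ ∧
        ∀ i : Fin n, bsum N x0 Φ (r ^ (i : ℕ)) = 2 * (k i : ℤ) - L ∧
          bsum N x0 Φ (r ^ (i : ℕ) * s) = 2 * (l i : ℤ) - L).card
        = (univ.filter fun η : Finset {x // x ∈ Φ₀} => ∀ i : Fin n,
          bsum N x0 (Pool.Agent.Lib.MP_938ce2_ag_u2.cmExt c Φ₀ η) (r ^ (i : ℕ))
            = 2 * (k i : ℤ) - L ∧
          bsum N x0 (Pool.Agent.Lib.MP_938ce2_ag_u2.cmExt c Φ₀ η) (r ^ (i : ℕ) * s)
            = 2 * (l i : ℤ) - L).card := by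
      convert e2
    rw [e6]
    refine congrArg Finset.card ?_
    ext η
    simp only [mem_filter, mem_univ, true_and]
    have hL1 : ∀ i : Fin n, bsum N x0 (Pool.Agent.Lib.MP_938ce2_ag_u2.cmExt c Φ₀ η) (r ^ (i : ℕ))
        = 2 * ((η.filter fun w => βW w = Sum.inl i).card : ℤ) - L := fun i => hbs η (Sum.inl i)
    have hL2 : ∀ i : Fin n, bsum N x0 (Pool.Agent.Lib.MP_938ce2_ag_u2.cmExt c Φ₀ η) (r ^ (i : ℕ) * s)
        = 2 * ((η.filter fun w => βW w = Sum.inr i).card : ℤ) - L := fun i => hbs η (Sum.inr i)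
    constructor
    · intro h3 z
      cases z with
      | inl i =>
        have h4 := (h3 i).1
        rw [hL1] at h4
        simp only [Sum.elim_inl]
        omega
      | inr i =>
        have h4 := (h3 i).2
        rw [hL2] at h4
        simp only [Sum.elim_inr]
        omega
    · intro h3 i
      rw [hL1, hL2, h3, h3]
      simp only [Sum.elim_inl, Sum.elim_inr, and_self]
  rw [e3]
  have e4 := Pool.Agent.Lib.MP_938ce2_ag_L3.count_eq βW (Sum.elim k l)
  have e5 : (univ.filter fun η : Finset {x // x ∈ Φ₀} =>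
        ∀ z, (η.filter fun w => βW w = z).card = Sum.elim k l z).card
      = ∏ z, L.choose (Sum.elim k l z) := by
    calc _ = ∏ z, ((univ.filter fun w => βW w = z).card).choose (Sum.elim k l z) := by
          convert e4
      _ = ∏ z, L.choose (Sum.elim k l z) := prod_congr rfl fun z _ => by rw [hfibW z]
  rw [e5, Fintype.prod_sum_type]
  simp only [Sum.elim_inl, Sum.elim_inr]

end Pool.Agent.Lib.MP_938ce2_ag_L4
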