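import Mathlib
import Pool.Agent.Lib.MP_938ce2_ag_L3.A3

/-!
Row N5: lower bound for binomial coefficients near the middle.
-/

set_option autoImplicit false
set_option linter.unusedSectionVars false

namespace Pool.Agent.Lib.MP_938ce2_ag_L4

open Finset

private lemma mid_ge (L : ℕ) (hL : 1 ≤ L) :
    (2 : ℝ) ^ L / (4 * √(L : ℝ)) ≤ (L.choose (L / 2) : ℝ) := by
  have hL0 : (0 : ℝ) < (L : ℝ) := by exact_mod_cast hL
  have hs : 0 < √(L : ℝ) := Real.sqrt_pos.mpr hL0
  rcases Nat.even_or_odd L with he | ho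
  · have h1 := Pool.Agent.Lib.MP_938ce2_ag_L3.choose_mid_ge L hL he
    refine le_trans ?_ h1
    gcongr
    norm_num
  · obtain ⟨m, hm⟩ := ho
    have h1 := Pool.Agent.Lib.MP_938ce2_ag_L3.choose_mid_ge (L + 1) (by omega)
      ⟨m + 1, by omega⟩
    have h2 : (L + 1) / 2 = m + 1 := by omega
    have h3 : L / 2 = m := by omega
    rw [h2] at h1
    rw [h3]
    have h4 : (L + 1).choose (m + 1) = 2 * L.choose m := by
      rw [Nat.choose_succ_succ]
      have h5 := Nat.choose_symm_half m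
      rw [← hm] at h5
      rw [h5]
      ring
    rw [h4] at h1
    push_cast at h1
    have h6 : √((L : ℝ) + 1) ≤ 2 * √(L : ℝ) := by
      rw [show (2 : ℝ) * √(L : ℝ) = √(4 * (L : ℝ)) by
        rw [Real.sqrt_mul (by norm_num), show (4 : ℝ) = 2 ^ 2 by norm_num,
          Real.sqrt_sq (by norm_num)]]
      apply Real.sqrt_le_sqrt
      have : (1 : ℝ) ≤ L := by exact_mod_cast hL
      linarith
    have hs1 : 0 < √((L : ℝ) + 1) := Real.sqrt_pos.mpr (by linarith)
    have h7 : (2 : ℝ) ^ L / (4 * √(L : ℝ)) ≤ 2 ^ (L + 1) / (2 * √((L : ℝ) + 1)) / 2 := by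
      rw [div_div, div_le_div_iff₀ (by positivity) (by positivity), pow_succ]
      have h8 : (0 : ℝ) < 2 ^ L := by positivity
      nlinarith
    linarith

private lemma step_ge (L m J : ℕ) (hm : L - m ≤ m + 1) (hmL : m ≤ L) (hJ : J ≤ m) (i : ℕ)
    (hi : i ≤ J) :
    (L.choose m : ℝ) * (((m : ℝ) - J + 1) / (m + 1 + J)) ^ i ≤ (L.choose (m - i) : ℝ) := by
  induction i with
  | zero => simp
  | succ i ih =>
    have ih := ih (by omega)
    have hJ' : (J : ℝ) ≤ m := by exact_mod_cast hJ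
    have hi' : (i : ℝ) + 1 ≤ J := by exact_mod_cast hi
    have h0 : 0 ≤ ((m : ℝ) - J + 1) / (m + 1 + J) := by
      apply div_nonneg <;> linarith
    -- choose L (m - i - 1) * (L - m + i + 1) = choose L (m - i) * (m - i)
    have h1 := Nat.choose_succ_right_eq L (m - (i + 1))
    have h2 : m - (i + 1) + 1 = m - i := by omega
    rw [h2] at h1
    have h1' : (L.choose (m - i) : ℝ) * ((m - i : ℕ) : ℝ) =
        (L.choose (m - (i + 1)) : ℝ) * ((L - (m - (i + 1)) : ℕ) : ℝ) := by exact_mod_cast h1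
    rw [Nat.cast_sub (by omega)] at h1'
    have h3 : ((L - (m - (i + 1)) : ℕ) : ℝ) ≤ m + 1 + J := by
      have : L - (m - (i + 1)) ≤ m + 1 + J := by omega
      exact_mod_cast this
    have h4 : (m : ℝ) - J + 1 ≤ m - i := by linarith
    have hc : (0 : ℝ) ≤ (L.choose (m - (i + 1)) : ℝ) := Nat.cast_nonneg _
    have hc2 : (0 : ℝ) ≤ (L.choose (m - i) : ℝ) := Nat.cast_nonneg _
    have h5 : (L.choose (m - i) : ℝ) * (((m : ℝ) - J + 1) / (m + 1 + J)) ≤
        (L.choose (m - (i + 1)) : ℝ) := by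
      rw [mul_div_assoc', div_le_iff₀ (by linarith)]
      calc (L.choose (m - i) : ℝ) * ((m : ℝ) - J + 1) ≤ (L.choose (m - i) : ℝ) * ((m : ℝ) - i) :=
            mul_le_mul_of_nonneg_left h4 hc2
        _ = _ := h1'
        _ ≤ _ := mul_le_mul_of_nonneg_left h3 hc
    calc (L.choose m : ℝ) * (((m : ℝ) - J + 1) / (m + 1 + J)) ^ (i + 1)
        = (L.choose m : ℝ) * (((m : ℝ) - J + 1) / (m + 1 + J)) ^ i *
          (((m : ℝ) - J + 1) / (m + 1 + J)) := by rw [pow_succ]; ring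
      _ ≤ (L.choose (m - i) : ℝ) * (((m : ℝ) - J + 1) / (m + 1 + J)) :=
          mul_le_mul_of_nonneg_right ih h0
      _ ≤ _ := h5

private lemma near_low (L k : ℕ) (hL : 100 ≤ L) (hk : 2 * k ≤ L)
    (h : (2 * (k : ℤ) - L) ^ 2 ≤ 4 * L) :
    Real.exp (-16) / 4 * 2 ^ L / √(L : ℝ) ≤ (L.choose k : ℝ) := by
  set m := L / 2 with hm
  set J := m - k with hJdef
  have hkm : k ≤ m := by omega
  have hJm : J ≤ m := by omega
  have hst := step_ge L m J (by omega) (by omega) hJm J le_rfl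
  rw [show m - J = k by omega] at hst
  have hmid := mid_ge L (by omega)
  rw [← hm] at hmid
  have hL0 : (0 : ℝ) < (L : ℝ) := by
    have : 0 < L := by omega
    exact_mod_cast this
  have hs : 0 < √(L : ℝ) := Real.sqrt_pos.mpr hL0
  set s := √(L : ℝ) with hsdef
  have hss : s ^ 2 = L := Real.sq_sqrt hL0.le
  have hs10 : 10 ≤ s := by
    rw [hsdef, show (10 : ℝ) = √(10 ^ 2) by rw [Real.sqrt_sq (by norm_num)]]
    apply Real.sqrt_le_sqrt
    have : (100 : ℝ) ≤ L := by exact_mod_cast hL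
    linarith
  -- J ≤ s
  have hJs : (J : ℝ) ≤ s := by
    have h1 : (2 * (J : ℤ)) ≤ (L : ℤ) - 2 * k := by omega
    have h2 : (0 : ℤ) ≤ 2 * (J : ℤ) := by positivity
    have h3 : (2 * (J : ℤ)) ^ 2 ≤ 4 * L := by
      refine le_trans ?_ h
      rw [show (2 * (k : ℤ) - L) ^ 2 = ((L : ℤ) - 2 * k) ^ 2 by ring]
      exact pow_le_pow_left₀ h2 h1 2
    have h4 : ((J : ℝ)) ^ 2 ≤ L := by
      have h5 : (2 * (J : ℝ)) ^ 2 ≤ 4 * L := by exact_mod_cast h3
      nlinarith
    exact Real.le_sqrt_of_sq_le h4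
  have hmL : (L : ℝ) - 1 ≤ 2 * m := by
    have : L ≤ 2 * m + 1 := by omega
    have h' : (L : ℝ) ≤ 2 * m + 1 := by exact_mod_cast this
    linarith
  have hJ0 : (0 : ℝ) ≤ J := Nat.cast_nonneg _
  -- factor
  set t := 2 * (J : ℝ) / (m + 1 + J) with ht
  have hden : (0 : ℝ) < (m : ℝ) + 1 + J := by positivity
  have hq : ((m : ℝ) - J + 1) / (m + 1 + J) = 1 - t := by
    rw [ht]
    field_simp
    ring
  have ht0 : 0 ≤ t := by positivity
  have hm2 : s ^ 2 ≤ 2 * ((m : ℝ) + 1) := by rw [hss]; linarith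
  have ht4 : t ≤ 4 / s := by
    rw [ht, div_le_div_iff₀ hden hs]
    nlinarith
  have ht2 : t ≤ 1 / 2 := by
    refine le_trans ht4 ?_
    rw [div_le_div_iff₀ hs (by norm_num)]
    linarith
  have htJ : t * J ≤ 4 := by
    calc t * J ≤ 4 / s * s := mul_le_mul ht4 hJs hJ0 (by positivity)
      _ = 4 := by field_simp
  have hexp : Real.exp (-2 * t) ≤ 1 - t := by
    rw [show -2 * t = -(2 * t) by ring, Real.exp_neg]
    have h1 := Real.add_one_le_exp (2 * t)
    rw [inv_le_comm₀ (Real.exp_pos _) (by linarith)]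
    refine le_trans ?_ h1
    rw [inv_le_iff_one_le_mul₀ (by linarith)]
    nlinarith
  have hpow : Real.exp (-16) ≤ (1 - t) ^ J := by
    calc Real.exp (-16) ≤ Real.exp ((J : ℝ) * (-2 * t)) := by
          apply Real.exp_le_exp.mpr
          nlinarith
      _ = Real.exp (-2 * t) ^ J := by rw [← Real.exp_nat_mul]
      _ ≤ (1 - t) ^ J := pow_le_pow_left₀ (Real.exp_pos _).le hexp J
  rw [hq] at hst
  refine le_trans ?_ hst
  calc Real.exp (-16) / 4 * 2 ^ L / s = (2 : ℝ) ^ L / (4 * s) * Real.exp (-16) := by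
        field_simp
    _ ≤ (L.choose m : ℝ) * (1 - t) ^ J :=
        mul_le_mul hmid hpow (Real.exp_pos _).le (Nat.cast_nonneg _)

/-- RECIPE. `(2 k - L)² ≤ 4 L` means `|2 k - L| ≤ 2 √L`, and implies `0 ≤ k ≤ L`. By symmetry
(`Nat.choose_symm`) let `k ≤ L / 2`. With `m = L / 2` (floor) and `j = m - k ≤ √L + 1`:
`choose L k / choose L m = ∏_{i < j} (m - i) / (L - m + 1 + i)` (or compare step by step with
`Nat.succ_mul_choose_eq` / `Nat.choose_succ_right_eq`: `choose L (k + 1) (k + 1) = choose L k (L - k)`),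
each factor is at least `1 - (2 j + 1) / (m + 1)` and `(1 - t) ^ j ≥ exp (- 2 t j)` for `t ≤ 1 / 2`,
`t j` bounded. `choose L m ≥ 2 ^ L / (2 √(L + 1))`: `Nat.four_pow_lt_mul_centralBinom` gives only
`4 ^ n < n centralBinom n`, better use `Pool.Agent.Lib.MP_938ce2_ag_L3.choose_mid_ge` (row A3, even `r`) and one
Pascal step for odd `L`. Small `L` (finitely many `(L, k)`, the coefficient is at least `1`) by taking the
constant small: `1 ≥ κ 2 ^ L / √L` for `L ≤ L₀` if `κ ≤ 2 ^ (- L₀)`. Any positive constant is fine. -/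
theorem choose_near_mid : ∃ κ : ℝ, 0 < κ ∧ ∀ L k : ℕ, 1 ≤ L → (2 * (k : ℤ) - L) ^ 2 ≤ 4 * L →
    κ * 2 ^ L / √(L : ℝ) ≤ (L.choose k : ℝ) := by
  refine ⟨Real.exp (-16) / 4 / 2 ^ 100, by positivity, fun L k hL h => ?_⟩
  have hkL : k ≤ L := by
    by_contra hc
    have h1 : (L : ℤ) + 2 ≤ 2 * (k : ℤ) - L := by omega
    nlinarith [(by positivity : (0 : ℤ) ≤ (L : ℤ))]
  have hL1 : (1 : ℝ) ≤ (L : ℝ) := by exact_mod_cast hL
  have hs1 : 1 ≤ √(L : ℝ) := by
    rw [show (1 : ℝ) = √1 by simp]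
    exact Real.sqrt_le_sqrt hL1
  have he1 : Real.exp (-16) ≤ 1 := Real.exp_le_one_iff.mpr (by norm_num)
  rcases Nat.lt_or_ge L 100 with hlt | hge
  · have hc : (1 : ℝ) ≤ (L.choose k : ℝ) := by
      exact_mod_cast Nat.choose_pos hkL
    refine le_trans ?_ hc
    rw [div_le_iff₀ (by linarith), one_mul]
    have h2 : (2 : ℝ) ^ L ≤ 2 ^ 100 := pow_le_pow_right₀ (by norm_num) hlt.le
    calc Real.exp (-16) / 4 / 2 ^ 100 * 2 ^ L ≤ Real.exp (-16) / 4 / 2 ^ 100 * 2 ^ 100 :=
          mul_le_mul_of_nonneg_left h2 (by positivity)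
      _ = Real.exp (-16) / 4 := by
          rw [div_mul_cancel₀]
          positivity
      _ ≤ 1 := by linarith
      _ ≤ _ := hs1
  · have key : Real.exp (-16) / 4 * 2 ^ L / √(L : ℝ) ≤ (L.choose k : ℝ) := by
      rcases Nat.le_total (2 * k) L with hk | hk
      · exact near_low L k hge hk h
      · rw [← Nat.choose_symm hkL]
        refine near_low L (L - k) hge (by omega) ?_
        rw [Nat.cast_sub hkL]
        refine le_trans (le_of_eq ?_) h
        ring
    refine le_trans ?_ key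
    rw [div_le_div_iff_of_pos_right (by linarith)]
    apply mul_le_mul_of_nonneg_right _ (by positivity)
    apply div_le_self (by positivity)
    exact one_le_pow₀ (by norm_num)

end Pool.Agent.Lib.MP_938ce2_ag_L4
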