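import Pool.Agent.Lib.MP_938ce2_ag_L4.D9a
import Pool.Agent.Lib.MP_938ce2_ag_L4.D8
import Pool.Agent.Lib.MP_938ce2_ag_L4.N5

/-!
Row D9b: lower bound for one event.
-/

set_option autoImplicit false
set_option linter.unusedSectionVars false

namespace Pool.Agent.Lib.MP_938ce2_ag_L4

open Finset Module
open Pool.Agent.Lib.MP_938ce2_ag_h67 (sg)
open Pool.Agent.Lib.MP_938ce2_ag_h60 (CMType GeneratedByDivisors Nondeg)
open Pool.Agent.Lib.MP_938ce2_ag_u2 (Act)
open Pool.Agent.Lib.MP_938ce2_ag_L3 (VK VK_iff exists_blk exists_blk_cm Prim)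

variable {G X : Type} [Group G] [Fintype G] [MulAction G X] [Fintype X] [DecidableEq X]
  [MulAction.IsPretransitive G X] {c : G} {g : ℕ}

/-- the number `k` with `2 k - L = a` -/
private def kf (L : ℕ) (a : ℤ) : ℕ := (((L : ℤ) + a) / 2).toNat

private lemma kf_spec {L : ℕ} (hL : 4 ≤ L) {a : ℤ} (h1 : a ^ 2 ≤ 4 * L) (h2 : a ≡ L [ZMOD 2]) :
    2 * (kf L a : ℤ) - L = a := by
  have h3 : 0 ≤ (L : ℤ) + a := by
    by_contra h
    push Not at h
    have h4 : (L : ℤ) < -a := by linarith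
    have h5 : (4 : ℤ) ≤ L := by exact_mod_cast hL
    nlinarith
  have h4 : ((L : ℤ) + a) % 2 = 0 := by
    have h5 : a % 2 = (L : ℤ) % 2 := h2
    omega
  unfold kf
  rw [Int.toNat_of_nonneg (by omega)]
  omega

private lemma fx_eq {n : ℕ} (hn : n = 2 ∨ n = 3) (a : Fin n → ℤ) (b : ℕ → ℤ)
    (h : ∀ i : Fin n, b i = a i) : fx n b = fx n (ext0 a) ∧ fy n b = fy n (ext0 a) := by
  have h0 : ∀ i : ℕ, i < n → b i = ext0 a i := by
    intro i hi
    unfold ext0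
    rw [dif_pos hi]
    exact h ⟨i, hi⟩
  unfold fx fy
  rcases hn with rfl | rfl
  · simp only [if_true]
    exact ⟨h0 0 (by norm_num), h0 1 (by norm_num)⟩
  · have h2 : ¬ ((3 : ℕ) = 2) := by norm_num
    simp only [if_neg h2]
    rw [h0 0 (by norm_num), h0 1 (by norm_num), h0 2 (by norm_num)]
    exact ⟨rfl, rfl⟩

private lemma fx_le {n : ℕ} (hn : n = 2 ∨ n = 3) (a : Fin n → ℤ) {M : ℤ} (hM : ∀ i, |a i| ≤ M) :
    |fx n (ext0 a)| ≤ 2 * M ∧ |fy n (ext0 a)| ≤ 2 * M := by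
  have h0 : ∀ i : ℕ, i < n → |ext0 a i| ≤ M := by
    intro i hi
    unfold ext0
    rw [dif_pos hi]
    exact hM _
  have hM0 : 0 ≤ M := by
    rcases hn with rfl | rfl
    · exact (abs_nonneg _).trans (hM 0)
    · exact (abs_nonneg _).trans (hM 0)
  unfold fx fy
  rcases hn with rfl | rfl
  · simp only [if_true]
    exact ⟨(h0 0 (by norm_num)).trans (by linarith), (h0 1 (by norm_num)).trans (by linarith)⟩
  · have h2 : ¬ ((3 : ℕ) = 2) := by norm_num
    simp only [if_neg h2]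
    have a0 := h0 0 (by norm_num)
    have a1 := h0 1 (by norm_num)
    have a2 := h0 2 (by norm_num)
    constructor
    · exact (abs_sub _ _).trans (by linarith)
    · exact (abs_add_le _ _).trans (by linarith)

private lemma abs_le_sqrt {a : ℤ} {m : ℕ} (h : a ^ 2 ≤ m) : |a| ≤ (Nat.sqrt m : ℤ) + 1 := by
  have h1 : a.natAbs ^ 2 ≤ m := by
    have h2 : ((a.natAbs ^ 2 : ℕ) : ℤ) ≤ m := by
      push_cast
      rw [sq_abs]
      exact h
    exact_mod_cast h2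
  have h3 : a.natAbs ≤ Nat.sqrt m := by
    rw [Nat.le_sqrt']
    exact h1
  rw [Int.abs_eq_natAbs]
  have : (a.natAbs : ℤ) ≤ Nat.sqrt m := by exact_mod_cast h3
  linarith

/-- RECIPE. `g = 2 n L` (`h.index`, all blocks have the same number `L` of elements: `exists_blk`). For every point
`(a, b)` of `exists_points` the CM types with `bsum (r ^ i) = a i`, `bsum (r ^ i s) = b i`, `i < n`, are in the event:
`fx`, `fy` only use the indices `i < n`, and `|x| ≤ |a 0| + |a 2| ≤ 4 √L ≤ R`. Their number is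
`∏ choose L (k i) ∏ choose L (l i)` with `2 k i - L = a i` (`count_val`; `0 ≤ L + a i` because
`a i ^ 2 ≤ 4 L` and the parity; for `L ≥ 4` clear), at least `(κ 2 ^ L / √L) ^ (2 n) = κ ^ (2 n) 2 ^ g / L ^ n`
(`choose_near_mid`). Different points give disjoint sets. So the event has at least
`κ' L ^ (n - 1) log L κ ^ (2 n) 2 ^ g / L ^ n` elements, and `L ≤ g`, `log L ≥ log g / 2` for large `g`. -/
theorem event_lower : ∃ κ : ℝ, 0 < κ ∧ ∃ g₀ : ℕ, ∀ (G X : Type) [Group G] [Fintype G] [MulAction G X]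
    [Fintype X] [DecidableEq X] [MulAction.IsPretransitive G X] (c : G) (g : ℕ), Act G X c g →
    g₀ ≤ g → ∀ (n : ℕ), (n = 2 ∨ n = 3) → ∀ (x0 : X) (N : Subgroup G) (r s : G), DD n c x0 N r s →
    κ * (Real.log g / g) * 2 ^ g ≤ ((evD n c N x0 r s (4 * (Nat.sqrt g + 1))).card : ℝ) := by
  classical
  obtain ⟨κ₁, hκ₁, L₀, hP⟩ := exists_points
  obtain ⟨κ₂, hκ₂, hC⟩ := choose_near_mid
  obtain ⟨κ₃, hκ₃, h32, h31⟩ : ∃ κ₃ : ℝ, 0 < κ₃ ∧ κ₃ ≤ κ₂ ∧ κ₃ ≤ 1 :=
    ⟨min κ₂ 1, lt_min hκ₂ one_pos, min_le_left _ _, min_le_right _ _⟩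
  refine ⟨κ₁ * κ₃ ^ 6 / 2, by positivity, 6 * L₀ + 36, ?_⟩
  intro G X _ _ _ _ _ _ c g hA hg n hn x0 N r s h
  obtain ⟨β, hβ, hcard⟩ := exists_blk x0 N h.stab
  have hL' := hcard ((1 : G) : G ⧸ N)
  rw [h.index, hA.card] at hL'
  obtain ⟨L, hLdef⟩ : ∃ L : ℕ, L = (univ.filter fun x => β x = ((1 : G) : G ⧸ N)).card := ⟨_, rfl⟩
  rw [← hLdef] at hL'
  have hL : 2 * n * L = g := by
    rcases hn with rfl | rfl <;> omega
  have hL4 : 4 * L ≤ g := by
    rcases hn with rfl | rfl <;> omega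
  have hL6 : g ≤ 6 * L := by
    rcases hn with rfl | rfl <;> omega
  have hL5 : 4 ≤ L := by omega
  obtain ⟨P, hPc, hPt⟩ := hP L (by omega) n hn
  set A : ((Fin n → ℤ) × (Fin n → ℤ)) → Finset (Finset X) := fun t =>
    univ.filter fun Φ : Finset X => CMType c Φ ∧
      ∀ i : Fin n, bsum N x0 Φ (r ^ (i : ℕ)) = 2 * (kf L (t.1 i) : ℤ) - L ∧
        bsum N x0 Φ (r ^ (i : ℕ) * s) = 2 * (kf L (t.2 i) : ℤ) - L with hAdef
  have hAt : ∀ t ∈ P, ∀ Φ ∈ A t, CMType c Φ ∧ ∀ i : Fin n, bsum N x0 Φ (r ^ (i : ℕ)) = t.1 i ∧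
      bsum N x0 Φ (r ^ (i : ℕ) * s) = t.2 i := by
    intro t ht Φ hΦ
    have h1 := (mem_filter.1 hΦ).2
    refine ⟨h1.1, fun i => ?_⟩
    have h2 := (hPt t ht).1 i
    have h3 := h1.2 i
    rw [kf_spec hL5 h2.1 h2.2.1, kf_spec hL5 h2.2.2.1 h2.2.2.2] at h3
    exact h3
  have hsub : P.biUnion A ⊆ evD n c N x0 r s (4 * (Nat.sqrt g + 1)) := by
    intro Φ hΦ
    obtain ⟨t, ht, hΦt⟩ := mem_biUnion.1 hΦ
    obtain ⟨h1, h2⟩ := hAt t ht Φ hΦt
    have e1 := fx_eq hn t.1 (fun i => bsum N x0 Φ (r ^ i)) fun i => (h2 i).1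
    have e2 := fx_eq hn t.2 (fun i => bsum N x0 Φ (r ^ i * s)) fun i => (h2 i).2
    have hg4 : (4 * L : ℤ) ≤ g := by exact_mod_cast hL4
    have b1 := fx_le hn t.1 fun i => abs_le_sqrt (m := g) (((hPt t ht).1 i).1.trans hg4)
    have b2 := fx_le hn t.2 fun i => abs_le_sqrt (m := g) (((hPt t ht).1 i).2.2.1.trans hg4)
    rw [← e1.1, ← e1.2] at b1
    rw [← e2.1, ← e2.2] at b2
    have h0 : (0 : ℤ) ≤ Nat.sqrt g := by positivity
    rw [mem_evD]
    refine ⟨h1, ?_, ?_⟩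
    · have h3 := (hPt t ht).2
      rw [← e1.1, ← e1.2, ← e2.1, ← e2.2] at h3
      exact h3
    · have hb : ∀ j, |co n N x0 r s Φ j| ≤ 2 * ((Nat.sqrt g : ℤ) + 1) := by
        intro j
        fin_cases j
        · exact b1.1
        · exact b1.2
        · exact b2.1
        · exact b2.2
      intro j
      refine (hb j).trans ?_
      push_cast
      linarith
  have hdisj : ∀ t ∈ P, ∀ t' ∈ P, t ≠ t' → Disjoint (A t) (A t') := by
    intro t ht t' ht' hne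
    rw [Finset.disjoint_left]
    intro Φ hΦ hΦ'
    apply hne
    have h1 := (hAt t ht Φ hΦ).2
    have h2 := (hAt t' ht' Φ hΦ').2
    refine Prod.ext ?_ ?_
    · funext i
      rw [← (h1 i).1, ← (h2 i).1]
    · funext i
      rw [← (h1 i).2, ← (h2 i).2]
  have hLpos : (0 : ℝ) < L := by
    have : 0 < L := by omega
    exact_mod_cast this
  have hgpos : (0 : ℝ) < g := by
    have : 0 < g := by omega
    exact_mod_cast this
  have hsq : 0 < √(L : ℝ) := Real.sqrt_pos.2 hLpos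
  set q : ℝ := κ₂ * 2 ^ L / √(L : ℝ) with hq
  have hq0 : 0 < q := by positivity
  have hAcard : ∀ t ∈ P, q ^ (2 * n) ≤ ((A t).card : ℝ) := by
    intro t ht
    have h1 := count_val hA h L hL (fun i => kf L (t.1 i)) (fun i => kf L (t.2 i))
    have h2 : (A t).card = (∏ i, L.choose (kf L (t.1 i))) * ∏ i, L.choose (kf L (t.2 i)) := by
      rw [← h1]
    rw [h2]
    push_cast
    have h3 : q ^ (2 * n) = (∏ _i : Fin n, q) * ∏ _i : Fin n, q := by
      rw [prod_const, card_univ, Fintype.card_fin, ← pow_add]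
      congr 1
      ring
    rw [h3]
    refine mul_le_mul ?_ ?_ (prod_nonneg fun _ _ => hq0.le) (prod_nonneg fun _ _ => Nat.cast_nonneg _)
    · refine prod_le_prod (fun _ _ => hq0.le) fun i _ => ?_
      refine hC L _ (by omega) ?_
      rw [kf_spec hL5 ((hPt t ht).1 i).1 ((hPt t ht).1 i).2.1]
      exact ((hPt t ht).1 i).1
    · refine prod_le_prod (fun _ _ => hq0.le) fun i _ => ?_
      refine hC L _ (by omega) ?_
      rw [kf_spec hL5 ((hPt t ht).1 i).2.2.1 ((hPt t ht).1 i).2.2.2]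
      exact ((hPt t ht).1 i).2.2.1
  have hmain : (P.card : ℝ) * q ^ (2 * n) ≤ ((evD n c N x0 r s (4 * (Nat.sqrt g + 1))).card : ℝ) := by
    have h1 : (P.biUnion A).card = ∑ t ∈ P, (A t).card := card_biUnion hdisj
    have h2 : ((P.biUnion A).card : ℝ) ≤ ((evD n c N x0 r s (4 * (Nat.sqrt g + 1))).card : ℝ) := by
      exact_mod_cast card_le_card hsub
    refine le_trans ?_ h2
    rw [h1]
    push_cast
    rw [← nsmul_eq_mul]
    exact card_nsmul_le_sum _ _ _ hAcard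
  refine le_trans ?_ hmain
  -- the numbers
  have hq2 : q ^ (2 * n) = κ₂ ^ (2 * n) * 2 ^ g / (L : ℝ) ^ n := by
    rw [hq, div_pow, mul_pow, ← pow_mul, pow_mul (√(L : ℝ)) 2 n, Real.sq_sqrt hLpos.le]
    congr 3
    rw [← hL]
    ring
  have hκ : κ₃ ^ 6 ≤ κ₂ ^ (2 * n) := by
    have h1 : κ₃ ^ 6 ≤ κ₃ ^ (2 * n) := by
      refine pow_le_pow_of_le_one hκ₃.le h31 ?_
      rcases hn with rfl | rfl <;> omega
    exact h1.trans (pow_le_pow_left₀ hκ₃.le h32 _)
  have hlog : Real.log g / 2 ≤ Real.log L := by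
    have h1 : (g : ℝ) ≤ (L : ℝ) ^ 2 := by
      have : g ≤ L ^ 2 := by nlinarith
      exact_mod_cast this
    have h2 := Real.log_le_log hgpos h1
    rw [Real.log_pow] at h2
    push_cast at h2
    linarith
  have hLg : (L : ℝ) ≤ g := by
    have : L ≤ g := by omega
    exact_mod_cast this
  have hlog0 : 0 ≤ Real.log g := Real.log_natCast_nonneg g
  have hpow : (L : ℝ) ^ n = (L : ℝ) ^ (n - 1) * L := by
    rw [← pow_succ]
    congr 1
    rcases hn with rfl | rfl <;> rfl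
  have hfin : κ₁ * κ₃ ^ 6 / 2 * (Real.log g / g) * 2 ^ g
      ≤ (κ₁ * (L : ℝ) ^ (n - 1) * Real.log L) * (κ₂ ^ (2 * n) * 2 ^ g / (L : ℝ) ^ n) := by
    have hL1 : (0 : ℝ) < (L : ℝ) ^ (n - 1) := by positivity
    have e1 : (κ₁ * (L : ℝ) ^ (n - 1) * Real.log L) * (κ₂ ^ (2 * n) * 2 ^ g / (L : ℝ) ^ n)
        = κ₁ * κ₂ ^ (2 * n) * (Real.log L / L) * 2 ^ g := by
      rw [hpow]
      field_simp
    have e2 : κ₁ * κ₃ ^ 6 / 2 * (Real.log g / g) * 2 ^ g
        = κ₁ * κ₃ ^ 6 * ((Real.log g / 2) / g) * 2 ^ g := by ring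
    rw [e1, e2]
    have h5 : (Real.log g / 2) / g ≤ Real.log L / L :=
      div_le_div₀ (le_trans (by positivity) hlog) hlog hLpos hLg
    have h6 : (0 : ℝ) ≤ (Real.log g / 2) / g := by positivity
    have h7 : (0 : ℝ) < 2 ^ g := by positivity
    refine mul_le_mul_of_nonneg_right ?_ h7.le
    refine mul_le_mul (mul_le_mul_of_nonneg_left hκ hκ₁.le) h5 h6 (by positivity)
  refine hfin.trans ?_
  rw [hq2]
  exact mul_le_mul_of_nonneg_right hPc (by positivity)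

end Pool.Agent.Lib.MP_938ce2_ag_L4
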