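import Pool.Agent.Lib.MP_938ce2_ag_L4.D1
import Pool.Agent.Lib.MP_938ce2_ag_L4.D3
import Pool.Agent.Lib.MP_938ce2_ag_L4.D7
import Pool.Agent.Lib.MP_938ce2_ag_L4.D9b
import Pool.Agent.Lib.MP_938ce2_ag_L3.A1

/-!
Row D10: the second moment.
-/

set_option autoImplicit false
set_option linter.unusedSectionVars false

namespace Pool.Agent.Lib.MP_938ce2_ag_L4

open Finset Module
open Pool.Agent.Lib.MP_938ce2_ag_h67 (sg)
open Pool.Agent.Lib.MP_938ce2_ag_h60 (CMType GeneratedByDivisors Nondeg)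
open Pool.Agent.Lib.MP_938ce2_ag_u2 (Act)
open Pool.Agent.Lib.MP_938ce2_ag_L3 (VK VK_iff exists_blk exists_blk_cm Prim)

variable {G X : Type} [Group G] [Fintype G] [MulAction G X] [Fintype X] [DecidableEq X]
  [MulAction.IsPretransitive G X] {c : G} {g : ℕ}

open Classical in
/-- RECIPE. `second_moment` (row A1) with the finite index set `S` = the set of the `N` in `Dih 2 c x0 ∪ Dih 3 c x0`
(the sets are disjoint: the index is `8` resp. `12`; `Subgroup G` is finite), `A N = evD n c N x0 r s R`,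
`R = 4 (√g + 1)`, with `n`, `r`, `s` chosen by `exists_DD`, `N = 2 ^ g`, `p = κ log g / g` (`event_lower`), pairs by
`pair_card` and `card_singPts`: `|singPts n R| ≤ C R² (1 + log R) ≤ C' g log g`. The union consists of degenerate
types (`deg_of_sing`). -/
theorem lower_dih : ∃ κ : ℝ, 0 < κ ∧ ∃ g₀ : ℕ, ∀ (G X : Type) [Group G] [Fintype G] [MulAction G X]
    [Fintype X] [DecidableEq X] [MulAction.IsPretransitive G X] (c : G) (g : ℕ), Act G X c g →
    g₀ ≤ g → ∀ x0 : X,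
    κ * min 1 ((((Dih 2 c x0).ncard + (Dih 3 c x0).ncard : ℕ) : ℝ) * (Real.log g / g)) * 2 ^ g
      ≤ ((univ.filter fun Φ : Finset X => CMType c Φ ∧ ¬ Nondeg c Φ).card : ℝ) := by
  obtain ⟨κ, hκ, g₁, hev⟩ := event_lower
  obtain ⟨C2, hC2, h2⟩ := card_singPts 2 (Or.inl rfl)
  obtain ⟨C3, hC3, h3⟩ := card_singPts 3 (Or.inr rfl)
  obtain ⟨Cs, hCs⟩ : ∃ Cs : ℝ, Cs = C2 + C3 := ⟨_, rfl⟩
  have hCs0 : 0 < Cs := by rw [hCs]; positivity
  obtain ⟨C', hC'⟩ : ∃ C' : ℝ, C' = (256 * Cs) ^ 2 * 72 ^ 4 / κ ^ 2 := ⟨_, rfl⟩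
  have hC'0 : 0 < C' := by rw [hC']; positivity
  refine ⟨min 1 κ / (1 + C'), by positivity, max g₁ 3, ?_⟩
  intro G X _ _ _ _ _ _ c g hA hg x0
  have hg1 : g₁ ≤ g := (le_max_left _ _).trans hg
  have hg3 : 3 ≤ g := (le_max_right _ _).trans hg
  have hgR : (3 : ℝ) ≤ g := by exact_mod_cast hg3
  have hg0 : (0 : ℝ) < g := by linarith
  have hlog : 1 ≤ Real.log g := by
    rw [Real.le_log_iff_exp_le hg0]
    exact (Real.exp_one_lt_d9.le.trans (by norm_num)).trans hgR
  obtain ⟨R, hR⟩ : ∃ R : ℕ, R = 4 * (Nat.sqrt g + 1) := ⟨_, rfl⟩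
  have hR1 : 1 ≤ R := by rw [hR]; omega
  have hsq : (Nat.sqrt g : ℝ) ^ 2 ≤ g := by exact_mod_cast Nat.sqrt_le' g
  have hsq1 : (1 : ℝ) ≤ Nat.sqrt g := by
    have h4 : 1 ≤ Nat.sqrt g := Nat.le_sqrt.2 (by omega)
    exact_mod_cast h4
  have hRR : (R : ℝ) ≤ 8 * Nat.sqrt g := by
    rw [hR]
    push_cast
    linarith
  have hR0 : (1 : ℝ) ≤ R := by exact_mod_cast hR1
  have hR2 : (R : ℝ) ^ 2 ≤ 64 * g := by
    calc (R : ℝ) ^ 2 ≤ (8 * Nat.sqrt g) ^ 2 := pow_le_pow_left₀ (by linarith) hRR 2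
      _ = 64 * (Nat.sqrt g : ℝ) ^ 2 := by ring
      _ ≤ 64 * g := by linarith
  have hlR : 1 + Real.log R ≤ 4 * Real.log g := by
    have h4 : Real.log R ≤ Real.log ((g : ℝ) ^ 3) := by
      apply Real.log_le_log (by linarith)
      have h5 : (Nat.sqrt g : ℝ) ≤ g := by nlinarith
      have h6' : (0 : ℝ) ≤ (g : ℝ) ^ 2 - 9 := by nlinarith
      have h6 : 8 * (g : ℝ) ≤ (g : ℝ) ^ 3 := by nlinarith [mul_nonneg hg0.le h6']
      linarith
    rw [Real.log_pow] at h4
    push_cast at h4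
    linarith
  have hsing : ∀ n : ℕ, (n = 2 ∨ n = 3) → ((singPts n R).card : ℝ) ≤ 256 * Cs * (g * Real.log g) := by
    intro n hn
    have h4 : ∀ C : ℝ, 0 < C → C ≤ Cs → C * (R : ℝ) ^ 2 * (1 + Real.log R)
        ≤ 256 * Cs * (g * Real.log g) := by
      intro C hC hCC
      have hlR0 : 0 ≤ Real.log R := Real.log_nonneg hR0
      calc C * (R : ℝ) ^ 2 * (1 + Real.log R) ≤ Cs * (64 * g) * (4 * Real.log g) := by
            apply mul_le_mul _ hlR (by linarith) (by positivity)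
            exact mul_le_mul hCC hR2 (by positivity) hCs0.le
        _ = 256 * Cs * (g * Real.log g) := by ring
    rcases hn with rfl | rfl
    · exact (h2 R hR1).trans (h4 C2 hC2 (by rw [hCs]; linarith))
    · exact (h3 R hR1).trans (h4 C3 hC3 (by rw [hCs]; linarith))
  -- the index set
  have hfin : (Dih 2 c x0 ∪ Dih 3 c x0).Finite := Set.toFinite _
  let ι := {N : Subgroup G // N ∈ hfin.toFinset}
  have hch : ∀ i : ι, ∃ (n : ℕ) (r s : G), (n = 2 ∨ n = 3) ∧ DD n c x0 i.1 r s := by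
    rintro ⟨N, hN⟩
    rw [Set.Finite.mem_toFinset] at hN
    rcases hN with hN | hN
    · obtain ⟨r, s, h⟩ := exists_DD hA x0 2 (Or.inl rfl) N hN
      exact ⟨2, r, s, Or.inl rfl, h⟩
    · obtain ⟨r, s, h⟩ := exists_DD hA x0 3 (Or.inr rfl) N hN
      exact ⟨3, r, s, Or.inr rfl, h⟩
  choose n r s hn hD using hch
  let A : ι → Finset (Finset X) := fun i => evD (n i) c i.1 x0 (r i) (s i) R
  have hsm := Pool.Agent.Lib.MP_938ce2_ag_L3.second_moment (Finset.univ : Finset ι) A (2 ^ g)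
    (κ * (Real.log g / g)) C' (by positivity) (by positivity) hC'0.le ?_ ?_
  · have hcard : ((Finset.univ : Finset ι).card : ℝ) =
        (((Dih 2 c x0).ncard + (Dih 3 c x0).ncard : ℕ) : ℝ) := by
      have h4 : (Finset.univ : Finset ι).card = hfin.toFinset.card := by
        rw [Finset.card_univ]
        exact Fintype.card_coe _
      have h5 : hfin.toFinset.card = (Dih 2 c x0 ∪ Dih 3 c x0).ncard :=
        (Set.ncard_eq_toFinset_card _ hfin).symm
      have hdisj : Disjoint (Dih 2 c x0) (Dih 3 c x0) := by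
        rw [Set.disjoint_left]
        rintro N ⟨hN, -, -, ⟨e⟩⟩ ⟨hN', -, -, ⟨e'⟩⟩
        have h6 := Nat.card_congr e.toEquiv
        have h7 := Nat.card_congr e'.toEquiv
        rw [DihedralGroup.nat_card] at h6 h7
        omega
      rw [h4, h5, Set.ncard_union_eq hdisj (Set.toFinite _) (Set.toFinite _)]
    rw [hcard] at hsm
    have hsub : Finset.univ.biUnion A ⊆
        univ.filter fun Φ : Finset X => CMType c Φ ∧ ¬ Nondeg c Φ := by
      intro Φ hΦ
      obtain ⟨i, -, hi⟩ := mem_biUnion.1 hΦ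
      obtain ⟨hcm, hs, -⟩ := mem_evD.1 hi
      rw [mem_filter]
      exact ⟨mem_univ _, hcm, deg_of_sing hA (hn i) (hD i) hcm hs⟩
    have h4 : ((Finset.univ.biUnion A).card : ℝ) ≤
        ((univ.filter fun Φ : Finset X => CMType c Φ ∧ ¬ Nondeg c Φ).card : ℝ) := by
      exact_mod_cast card_le_card hsub
    refine le_trans ?_ (hsm.trans h4)
    apply mul_le_mul_of_nonneg_right _ (by positivity)
    rw [div_mul_eq_mul_div]
    apply div_le_div_of_nonneg_right _ (by positivity)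
    set t : ℝ := (((Dih 2 c x0).ncard + (Dih 3 c x0).ncard : ℕ) : ℝ) * (Real.log g / g) with ht
    have ht0 : 0 ≤ t := by positivity
    have h5 : (((Dih 2 c x0).ncard + (Dih 3 c x0).ncard : ℕ) : ℝ) * (κ * (Real.log g / g)) = κ * t := by
      rw [ht]
      ring
    rw [h5]
    have hm0 : 0 ≤ min 1 t := le_min zero_le_one ht0
    apply le_min
    · calc min 1 κ * min 1 t ≤ 1 * 1 :=
            mul_le_mul (min_le_left _ _) (min_le_left _ _) hm0 zero_le_one
        _ = 1 := one_mul 1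
    · exact mul_le_mul (min_le_right _ _) (min_le_right _ _) hm0 hκ.le
  · intro i _
    have h4 := hev G X c g hA hg1 (n i) (hn i) x0 i.1 (r i) (s i) (hD i)
    rw [← hR] at h4
    exact h4
  · intro i _ j _ hij
    have hne : i.1 ≠ j.1 := fun h => hij (Subtype.ext h)
    have h4 := pair_card hA (hn i) (hn j) (hD i) (hD j) hne R
    refine h4.trans ?_
    apply mul_le_mul_of_nonneg_right _ (by positivity)
    have h5 := hsing (n i) (hn i)
    have h6 := hsing (n j) (hn j)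
    calc ((singPts (n i) R).card : ℝ) * (singPts (n j) R).card * (72 / (g : ℝ)) ^ 4
        ≤ (256 * Cs * (g * Real.log g)) * (256 * Cs * (g * Real.log g)) * (72 / (g : ℝ)) ^ 4 := by
          apply mul_le_mul_of_nonneg_right _ (by positivity)
          exact mul_le_mul h5 h6 (Nat.cast_nonneg _) (by positivity)
      _ = C' * (κ * (Real.log g / g)) ^ 2 := by
          rw [hC']
          field_simp

end Pool.Agent.Lib.MP_938ce2_ag_L4
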