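import Pool.Agent.Lib.MP_938ce2_ag_L3.B1
import Pool.Agent.Lib.MP_938ce2_ag_L4.LD4

/-!
Row D2: the block sums.
-/

set_option autoImplicit false
set_option linter.unusedSectionVars false

namespace Pool.Agent.Lib.MP_938ce2_ag_L4

open Finset Module
open Pool.Agent.Lib.MP_938ce2_ag_h67 (sg)
open Pool.Agent.Lib.MP_938ce2_ag_h60 (CMType GeneratedByDivisors Nondeg)
open Pool.Agent.Lib.MP_938ce2_ag_u2 (Act)
open Pool.Agent.Lib.MP_938ce2_ag_L3 (VK VK_iff exists_blk exists_blk_cm Prim)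

variable {G X : Type} [Group G] [Fintype G] [MulAction G X] [Fintype X] [DecidableEq X]
  [MulAction.IsPretransitive G X] {c : G} {g : ℕ}

private lemma act_mk (x0 : X) (N : Subgroup G) (hN : MulAction.stabilizer G x0 ≤ N) (σ : G)
    (β : X → G ⧸ N) (hβ : ∀ σ : G, β (σ • x0) = (σ : G ⧸ N)) (x : X) :
    (∃ k ∈ N, (σ * k) • x0 = x) ↔ β x = (σ : G ⧸ N) := by
  constructor
  · rintro ⟨k, hk, rfl⟩
    rw [hβ, QuotientGroup.mk_mul_of_mem _ hk]
  · intro h
    obtain ⟨τ, rfl⟩ := MulAction.exists_smul_eq G x0 x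
    rw [hβ, eq_comm, QuotientGroup.eq] at h
    exact ⟨σ⁻¹ * τ, h, by rw [mul_inv_cancel_left]⟩

private lemma bsum_eq (N : Subgroup G) (x0 : X) (Φ : Finset X) (σ : G)
    [DecidablePred fun x => ∃ k ∈ N, (σ * k) • x0 = x] :
    bsum N x0 Φ σ = ∑ x ∈ univ.filter (fun x => ∃ k ∈ N, (σ * k) • x0 = x), sg Φ x := by
  unfold bsum
  congr!

theorem bsum_mul (hA : Act G X c g) {n : ℕ} {x0 : X} {N : Subgroup G} {r s : G}
    (h : DD n c x0 N r s) (Φ : Finset X) (σ k : G) (hk : k ∈ N) :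
    bsum N x0 Φ (σ * k) = bsum N x0 Φ σ := by
  classical
  rw [bsum_eq, bsum_eq]
  congr 1
  apply Finset.filter_congr
  intro x _
  constructor
  · rintro ⟨k', hk', h1⟩
    exact ⟨k * k', N.mul_mem hk hk', by rw [← mul_assoc]; exact h1⟩
  · rintro ⟨k', hk', h1⟩
    refine ⟨k⁻¹ * k', N.mul_mem (N.inv_mem hk) hk', ?_⟩
    rw [← mul_assoc, mul_inv_cancel_right]
    exact h1

private lemma sg_c {Φ : Finset X} (hΦ : CMType c Φ) (x : X) : sg Φ (c • x) = - sg Φ x := by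
  unfold sg
  have h := hΦ x
  by_cases h1 : x ∈ Φ
  · rw [if_pos h1, if_neg (h.1 h1)]
  · have h2 : c • x ∈ Φ := by
      by_contra h3
      exact h1 (h.2 h3)
    rw [if_neg h1, if_pos h2, neg_neg]

theorem bsum_c (hA : Act G X c g) {n : ℕ} {x0 : X} {N : Subgroup G} {r s : G}
    (h : DD n c x0 N r s) {Φ : Finset X} (hΦ : CMType c Φ) (σ : G) :
    bsum N x0 Φ (c * σ) = - bsum N x0 Φ σ := by
  classical
  rw [bsum_eq, bsum_eq, ← Finset.sum_neg_distrib]
  symm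
  refine Finset.sum_bij (fun x _ => c • x) ?_ ?_ ?_ ?_
  · intro x hx
    rw [mem_filter] at hx ⊢
    obtain ⟨-, k, hk, h1⟩ := hx
    exact ⟨mem_univ _, k, hk, by rw [mul_assoc, mul_smul, h1]⟩
  · intro x _ y _ hxy
    exact smul_left_cancel c hxy
  · intro y hy
    rw [mem_filter] at hy
    obtain ⟨-, k, hk, h1⟩ := hy
    refine ⟨(σ * k) • x0, ?_, ?_⟩
    · rw [mem_filter]
      exact ⟨mem_univ _, k, hk, rfl⟩
    · rw [← mul_smul, ← mul_assoc]
      exact h1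
  · intro x _
    exact (sg_c hΦ x).symm

/-- the sum over the dihedral quotient -/
private lemma sum_quot {n : ℕ} {x0 : X} {N : Subgroup G} {r s : G} [Fintype (G ⧸ N)]
    (h : DD n c x0 N r s) (F : G ⧸ N → ℚ) :
    ∑ z, F z = ∑ i ∈ range (2 * n), (F ((r ^ i : G) : G ⧸ N) + F ((r ^ i * s : G) : G ⧸ N)) := by
  classical
  let φ : Fin (2 * n) ⊕ Fin (2 * n) → G ⧸ N := fun j => match j with
    | .inl i => ((r ^ (i : ℕ) : G) : G ⧸ N)
    | .inr i => ((r ^ (i : ℕ) * s : G) : G ⧸ N)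
  have hsurj : Function.Surjective φ := by
    intro z
    induction z using QuotientGroup.induction_on with
    | H σ =>
      obtain ⟨i, hi, h1 | h1⟩ := h.cover σ
      · exact ⟨.inl ⟨i, hi⟩, QuotientGroup.eq.2 h1⟩
      · exact ⟨.inr ⟨i, hi⟩, QuotientGroup.eq.2 h1⟩
  have hcard : Fintype.card (Fin (2 * n) ⊕ Fin (2 * n)) = Fintype.card (G ⧸ N) := by
    rw [Fintype.card_sum, Fintype.card_fin, ← Nat.card_eq_fintype_card (α := G ⧸ N),
      ← Subgroup.index_eq_card, h.index]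
    ring
  have hbij : Function.Bijective φ :=
    (Fintype.bijective_iff_surjective_and_card φ).2 ⟨hsurj, hcard⟩
  rw [← Equiv.sum_comp (Equiv.ofBijective φ hbij) F, Fintype.sum_sum_type,
    Finset.sum_add_distrib, Finset.sum_range, Finset.sum_range]
  rfl

/-- RECIPE. `β : X → G ⧸ N` from `exists_blk`, so that `∃ k ∈ N, (σ * k) • x0 = x` iff `β x = σ`. Sum over the
fibres of `β`, `f` is constant on them: the sum is `∑ z : G ⧸ N, f (z) bsum (z)`. The elements of `G ⧸ N` are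
the classes of `r ^ i` and `r ^ i s`, `i < 2 n` (`DD.cover`, `DD.rN`, `DD.sN`, `DD.index`), and the class of
`r ^ (i + n)` is that of `c r ^ i`, where `f` and `bsum` both change the sign. -/
theorem sum_VK (hA : Act G X c g) {n : ℕ} {x0 : X} {N : Subgroup G} {r s : G}
    (h : DD n c x0 N r s) {Φ : Finset X} (hΦ : CMType c Φ) {f : X → ℚ} (hf : f ∈ VK c x0 N) :
    ∑ x, (sg Φ x : ℚ) * f x = 2 * ∑ i ∈ range n, (f (r ^ i • x0) * (bsum N x0 Φ (r ^ i) : ℚ)
      + f ((r ^ i * s) • x0) * (bsum N x0 Φ (r ^ i * s) : ℚ)) := by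
  classical
  obtain ⟨β, hβ, -⟩ := exists_blk x0 N h.stab
  obtain ⟨k, hk, hfk⟩ := (VK_iff hA x0 N β hβ f).1 hf
  set b : G ⧸ N → ℤ := fun z => ∑ x ∈ univ.filter (fun x => β x = z), sg Φ x with hb
  have hbs : ∀ σ : G, bsum N x0 Φ σ = b (σ : G ⧸ N) := by
    intro σ
    rw [bsum_eq, hb]
    congr 1
    apply Finset.filter_congr
    intro x _
    exact act_mk x0 N h.stab σ β hβ x
  set F : G ⧸ N → ℚ := fun z => k z * (b z : ℚ) with hF
  have h1 : ∑ x, (sg Φ x : ℚ) * f x = ∑ z, F z := by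
    rw [← Finset.sum_fiberwise_of_maps_to (s := univ) (t := univ) (g := β) (fun x _ => mem_univ _)]
    apply Finset.sum_congr rfl
    intro z _
    rw [hF, hb]
    push_cast
    rw [Finset.mul_sum]
    apply Finset.sum_congr rfl
    intro x hx
    rw [hfk, (mem_filter.1 hx).2, mul_comm]
  have hFc : ∀ σ : G, F ((c * σ : G) : G ⧸ N) = F (σ : G ⧸ N) := by
    intro σ
    simp only [hF]
    rw [hk, ← hbs, ← hbs, bsum_c hA h hΦ]
    push_cast
    ring
  have hcn : ∀ σ : G, c⁻¹ * σ = c * σ := by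
    intro σ
    have : c⁻¹ = c := inv_eq_of_mul_eq_one_right hA.sq
    rw [this]
  have hr1 : ∀ i : ℕ, ((r ^ (n + i) : G) : G ⧸ N) = ((c * r ^ i : G) : G ⧸ N) := by
    intro i
    rw [eq_comm, QuotientGroup.eq]
    have e : (c * r ^ i)⁻¹ * r ^ (n + i) = c * r ^ n := by
      rw [add_comm n i, pow_add, mul_inv_rev, mul_assoc, hcn, ← mul_assoc c, hA.comm, mul_assoc,
        inv_mul_cancel_left]
    rw [e]
    exact h.rn
  have hr2 : ∀ i : ℕ, ((r ^ (n + i) * s : G) : G ⧸ N) = ((c * (r ^ i * s) : G) : G ⧸ N) := by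
    intro i
    rw [eq_comm, QuotientGroup.eq]
    have e : (c * (r ^ i * s))⁻¹ * (r ^ (n + i) * s) = s⁻¹ * (c * r ^ n) * s⁻¹⁻¹ := by
      rw [inv_inv, add_comm n i, pow_add, mul_inv_rev, mul_inv_rev, mul_assoc, hcn,
        hA.comm (r ^ i * r ^ n * s)]
      simp only [mul_assoc]
      rw [inv_mul_cancel_left, ← hA.comm s, ← mul_assoc (r ^ n) c s, ← hA.comm (r ^ n)]
      simp only [mul_assoc]
    rw [e]
    exact h.normal.conj_mem _ h.rn _
  rw [h1, sum_quot h F, two_mul n, Finset.sum_range_add, two_mul]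
  have h2 : ∑ i ∈ range n, (F ((r ^ (n + i) : G) : G ⧸ N) + F ((r ^ (n + i) * s : G) : G ⧸ N)) =
      ∑ i ∈ range n, (F ((r ^ i : G) : G ⧸ N) + F ((r ^ i * s : G) : G ⧸ N)) := by
    apply Finset.sum_congr rfl
    intro i _
    rw [hr1, hr2, hFc, hFc]
  rw [h2]
  have h3 : ∑ i ∈ range n, (F ((r ^ i : G) : G ⧸ N) + F ((r ^ i * s : G) : G ⧸ N)) =
      ∑ i ∈ range n, (f (r ^ i • x0) * (bsum N x0 Φ (r ^ i) : ℚ)
      + f ((r ^ i * s) • x0) * (bsum N x0 Φ (r ^ i * s) : ℚ)) := by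
    apply Finset.sum_congr rfl
    intro i _
    simp only [hF]
    rw [hfk, hfk, hβ, hβ, hbs, hbs]
  rw [h3]

end Pool.Agent.Lib.MP_938ce2_ag_L4
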