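import Pool.Agent.Lib.MP_938ce2_ag_L4.D2

/-!
Row D4: the four-dimensional space `ED`.
-/

set_option autoImplicit false
set_option linter.unusedSectionVars false

namespace Pool.Agent.Lib.MP_938ce2_ag_L4

open Finset Module
open Pool.Agent.Lib.MP_938ce2_ag_h67 (sg)
open Pool.Agent.Lib.MP_938ce2_ag_h60 (CMType GeneratedByDivisors Nondeg)
open Pool.Agent.Lib.MP_938ce2_ag_u2 (Act)
open Pool.Agent.Lib.MP_938ce2_ag_L3 (VK VK_iff exists_blk exists_blk_cm Prim)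

variable {G X : Type} [Group G] [Fintype G] [MulAction G X] [Fintype X] [DecidableEq X]
  [MulAction.IsPretransitive G X] {c : G} {g : ℕ}

/-- `f` is constant on the cosets of `N` -/
private lemma ed_congr {x0 : X} {N : Subgroup G} {f : X → ℚ} (hf : f ∈ VK c x0 N) {a b : G}
    (h : a⁻¹ * b ∈ N) : f (b • x0) = f (a • x0) := by
  have h1 := hf.2 a (a⁻¹ * b) h
  rwa [mul_inv_cancel_left] at h1

/-- the three relations in an abstract group -/
private lemma rel_grp {Q : Type} [Group Q] {C R S : Q} (e1 : C * R ^ 3 = 1) (e2 : S * S = 1)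
    (e3 : R * S * (R * S) = 1) (e4 : C * C = 1) :
    C * R = R ^ 4 ∧ C * (R * S) = S * R ^ 2 ∧ R ^ 2 * S = S * R ^ 4 := by
  have hr3 : R ^ 3 = C := by
    calc R ^ 3 = C * C * R ^ 3 := by rw [e4, one_mul]
      _ = C * (C * R ^ 3) := by rw [mul_assoc]
      _ = C := by rw [e1, mul_one]
  have e6 : S⁻¹ = S := inv_eq_of_mul_eq_one_left e2
  have e7 : R * (S * R) = S := by
    calc R * (S * R) = (R * S * (R * S)) * S⁻¹ := by group
      _ = S := by rw [e3, one_mul, e6]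
  have hsr : S * R = R⁻¹ * S := by
    rw [eq_inv_mul_iff_mul_eq]
    exact e7
  have hsr2 : S * R ^ 2 = (R ^ 2)⁻¹ * S := by
    calc S * R ^ 2 = S * R * R := by rw [pow_two, mul_assoc]
      _ = R⁻¹ * (R⁻¹ * S) := by rw [hsr, mul_assoc, hsr]
      _ = (R ^ 2)⁻¹ * S := by group
  have hsr4 : S * R ^ 4 = (R ^ 4)⁻¹ * S := by
    calc S * R ^ 4 = S * R ^ 2 * R ^ 2 := by rw [mul_assoc, ← pow_add]
      _ = (R ^ 2)⁻¹ * ((R ^ 2)⁻¹ * S) := by rw [hsr2, mul_assoc, hsr2]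
      _ = (R ^ 4)⁻¹ * S := by group
  have hr6 : R ^ 6 = 1 := by
    calc R ^ 6 = R ^ 3 * R ^ 3 := by rw [← pow_add]
      _ = 1 := by rw [hr3, e4]
  have hr4 : R ^ 4 = C * R := by
    calc R ^ 4 = R ^ 3 * R := by rw [← pow_succ]
      _ = C * R := by rw [hr3]
  refine ⟨hr4.symm, ?_, ?_⟩
  · rw [hsr2]
    calc C * (R * S) = C * R * S := by rw [mul_assoc]
      _ = R ^ 4 * S := by rw [hr4]
      _ = R ^ 6 * (R ^ 2)⁻¹ * S := by group
      _ = (R ^ 2)⁻¹ * S := by rw [hr6, one_mul]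
  · rw [hsr4]
    calc R ^ 2 * S = R ^ 6 * (R ^ 4)⁻¹ * S := by group
      _ = (R ^ 4)⁻¹ * S := by rw [hr6, one_mul]

/-- the three relations of the dihedral group of order 12 -/
private lemma ed_rel (hA : Act G X c g) {x0 : X} {N : Subgroup G} {r s : G}
    (h : DD 3 c x0 N r s) : (c * r)⁻¹ * r ^ 4 ∈ N ∧ (c * (r * s))⁻¹ * (s * r ^ 2) ∈ N ∧
      (r ^ 2 * s)⁻¹ * (s * r ^ 4) ∈ N := by
  have := h.normal
  obtain ⟨h1, h2, h3⟩ := rel_grp (C := QuotientGroup.mk' N c) (R := QuotientGroup.mk' N r)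
    (S := QuotientGroup.mk' N s)
    (by rw [← map_pow, ← map_mul]; exact (QuotientGroup.eq_one_iff (N := N) _).2 h.rn)
    (by rw [← map_mul]; exact (QuotientGroup.eq_one_iff (N := N) _).2 h.ss)
    (by rw [← map_mul, ← map_mul]; exact (QuotientGroup.eq_one_iff (N := N) _).2 h.rs)
    (by rw [← map_mul, hA.sq, map_one])
  rw [← map_pow, ← map_mul] at h1
  rw [← map_pow, ← map_mul, ← map_mul, ← map_mul] at h2
  rw [← map_pow, ← map_pow, ← map_mul, ← map_mul] at h3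
  exact ⟨QuotientGroup.eq.1 h1, QuotientGroup.eq.1 h2, QuotientGroup.eq.1 h3⟩

/-- RECIPE. For `n = 2` this is `sum_VK`. For `n = 3` the relation with `σ = 1` and `f (r ^ 4 • x0) = - f (r • x0)`
(`r ^ 4 ∈ c r N`) gives `f (r ^ 2 • x0) = f (r • x0) - f x0`, the relation with `σ = s` and
`s r ^ 2 ∈ r ^ 4 s N`, `s r ^ 4 ∈ r ^ 2 s N` gives `f (r ^ 2 s • x0) = f (r s • x0) - f (s • x0)`. -/
theorem sum_ED (hA : Act G X c g) {n : ℕ} (hn : n = 2 ∨ n = 3) {x0 : X} {N : Subgroup G} {r s : G}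
    (h : DD n c x0 N r s) {Φ : Finset X} (hΦ : CMType c Φ) {f : X → ℚ}
    (hf : f ∈ ED n c x0 N r) :
    ∑ x, (sg Φ x : ℚ) * f x = 2 * (f x0 * (co n N x0 r s Φ 0 : ℚ)
      + f (r • x0) * (co n N x0 r s Φ 1 : ℚ) + f (s • x0) * (co n N x0 r s Φ 2 : ℚ)
      + f ((r * s) • x0) * (co n N x0 r s Φ 3 : ℚ)) := by
  rw [sum_VK hA h hΦ hf.1]
  rcases hn with rfl | rfl
  · simp only [co, fx, fy, sum_range_succ, range_zero, sum_empty, if_true, pow_zero, one_smul,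
      one_mul, pow_one, Matrix.cons_val_zero, Matrix.cons_val_one, Matrix.cons_val]
    ring
  · obtain ⟨h1, h2, h3⟩ := ed_rel hA h
    have g1 : f (r ^ 4 • x0) = - f (r • x0) := by
      rw [ed_congr hf.1 h1, mul_smul, hf.1.1]
    have g2 : f ((s * r ^ 2) • x0) = - f ((r * s) • x0) := by
      rw [ed_congr hf.1 h2, mul_smul, hf.1.1]
    have g3 : f ((s * r ^ 4) • x0) = f ((r ^ 2 * s) • x0) := ed_congr hf.1 h3
    have k1 := hf.2 rfl 1
    have k2 := hf.2 rfl s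
    rw [one_smul, one_mul, one_mul, g1] at k1
    rw [g2, g3] at k2
    have k3 : f (r ^ 2 • x0) = f (r • x0) - f x0 := by linarith
    have k4 : f ((r ^ 2 * s) • x0) = f ((r * s) • x0) - f (s • x0) := by linarith
    have h23 : ¬ (3 : ℕ) = 2 := by norm_num
    simp only [co, fx, fy, sum_range_succ, range_zero, sum_empty, if_neg h23, pow_zero, one_smul,
      one_mul, pow_one, Matrix.cons_val_zero, Matrix.cons_val_one, Matrix.cons_val, k3, k4]
    push_cast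
    ring


/-- the sequence with `w (i + 2) = t w (i + 1) - w i` -/
private def d4rec (t a b : ℚ) : ℕ → ℚ
  | 0 => a
  | 1 => b
  | (i + 2) => t * d4rec t a b (i + 1) - d4rec t a b i

private lemma d4rec_two (t a b : ℚ) (i : ℕ) :
    d4rec t a b (i + 2) = t * d4rec t a b (i + 1) - d4rec t a b i := by
  rw [d4rec]

private lemma d4rec_add {n : ℕ} (hn : n = 2 ∨ n = 3) (a b : ℚ) (i : ℕ) :
    d4rec ((n : ℚ) - 2) a b (i + n) = - d4rec ((n : ℚ) - 2) a b i := by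
  rcases hn with rfl | rfl
  · rw [d4rec_two]
    norm_num
  · rw [show i + 3 = (i + 1) + 2 by rfl, d4rec_two, show i + 1 + 1 = i + 2 by rfl, d4rec_two]
    norm_num

private lemma d4rec_mod {n : ℕ} (hn : n = 2 ∨ n = 3) (a b : ℚ) {i j : ℕ} (h : i ≡ j [MOD 2 * n]) :
    d4rec ((n : ℚ) - 2) a b i = d4rec ((n : ℚ) - 2) a b j := by
  have h1 : ∀ k i : ℕ, d4rec ((n : ℚ) - 2) a b (i + 2 * n * k) = d4rec ((n : ℚ) - 2) a b i := by
    intro k
    induction k with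
    | zero => intro i; rfl
    | succ k ih =>
      intro i
      rw [show i + 2 * n * (k + 1) = (i + 2 * n * k) + n + n by ring, d4rec_add hn, d4rec_add hn, ih,
        neg_neg]
  have h2 := h1 (i / (2 * n)) (i % (2 * n))
  have h3 := h1 (j / (2 * n)) (j % (2 * n))
  rw [Nat.mod_add_div] at h2 h3
  rw [h2, h3, h]

private lemma d4rec_zero {n : ℕ} (w : ℕ → ℚ) (hw : ∀ i, w (i + 2) = ((n : ℚ) - 2) * w (i + 1) - w i)
    (h0 : w 0 = 0) (h1 : w 1 = 0) (i : ℕ) : w i = 0 := by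
  have h : ∀ i, w i = 0 ∧ w (i + 1) = 0 := by
    intro i
    induction i with
    | zero => exact ⟨h0, h1⟩
    | succ i ih =>
      refine ⟨ih.2, ?_⟩
      rw [show i + 1 + 1 = i + 2 by rfl, hw, ih.1, ih.2]
      ring
  exact (h i).1

section

variable {D : Type} [Group D]

/-- the relations in the dihedral group -/
private structure d4Rel (n : ℕ) (γ ρ τ : D) : Prop where
  hγ : γ = ρ ^ n
  h2 : ρ ^ (2 * n) = 1
  hτ : τ * τ = 1
  hρ : ρ * τ * (ρ * τ) = 1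
  inj : ∀ i j : ℕ, ρ ^ i = ρ ^ j → i ≡ j [MOD 2 * n]
  ne : ∀ i j : ℕ, ρ ^ i ≠ ρ ^ j * τ
  cov : ∀ z : D, ∃ i : ℕ, z = ρ ^ i ∨ z = ρ ^ i * τ

private lemma d4Rel.tr {n : ℕ} {γ ρ τ : D} (h : d4Rel n γ ρ τ) : τ * ρ = ρ⁻¹ * τ := by
  have h1 : τ⁻¹ = τ := inv_eq_of_mul_eq_one_left h.hτ
  have h2 : ρ * (τ * ρ * τ) = 1 := by
    rw [← h.hρ]
    group
  have h3 : τ * ρ * τ = ρ⁻¹ := eq_inv_of_mul_eq_one_right h2
  calc τ * ρ = τ * ρ * τ * τ⁻¹ := by group
    _ = ρ⁻¹ * τ := by rw [h3, h1]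

private lemma d4Rel.trp {n : ℕ} {γ ρ τ : D} (h : d4Rel n γ ρ τ) (k : ℕ) :
    τ * ρ ^ k = (ρ ^ k)⁻¹ * τ := by
  induction k with
  | zero => simp
  | succ k ih =>
    rw [pow_succ, ← mul_assoc, ih, mul_assoc, h.tr, ← mul_assoc, ← mul_inv_rev, ← pow_succ',
      pow_succ]

private lemma d4Rel.conj {n : ℕ} {γ ρ τ : D} (h : d4Rel n γ ρ τ) {k l : ℕ} (hkl : l + k = 2 * n)
    (i : ℕ) : ρ ^ i * τ * ρ ^ k = ρ ^ (i + l) * τ := by
  have h1 : (ρ ^ k)⁻¹ = ρ ^ l := by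
    apply inv_eq_of_mul_eq_one_left
    rw [← pow_add, hkl, h.h2]
  rw [mul_assoc, h.trp, ← mul_assoc, h1, ← pow_add]

open Classical in
/-- the function on the dihedral group with given values -/
private noncomputable def d4fun (n : ℕ) (ρ τ : D) (w : Fin 4 → ℚ) (z : D) : ℚ :=
  if h : ∃ i : ℕ, z = ρ ^ i then d4rec ((n : ℚ) - 2) (w 0) (w 1) h.choose
  else if h : ∃ i : ℕ, z = ρ ^ i * τ then d4rec ((n : ℚ) - 2) (w 2) (w 3) h.choose else 0

private lemma d4fun_r {n : ℕ} (hn : n = 2 ∨ n = 3) {γ ρ τ : D} (h : d4Rel n γ ρ τ) (w : Fin 4 → ℚ)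
    (i : ℕ) : d4fun n ρ τ w (ρ ^ i) = d4rec ((n : ℚ) - 2) (w 0) (w 1) i := by
  have h1 : ∃ j : ℕ, ρ ^ i = ρ ^ j := ⟨i, rfl⟩
  unfold d4fun
  rw [dif_pos h1]
  exact d4rec_mod hn _ _ (h.inj _ _ h1.choose_spec.symm)

private lemma d4fun_s {n : ℕ} (hn : n = 2 ∨ n = 3) {γ ρ τ : D} (h : d4Rel n γ ρ τ) (w : Fin 4 → ℚ)
    (i : ℕ) : d4fun n ρ τ w (ρ ^ i * τ) = d4rec ((n : ℚ) - 2) (w 2) (w 3) i := by
  have h0 : ¬ ∃ j : ℕ, ρ ^ i * τ = ρ ^ j := by
    rintro ⟨j, hj⟩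
    exact h.ne j i hj.symm
  have h1 : ∃ j : ℕ, ρ ^ i * τ = ρ ^ j * τ := ⟨i, rfl⟩
  unfold d4fun
  rw [dif_neg h0, dif_pos h1]
  exact d4rec_mod hn _ _ (h.inj _ _ (mul_right_cancel h1.choose_spec.symm))

private lemma d4fun_neg {n : ℕ} (hn : n = 2 ∨ n = 3) {γ ρ τ : D} (h : d4Rel n γ ρ τ)
    (w : Fin 4 → ℚ) (z : D) : d4fun n ρ τ w (γ * z) = - d4fun n ρ τ w z := by
  obtain ⟨i, hi | hi⟩ := h.cov z
  · rw [hi, h.hγ, ← pow_add, d4fun_r hn h, d4fun_r hn h, add_comm, d4rec_add hn]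
  · rw [hi, h.hγ, ← mul_assoc, ← pow_add, d4fun_s hn h, d4fun_s hn h, add_comm, d4rec_add hn]

private lemma d4fun_sum {γ ρ τ : D} (h : d4Rel 3 γ ρ τ) (w : Fin 4 → ℚ) (z : D) :
    d4fun 3 ρ τ w z + d4fun 3 ρ τ w (z * ρ ^ 2) + d4fun 3 ρ τ w (z * ρ ^ 4) = 0 := by
  have hr : ∀ (a b : ℚ) (i : ℕ), d4rec (((3 : ℕ) : ℚ) - 2) a b i + d4rec (((3 : ℕ) : ℚ) - 2) a b (i + 2)
      + d4rec (((3 : ℕ) : ℚ) - 2) a b (i + 4) = 0 := by
    intro a b i
    have h1 := d4rec_add (n := 3) (Or.inr rfl) a b (i + 1)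
    rw [show i + 1 + 3 = i + 4 by rfl] at h1
    rw [h1, d4rec_two]
    norm_num
  obtain ⟨i, hi | hi⟩ := h.cov z
  · rw [hi, ← pow_add, ← pow_add, d4fun_r (Or.inr rfl) h, d4fun_r (Or.inr rfl) h,
      d4fun_r (Or.inr rfl) h, hr]
  · rw [hi, h.conj (k := 2) (l := 4) (by norm_num), h.conj (k := 4) (l := 2) (by norm_num),
      d4fun_s (Or.inr rfl) h, d4fun_s (Or.inr rfl) h, d4fun_s (Or.inr rfl) h]
    have := hr (w 2) (w 3) i
    linarith

end

private lemma d4_rel (hA : Act G X c g) {n : ℕ} {x0 : X} {N : Subgroup G} {r s : G}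
    (h : DD n c x0 N r s) [N.Normal] : d4Rel n (c : G ⧸ N) (r : G ⧸ N) (s : G ⧸ N) := by
  have e1 : ∀ i : ℕ, (r : G ⧸ N) ^ i = 1 ↔ 2 * n ∣ i := by
    intro i
    rw [← h.rN i, ← QuotientGroup.mk_pow, QuotientGroup.eq_one_iff]
  have e2 : (r : G ⧸ N) ^ (2 * n) = 1 := (e1 _).2 dvd_rfl
  have e3 : ∀ i : ℕ, (r : G ⧸ N) ^ i * (s : G ⧸ N) ≠ 1 := by
    intro i hi
    apply h.sN i
    rw [← QuotientGroup.eq_one_iff, QuotientGroup.mk_mul, QuotientGroup.mk_pow, hi]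
  refine ⟨?_, e2, ?_, ?_, ?_, ?_, ?_⟩
  · have h1 : (c : G ⧸ N) * (r : G ⧸ N) ^ n = 1 := by
      rw [← QuotientGroup.mk_pow, ← QuotientGroup.mk_mul, QuotientGroup.eq_one_iff]
      exact h.rn
    have h2 : (r : G ⧸ N) ^ n * (r : G ⧸ N) ^ n = 1 := by
      rw [← pow_add, ← two_mul, e2]
    exact mul_right_cancel (h1.trans h2.symm)
  · rw [← QuotientGroup.mk_mul, QuotientGroup.eq_one_iff]
    exact h.ss
  · rw [← QuotientGroup.mk_mul, ← QuotientGroup.mk_mul, QuotientGroup.eq_one_iff]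
    exact h.rs
  · intro i j hij
    have h1 : orderOf (r : G ⧸ N) = 2 * n :=
      Nat.dvd_antisymm (orderOf_dvd_of_pow_eq_one e2) ((e1 _).1 (pow_orderOf_eq_one _))
    rw [← h1]
    exact pow_eq_pow_iff_modEq.1 hij
  · intro i j hij
    have h1 : (r : G ⧸ N) ^ (2 * n * i) = 1 := (e1 _).2 (dvd_mul_right _ _)
    rcases Nat.eq_zero_or_pos n with h0 | h0
    · subst h0
      have h2 : N.index = 0 := by rw [h.index]
      exact (Subgroup.FiniteIndex.index_ne_zero (H := N)) h2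
    · apply e3 (((2 * n - 1) * i) + j)
      rw [pow_add, mul_assoc, ← hij, ← pow_add, ← h1]
      congr 1
      obtain ⟨m, hm⟩ : ∃ m, 2 * n = m + 1 := ⟨2 * n - 1, by omega⟩
      rw [hm, Nat.add_sub_cancel]
      ring
  · intro z
    induction z using QuotientGroup.induction_on with
    | H σ =>
      obtain ⟨i, -, hi⟩ := h.cover σ
      refine ⟨i, ?_⟩
      rcases hi with hi | hi
      · left
        rw [← QuotientGroup.mk_pow]
        exact (QuotientGroup.eq.2 hi).symm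
      · right
        rw [← QuotientGroup.mk_pow, ← QuotientGroup.mk_mul]
        exact (QuotientGroup.eq.2 hi).symm

/-- the four values -/
private def d4ev (n : ℕ) (c : G) (x0 : X) (N : Subgroup G) (r s : G) :
    ED n c x0 N r →ₗ[ℚ] (Fin 4 → ℚ) where
  toFun f := ![f.1 x0, f.1 (r • x0), f.1 (s • x0), f.1 ((r * s) • x0)]
  map_add' := by
    intro f g
    ext j
    fin_cases j <;> rfl
  map_smul' := by
    intro a f
    ext j
    fin_cases j <;> rfl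

private lemma d4_val (hA : Act G X c g) {n : ℕ} {x0 : X} {N : Subgroup G} {r s : G}
    (h : DD n c x0 N r s) [N.Normal] {f : X → ℚ} (hf : f ∈ ED n c x0 N r) :
    ∃ k : G ⧸ N → ℚ, (∀ z : G ⧸ N, k ((c : G ⧸ N) * z) = - k z) ∧
      (∀ σ : G, f (σ • x0) = k (σ : G ⧸ N)) ∧
      (n = 3 → ∀ z : G ⧸ N, k z + k (z * (r : G ⧸ N) ^ 2) + k (z * (r : G ⧸ N) ^ 4) = 0) := by
  obtain ⟨β, hβ, -⟩ := exists_blk x0 N h.stab
  rw [mem_ED] at hf
  obtain ⟨k, hk1, hk2⟩ := (VK_iff hA x0 N β hβ f).1 hf.1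
  have hk3 : ∀ σ : G, f (σ • x0) = k (σ : G ⧸ N) := by
    intro σ
    rw [hk2, hβ]
  refine ⟨k, ?_, hk3, ?_⟩
  · intro z
    induction z using QuotientGroup.induction_on with
    | H σ => exact hk1 σ
  · intro h3 z
    induction z using QuotientGroup.induction_on with
    | H σ =>
      have h4 := hf.2 h3 σ
      rw [hk3, hk3, hk3] at h4
      exact h4

private lemma d4_inj (hA : Act G X c g) {n : ℕ} (hn : n = 2 ∨ n = 3) {x0 : X} {N : Subgroup G}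
    {r s : G} (h : DD n c x0 N r s) : Function.Injective (d4ev n c x0 N r s) := by
  have := h.normal
  have hr := d4_rel hA h
  rw [injective_iff_map_eq_zero]
  intro f hf
  obtain ⟨k, hk1, hk2, hk3⟩ := d4_val hA h f.2
  have h0 : f.1 x0 = 0 := congrFun hf 0
  have h1 : f.1 (r • x0) = 0 := congrFun hf 1
  have h2 : f.1 (s • x0) = 0 := congrFun hf 2
  have h3 : f.1 ((r * s) • x0) = 0 := congrFun hf 3
  have h0' : f.1 ((1 : G) • x0) = 0 := by rw [one_smul]; exact h0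
  rw [hk2] at h0' h1 h2 h3
  have hγ : (c : G ⧸ N) = (r : G ⧸ N) ^ n := hr.hγ
  have hrec1 : ∀ i : ℕ, k ((r : G ⧸ N) ^ (i + 2)) = ((n : ℚ) - 2) * k ((r : G ⧸ N) ^ (i + 1))
      - k ((r : G ⧸ N) ^ i) := by
    intro i
    rcases hn with rfl | rfl
    · have h5 := hk1 ((r : G ⧸ N) ^ i)
      rw [hγ, ← pow_add, add_comm] at h5
      rw [h5]
      norm_num
    · have h5 := hk1 ((r : G ⧸ N) ^ (i + 1))
      rw [hγ, ← pow_add, show 3 + (i + 1) = i + 4 by ring] at h5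
      have h6 := hk3 rfl ((r : G ⧸ N) ^ i)
      rw [← pow_add, ← pow_add, h5] at h6
      have h7 : (((3 : ℕ) : ℚ) - 2) = 1 := by norm_num
      rw [h7]
      linarith
  have hrec2 : ∀ i : ℕ, k ((r : G ⧸ N) ^ (i + 2) * (s : G ⧸ N))
      = ((n : ℚ) - 2) * k ((r : G ⧸ N) ^ (i + 1) * (s : G ⧸ N))
      - k ((r : G ⧸ N) ^ i * (s : G ⧸ N)) := by
    intro i
    rcases hn with rfl | rfl
    · have h5 := hk1 ((r : G ⧸ N) ^ i * (s : G ⧸ N))
      rw [hγ, ← mul_assoc, ← pow_add, add_comm] at h5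
      rw [h5]
      norm_num
    · have h5 := hk1 ((r : G ⧸ N) ^ (i + 1) * (s : G ⧸ N))
      rw [hγ, ← mul_assoc, ← pow_add, show 3 + (i + 1) = i + 4 by ring] at h5
      have h6 := hk3 rfl ((r : G ⧸ N) ^ i * (s : G ⧸ N))
      rw [hr.conj (k := 2) (l := 4) (by norm_num), hr.conj (k := 4) (l := 2) (by norm_num), h5] at h6
      have h7 : (((3 : ℕ) : ℚ) - 2) = 1 := by norm_num
      rw [h7]
      linarith
  have hz1 : ∀ i : ℕ, k ((r : G ⧸ N) ^ i) = 0 := by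
    apply d4rec_zero (n := n) (fun i => k ((r : G ⧸ N) ^ i)) hrec1
    · simp only [pow_zero]
      exact h0'
    · simp only [pow_one]
      exact h1
  have hz2 : ∀ i : ℕ, k ((r : G ⧸ N) ^ i * (s : G ⧸ N)) = 0 := by
    apply d4rec_zero (n := n) (fun i => k ((r : G ⧸ N) ^ i * (s : G ⧸ N))) hrec2
    · simp only [pow_zero, one_mul]
      exact h2
    · simp only [pow_one]
      exact h3
  apply Subtype.ext
  funext x
  obtain ⟨σ, rfl⟩ := MulAction.exists_smul_eq G x0 x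
  rw [hk2]
  obtain ⟨i, hi | hi⟩ := hr.cov (σ : G ⧸ N)
  · rw [hi, hz1]
    rfl
  · rw [hi, hz2]
    rfl

private lemma d4_surj (hA : Act G X c g) {n : ℕ} (hn : n = 2 ∨ n = 3) {x0 : X} {N : Subgroup G}
    {r s : G} (h : DD n c x0 N r s) : Function.Surjective (d4ev n c x0 N r s) := by
  have := h.normal
  have hr := d4_rel hA h
  intro w
  obtain ⟨β, hβ, -⟩ := exists_blk x0 N h.stab
  have hm : (fun x => d4fun n (r : G ⧸ N) (s : G ⧸ N) w (β x)) ∈ ED n c x0 N r := by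
    rw [mem_ED]
    constructor
    · rw [VK_iff hA x0 N β hβ]
      refine ⟨d4fun n (r : G ⧸ N) (s : G ⧸ N) w, ?_, fun x => rfl⟩
      intro σ
      rw [QuotientGroup.mk_mul]
      exact d4fun_neg hn hr w _
    · intro h3 σ
      subst h3
      simp only [hβ, QuotientGroup.mk_mul, QuotientGroup.mk_pow]
      exact d4fun_sum hr w _
  refine ⟨⟨_, hm⟩, ?_⟩
  have e0 : β x0 = (r : G ⧸ N) ^ 0 := by
    have := hβ 1
    rw [one_smul] at this
    rw [this, pow_zero]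
    rfl
  have e1 : β (r • x0) = (r : G ⧸ N) ^ 1 := by rw [hβ, pow_one]
  have e2 : β (s • x0) = (r : G ⧸ N) ^ 0 * (s : G ⧸ N) := by rw [hβ, pow_zero, one_mul]
  have e3 : β ((r * s) • x0) = (r : G ⧸ N) ^ 1 * (s : G ⧸ N) := by
    rw [hβ, pow_one, QuotientGroup.mk_mul]
  funext j
  fin_cases j
  · show d4fun n (r : G ⧸ N) (s : G ⧸ N) w (β x0) = w 0
    rw [e0, d4fun_r hn hr]
    rfl
  · show d4fun n (r : G ⧸ N) (s : G ⧸ N) w (β (r • x0)) = w 1
    rw [e1, d4fun_r hn hr]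
    rfl
  · show d4fun n (r : G ⧸ N) (s : G ⧸ N) w (β (s • x0)) = w 2
    rw [e2, d4fun_s hn hr]
    rfl
  · show d4fun n (r : G ⧸ N) (s : G ⧸ N) w (β ((r * s) • x0)) = w 3
    rw [e3, d4fun_s hn hr]
    rfl

/-- RECIPE. `f ↦ (f x0, f (r • x0), f (s • x0), f (r s • x0))` is injective on `ED` (as in `sum_ED` and
`DD.cover`) and surjective: a function of the block (`VK_iff`, `exists_blk`) with given values; or give four
functions with independent values, e.g. for `n = 3` the function with values `1, 1, 0, -1, -1, 0` resp.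
`0, 1, 1, 0, -1, -1` on the blocks of `r ^ i` and zero on the blocks of `r ^ i s`. -/
theorem finrank_ED (hA : Act G X c g) {n : ℕ} (hn : n = 2 ∨ n = 3) {x0 : X} {N : Subgroup G}
    {r s : G} (h : DD n c x0 N r s) : finrank ℚ (ED n c x0 N r) = 4 := by
  have e := LinearEquiv.ofBijective (d4ev n c x0 N r s) ⟨d4_inj hA hn h, d4_surj hA hn h⟩
  rw [e.finrank_eq, Module.finrank_fin_fun]

end Pool.Agent.Lib.MP_938ce2_ag_L4
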