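import Pool.Agent.Lib.MP_938ce2_ag_L4.N2
import Pool.Agent.Lib.MP_938ce2_ag_L4.LD4

/-!
Row D9a: many pairs of vectors with equal norms.
-/

set_option autoImplicit false
set_option linter.unusedSectionVars false

namespace Pool.Agent.Lib.MP_938ce2_ag_L4

open Finset Module
open Pool.Agent.Lib.MP_938ce2_ag_h67 (sg)
open Pool.Agent.Lib.MP_938ce2_ag_h60 (CMType GeneratedByDivisors Nondeg)
open Pool.Agent.Lib.MP_938ce2_ag_u2 (Act)
open Pool.Agent.Lib.MP_938ce2_ag_L3 (VK Prim)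

variable {G X : Type} [Group G] [Fintype G] [MulAction G X] [Fintype X] [DecidableEq X]
  [MulAction.IsPretransitive G X] {c : G} {g : ℕ}

/-- extension by zero -/
def ext0 {n : ℕ} (a : Fin n → ℤ) (i : ℕ) : ℤ := if h : i < n then a ⟨i, h⟩ else 0

private lemma d9_mem {R e : ℕ} {t : ℕ × ℕ × ℕ × ℕ} (ht : t ∈ solSet R e) :
    (1 ≤ t.1 ∧ t.1 ≤ R) ∧ (1 ≤ t.2.1 ∧ t.2.1 ≤ R) ∧ (1 ≤ t.2.2.1 ∧ t.2.2.1 ≤ R) ∧
      (1 ≤ t.2.2.2 ∧ t.2.2.2 ≤ R) ∧ t.1 * t.2.1 = t.2.2.1 * t.2.2.2 ∧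
      (t.1 + t.2.1) % 2 = e % 2 ∧ (t.2.2.1 + t.2.2.2) % 2 = e % 2 := by
  unfold solSet at ht
  rw [mem_filter, mem_product, mem_product, mem_product, mem_Icc, mem_Icc, mem_Icc, mem_Icc] at ht
  obtain ⟨⟨h1, h2, h3, h4⟩, h5, h6, h7⟩ := ht
  exact ⟨h1, h2, h3, h4, h5, h6, h7⟩

private def d9f2 (t : ℕ × ℕ × ℕ × ℕ) : (Fin 2 → ℤ) × (Fin 2 → ℤ) :=
  (![(t.1 : ℤ) + t.2.1, (t.2.2.2 : ℤ) - t.2.2.1], ![(t.2.1 : ℤ) - t.1, (t.2.2.1 : ℤ) + t.2.2.2])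

private def d9f3 (L : ℕ) (t : (ℕ × ℕ × ℕ × ℕ) × ℕ × ℕ) : (Fin 3 → ℤ) × (Fin 3 → ℤ) :=
  (![2 * (3 * (t.1.1 : ℤ) + t.1.2.1 + t.1.2.2.1 - t.1.2.2.2) + (2 * (t.2.1 : ℤ) + (L % 2 : ℕ)),
      4 * ((t.1.2.2.2 : ℤ) - t.1.2.2.1) - (2 * (t.2.1 : ℤ) + (L % 2 : ℕ)),
      2 * (t.2.1 : ℤ) + (L % 2 : ℕ)],
    ![2 * ((t.1.2.1 : ℤ) - 3 * t.1.1 - t.1.2.2.1 - t.1.2.2.2) + (2 * (t.2.2 : ℤ) + (L % 2 : ℕ)),
      4 * ((t.1.2.2.1 : ℤ) + t.1.2.2.2) - (2 * (t.2.2 : ℤ) + (L % 2 : ℕ)),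
      2 * (t.2.2 : ℤ) + (L % 2 : ℕ)])

private lemma d9_sq {L r : ℕ} (hr : r * r ≤ L) {z : ℤ} (h1 : -(2 * (r : ℤ)) ≤ z)
    (h2 : z ≤ 2 * (r : ℤ)) : z ^ 2 ≤ 4 * (L : ℤ) := by
  have h3 : z ^ 2 ≤ (2 * (r : ℤ)) ^ 2 := sq_le_sq' h1 h2
  have h4 : ((r : ℤ)) * r ≤ L := by exact_mod_cast hr
  nlinarith

private lemma d9_two {L R : ℕ} (hR : 16 * R ≤ Nat.sqrt L) :
    ∀ t ∈ (solSet R L).image d9f2, (∀ i, t.1 i ^ 2 ≤ 4 * (L : ℤ) ∧ t.1 i ≡ L [ZMOD 2] ∧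
      t.2 i ^ 2 ≤ 4 * (L : ℤ) ∧ t.2 i ≡ L [ZMOD 2]) ∧
        nrm 2 (fx 2 (ext0 t.1)) (fy 2 (ext0 t.1)) = nrm 2 (fx 2 (ext0 t.2)) (fy 2 (ext0 t.2)) := by
  intro t ht
  rw [mem_image] at ht
  obtain ⟨⟨i, j, k, l⟩, hs, rfl⟩ := ht
  obtain ⟨⟨h1, h2⟩, ⟨h3, h4⟩, ⟨h5, h6⟩, ⟨h7, h8⟩, h9, h10, h11⟩ := d9_mem hs
  simp only at h1 h2 h3 h4 h5 h6 h7 h8 h9 h10 h11
  have hr : Nat.sqrt L * Nat.sqrt L ≤ L := Nat.sqrt_le L
  constructor
  · intro x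
    fin_cases x
    · simp only [d9f2, Fin.zero_eta, Fin.isValue, Matrix.cons_val_zero, Int.ModEq]
      refine ⟨d9_sq hr (by omega) (by omega), by omega, d9_sq hr (by omega) (by omega), by omega⟩
    · simp only [d9f2, Fin.mk_one, Fin.isValue, Matrix.cons_val_one, Matrix.cons_val_fin_one,
        Int.ModEq]
      refine ⟨d9_sq hr (by omega) (by omega), by omega, d9_sq hr (by omega) (by omega), by omega⟩
  · have h9' : (i : ℤ) * j = k * l := by exact_mod_cast h9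
    have e0 : ∀ a : Fin 2 → ℤ, ext0 a 0 = a 0 := fun a => by simp [ext0]
    have e1 : ∀ a : Fin 2 → ℤ, ext0 a 1 = a 1 := fun a => by simp [ext0]
    simp only [nrm, fx, fy, if_true, e0, e1, d9f2, Matrix.cons_val_zero, Matrix.cons_val_one,
      Matrix.cons_val_fin_one]
    linear_combination 4 * h9'

private lemma d9_three {L R S : ℕ} (hR : 16 * R ≤ Nat.sqrt L) (hS : 2 * S ≤ Nat.sqrt L) :
    ∀ t ∈ (solSet R 0 ×ˢ range S ×ˢ range S).image (d9f3 L),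
      (∀ i, t.1 i ^ 2 ≤ 4 * (L : ℤ) ∧ t.1 i ≡ L [ZMOD 2] ∧
      t.2 i ^ 2 ≤ 4 * (L : ℤ) ∧ t.2 i ≡ L [ZMOD 2]) ∧
        nrm 3 (fx 3 (ext0 t.1)) (fy 3 (ext0 t.1)) = nrm 3 (fx 3 (ext0 t.2)) (fy 3 (ext0 t.2)) := by
  intro t ht
  rw [mem_image] at ht
  obtain ⟨⟨⟨i, j, k, l⟩, s, s'⟩, hs, rfl⟩ := ht
  rw [mem_product, mem_product, mem_range, mem_range] at hs
  obtain ⟨hs, hs1, hs2⟩ := hs
  obtain ⟨⟨h1, h2⟩, ⟨h3, h4⟩, ⟨h5, h6⟩, ⟨h7, h8⟩, h9, h10, h11⟩ := d9_mem hs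
  simp only at h1 h2 h3 h4 h5 h6 h7 h8 h9 h10 h11 hs1 hs2
  have hr : Nat.sqrt L * Nat.sqrt L ≤ L := Nat.sqrt_le L
  constructor
  · intro x
    fin_cases x
    · simp only [d9f3, Fin.zero_eta, Fin.isValue, Matrix.cons_val_zero, Int.ModEq]
      refine ⟨d9_sq hr (by omega) (by omega), by omega, d9_sq hr (by omega) (by omega), by omega⟩
    · simp only [d9f3, Fin.mk_one, Fin.isValue, Matrix.cons_val_one, Matrix.cons_val_zero,
        Int.ModEq]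
      refine ⟨d9_sq hr (by omega) (by omega), by omega, d9_sq hr (by omega) (by omega), by omega⟩
    · simp only [d9f3, Fin.reduceFinMk, Fin.isValue, Matrix.cons_val, Int.ModEq]
      refine ⟨d9_sq hr (by omega) (by omega), by omega, d9_sq hr (by omega) (by omega), by omega⟩
  · have h9' : (i : ℤ) * j = k * l := by exact_mod_cast h9
    have e0 : ∀ a : Fin 3 → ℤ, ext0 a 0 = a 0 := fun a => by simp [ext0]
    have e1 : ∀ a : Fin 3 → ℤ, ext0 a 1 = a 1 := fun a => by simp [ext0]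
    have e2 : ∀ a : Fin 3 → ℤ, ext0 a 2 = a 2 := fun a => by simp [ext0]
    simp only [nrm, fx, fy, e0, e1, e2, d9f3, Matrix.cons_val_zero, Matrix.cons_val_one,
      Matrix.cons_val, Nat.succ_ne_self, if_false]
    linear_combination 48 * h9'

private lemma d9_inj2 : Function.Injective d9f2 := by
  rintro ⟨i, j, k, l⟩ ⟨i', j', k', l'⟩ h
  simp only [d9f2, Prod.mk.injEq] at h
  obtain ⟨ha, hb⟩ := h
  have a0 := congrFun ha 0
  have a1 := congrFun ha 1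
  have b0 := congrFun hb 0
  have b1 := congrFun hb 1
  simp only [Fin.isValue, Matrix.cons_val_zero, Matrix.cons_val_one,
    Matrix.cons_val_fin_one] at a0 a1 b0 b1
  have e1 : i = i' := by omega
  have e2 : j = j' := by omega
  have e3 : k = k' := by omega
  have e4 : l = l' := by omega
  subst e1 e2 e3 e4
  rfl

private lemma d9_inj3 (L : ℕ) : Function.Injective (d9f3 L) := by
  rintro ⟨⟨i, j, k, l⟩, s, t⟩ ⟨⟨i', j', k', l'⟩, s', t'⟩ h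
  simp only [d9f3, Prod.mk.injEq] at h
  obtain ⟨ha, hb⟩ := h
  have a0 := congrFun ha 0
  have a1 := congrFun ha 1
  have a2 := congrFun ha 2
  have b0 := congrFun hb 0
  have b1 := congrFun hb 1
  have b2 := congrFun hb 2
  simp only [Fin.isValue, Matrix.cons_val_zero, Matrix.cons_val_one,
    Matrix.cons_val] at a0 a1 a2 b0 b1 b2
  have e5 : s = s' := by omega
  have e6 : t = t' := by omega
  subst e5 e6
  have e3 : k = k' := by omega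
  have e4 : l = l' := by omega
  subst e3 e4
  have e1 : i = i' := by omega
  have e2 : j = j' := by omega
  subst e1 e2
  rfl

/-- RECIPE. `R₀ = ⌊√L⌋ / 16` (`Nat.sqrt L / 16`). `n = 2`: for `(i, j, k, l) ∈ solSet R₀ L` (all have the parity
of `L`) take `a = (i + j, l - k)`, `b = (j - i, k + l)`: `(i + j)² + (l - k)² = (j - i)² + (k + l)²`.
`n = 3`: for `(i, j, k, l) ∈ solSet R₀ 0` and `a₂, b₂` of absolute value at most `√L`, of the parity of `L`, let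
`x = 2 (3 i + j + k - l)`, `y = 4 (l - k)`, `u = 2 (j - 3 i - k - l)`, `v = 4 (k + l)`; then
`x² + x y + y² - u² - u v - v² = 48 (i j - k l) = 0`; take `a = (x + a₂, y - a₂, a₂)`,
`b = (u + b₂, v - b₂, b₂)`. There are at least `√L / 2` choices for `a₂` and for `b₂`. The map is injective.
`L ^ 1 log L` resp. `L ^ 2 log L` points up to a constant by `sol_lower`. Any positive constant is fine. -/
theorem exists_points : ∃ κ : ℝ, 0 < κ ∧ ∃ L₀ : ℕ, ∀ L : ℕ, L₀ ≤ L → ∀ n : ℕ, (n = 2 ∨ n = 3) →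
    ∃ P : Finset ((Fin n → ℤ) × (Fin n → ℤ)), κ * (L : ℝ) ^ (n - 1) * Real.log L ≤ (P.card : ℝ) ∧
      ∀ t ∈ P, (∀ i, t.1 i ^ 2 ≤ 4 * L ∧ t.1 i ≡ L [ZMOD 2] ∧ t.2 i ^ 2 ≤ 4 * L ∧
        t.2 i ≡ L [ZMOD 2]) ∧
        nrm n (fx n (ext0 t.1)) (fy n (ext0 t.1)) = nrm n (fx n (ext0 t.2)) (fy n (ext0 t.2)) := by
  obtain ⟨κ, hκ, R₀, hR₀⟩ := sol_lower
  refine ⟨κ / 65536, by positivity, max (2 ^ 20) ((16 * R₀) ^ 2), fun L hL n hn => ?_⟩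
  have hL1 : 2 ^ 20 ≤ L := le_trans (le_max_left _ _) hL
  have hL2 : (16 * R₀) ^ 2 ≤ L := le_trans (le_max_right _ _) hL
  have hr1 : 2 ^ 10 ≤ Nat.sqrt L := by
    rw [Nat.le_sqrt]
    calc 2 ^ 10 * 2 ^ 10 = 2 ^ 20 := by norm_num
      _ ≤ L := hL1
  have hr2 : 16 * R₀ ≤ Nat.sqrt L := by
    rw [Nat.le_sqrt]
    calc 16 * R₀ * (16 * R₀) = (16 * R₀) ^ 2 := by ring
      _ ≤ L := hL2
  have hr3 : L < (Nat.sqrt L + 1) * (Nat.sqrt L + 1) := Nat.lt_succ_sqrt L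
  obtain ⟨r, hr⟩ : ∃ r, r = Nat.sqrt L := ⟨_, rfl⟩
  rw [← hr] at hr1 hr2 hr3
  have hR : R₀ ≤ r / 16 := by omega
  have hR32 : r + 1 ≤ 32 * (r / 16) := by omega
  have hS4 : r + 1 ≤ 4 * (r / 2) := by omega
  obtain ⟨R, hRdef⟩ : ∃ R, R = r / 16 := ⟨_, rfl⟩
  obtain ⟨S, hSdef⟩ : ∃ S, S = r / 2 := ⟨_, rfl⟩
  rw [← hRdef] at hR hR32
  rw [← hSdef] at hS4
  have hR16 : 16 * R ≤ Nat.sqrt L := by omega
  have hS2 : 2 * S ≤ Nat.sqrt L := by omega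
  have hLpos : (0 : ℝ) < (L : ℝ) := by
    have : 0 < L := by omega
    exact_mod_cast this
  have hLR : (L : ℝ) ≤ 1024 * (R : ℝ) ^ 2 := by
    have h1 : L ≤ (32 * R) * (32 * R) := le_trans hr3.le (Nat.mul_le_mul hR32 hR32)
    have h2 : ((L : ℕ) : ℝ) ≤ ((32 * R * (32 * R) : ℕ) : ℝ) := by exact_mod_cast h1
    push_cast at h2
    nlinarith
  have hLS : (L : ℝ) ≤ 16 * (S : ℝ) ^ 2 := by
    have h1 : L ≤ (4 * S) * (4 * S) := le_trans hr3.le (Nat.mul_le_mul hS4 hS4)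
    have h2 : ((L : ℕ) : ℝ) ≤ ((4 * S * (4 * S) : ℕ) : ℝ) := by exact_mod_cast h1
    push_cast at h2
    nlinarith
  have hL20 : (2 : ℝ) ^ 20 ≤ (L : ℝ) := by exact_mod_cast hL1
  have hLlog0 : 0 ≤ Real.log (L : ℝ) := Real.log_nonneg (by linarith [show (1 : ℝ) ≤ 2 ^ 20 by norm_num])
  have hlog : Real.log (L : ℝ) / 4 ≤ Real.log (R : ℝ) := by
    have h1 : (L : ℝ) ≤ (R : ℝ) ^ 4 := by
      have h2 : (L : ℝ) * L ≤ (1024 * (R : ℝ) ^ 2) * (1024 * (R : ℝ) ^ 2) :=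
        mul_le_mul hLR hLR hLpos.le (by positivity)
      have h3 : (2 : ℝ) ^ 20 * L ≤ L * L := mul_le_mul_of_nonneg_right hL20 hLpos.le
      nlinarith
    have h4 := Real.log_le_log hLpos h1
    rw [Real.log_pow] at h4
    push_cast at h4
    linarith
  have hlogR0 : 0 ≤ Real.log (R : ℝ) := by linarith
  have hbase : ∀ e : ℕ, κ / 4096 * (L : ℝ) * Real.log L ≤ ((solSet R e).card : ℝ) := by
    intro e
    have h1 := hR₀ R hR e
    have h2 : (L : ℝ) / 1024 * (Real.log L / 4) ≤ (R : ℝ) ^ 2 * Real.log R :=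
      mul_le_mul (by linarith) hlog (by linarith) (by positivity)
    have h3 := mul_le_mul_of_nonneg_left h2 hκ.le
    linarith
  rcases hn with rfl | rfl
  · refine ⟨(solSet R L).image d9f2, ?_, d9_two hR16⟩
    rw [card_image_of_injective _ d9_inj2]
    refine le_trans ?_ (hbase L)
    have h0 : 0 ≤ κ * (L : ℝ) * Real.log L := by positivity
    have h1 : (L : ℝ) ^ (2 - 1) = L := by norm_num
    rw [h1]
    linarith
  · refine ⟨(solSet R 0 ×ˢ range S ×ˢ range S).image (d9f3 L), ?_, d9_three hR16 hS2⟩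
    rw [card_image_of_injective _ (d9_inj3 L), card_product, card_product, card_range]
    have h1 : (L : ℝ) ^ (3 - 1) = L * L := by
      norm_num
      ring
    rw [h1]
    push_cast
    have h2 : (L : ℝ) / 16 ≤ (S : ℝ) * S := by nlinarith
    have h3 : κ / 4096 * (L : ℝ) * Real.log L * ((L : ℝ) / 16) ≤
        ((solSet R 0).card : ℝ) * ((S : ℝ) * S) :=
      mul_le_mul (hbase 0) h2 (by positivity) (by positivity)
    linarith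

end Pool.Agent.Lib.MP_938ce2_ag_L4
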