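import Mathlib
import Pool.Agent.Lib.MP_938ce2_ag_L3.FD

/-!
The dihedral Galois CM subfields of a CM field, and the three term expression.
-/

set_option autoImplicit false
set_option linter.unusedSectionVars false

namespace Pool.Agent.Lib.MP_938ce2_ag_L4

open Module NumberField
open Pool.Agent.Lib.MP_938ce2_ag_L3 (ImagQuad SmallCM meas share)

/-- the subfields of `E` which are CM fields and Galois over `ℚ` with dihedral Galois group of order
`8` or `12` -/
def DihedralCM (E : Type) [Field E] [NumberField E] : Set (IntermediateField ℚ E) :=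
  {F | IsCMField F ∧ IsGalois ℚ F ∧ (Nonempty ((F ≃ₐ[ℚ] F) ≃* DihedralGroup 4) ∨
    Nonempty ((F ≃ₐ[ℚ] F) ≃* DihedralGroup 6))}

/-- `a / √g + b / g + d (log (2 g)) / g` where `[E : ℚ] = 2 g` -/
noncomputable def meas3 (E : Type) [Field E] [NumberField E] : ℝ :=
  meas E + ((DihedralCM E).ncard : ℝ) * Real.log (finrank ℚ E) / ((finrank ℚ E : ℝ) / 2)

end Pool.Agent.Lib.MP_938ce2_ag_L4
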