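import Pool.Agent.Lib.MP_938ce2_ag_L4.G3
import Pool.Agent.Lib.MP_938ce2_ag_u6.Final6

/-!
Final statement.
-/

set_option autoImplicit false

namespace Pool.Agent.Lib.MP_938ce2_ag_L4

open Module NumberField Filter Topology
open Pool.Agent.Lib.MP_938ce2_ag_h60 (CMType GeneratedByDivisors conj)
open Pool.Agent.Lib.MP_938ce2_ag_L3 (ImagQuad SmallCM share meas)

theorem final3 :
    (∃ C : ℝ, 0 < C ∧ ∀ η : ℝ, 0 < η → ∃ g₀ : ℕ, ∀ (L E : Type) [Field L] [NumberField L]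
      [IsGalois ℚ L] [IsCMField L] [Field E] [NumberField E] [IsCMField E]
      [Nonempty (E →ₐ[ℚ] L)] (g : ℕ) (m : ℝ), finrank ℚ E = 2 * g → g₀ ≤ g →
      m = ((ImagQuad E).ncard : ℝ) / √(g : ℝ) + ((SmallCM E).ncard : ℝ) / g
        + ((DihedralCM E).ncard : ℝ) * Real.log (2 * g) / g →
      min 1 m ≤ C * share L E + η ∧ share L E ≤ C * m + η) ∧
    (∀ (L E : ℕ → Type) [∀ i, Field (L i)] [∀ i, NumberField (L i)] [∀ i, IsGalois ℚ (L i)]
      [∀ i, IsCMField (L i)] [∀ i, Field (E i)] [∀ i, NumberField (E i)] [∀ i, IsCMField (E i)]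
      [∀ i, Nonempty (E i →ₐ[ℚ] L i)],
      Tendsto (fun i => finrank ℚ (E i)) atTop atTop →
      (Tendsto (fun i => share (L i) (E i)) atTop (𝓝 0) ↔
        Tendsto (fun i => ((ImagQuad (E i)).ncard : ℝ) / √(finrank ℚ (E i) : ℝ)) atTop (𝓝 0) ∧
        Tendsto (fun i => ((SmallCM (E i)).ncard : ℝ) / (finrank ℚ (E i) : ℝ)) atTop (𝓝 0) ∧
        Tendsto (fun i => ((DihedralCM (E i)).ncard : ℝ) * Real.log (finrank ℚ (E i)) /
          (finrank ℚ (E i) : ℝ)) atTop (𝓝 0))) := by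
  refine ⟨?_, criterion3 Pool.Agent.Lib.MP_938ce2_ag_u6.upper_field3⟩
  obtain ⟨C, hC, h⟩ := two_sided3 Pool.Agent.Lib.MP_938ce2_ag_u6.upper_field3
  refine ⟨C, hC, fun η hη => ?_⟩
  obtain ⟨g₀, hg₀⟩ := h η hη
  refine ⟨g₀, ?_⟩
  intro L E _ _ _ _ _ _ _ _ g m hE hg hm
  have h1 : meas3 E = m := by
    have h2 : ((2 * g : ℕ) : ℝ) / 2 = g := by push_cast; ring
    rw [meas3, meas, hE, h2, hm]
    push_cast
    rfl
  have h2 := hg₀ L E (by omega)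
  rw [h1] at h2
  exact ⟨h2.1, by linarith [h2.2]⟩

end Pool.Agent.Lib.MP_938ce2_ag_L4
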