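import Pool.Agent.Lib.MP_938ce2_ag_L4.D10
import Pool.Agent.Lib.MP_938ce2_ag_L4.FD3
import Pool.Agent.Lib.MP_938ce2_ag_L3.F1
import Pool.Agent.Lib.MP_938ce2_ag_u2.NF

/-!
Row G1: subfields and subgroups (dihedral subfields).
-/

set_option autoImplicit false
set_option linter.unusedSectionVars false

namespace Pool.Agent.Lib.MP_938ce2_ag_L4

open Module NumberField
open Pool.Agent.Lib.MP_938ce2_ag_h60 (CMType GeneratedByDivisors conj)
open Pool.Agent.Lib.MP_938ce2_ag_u2 (Act)
open Pool.Agent.Lib.MP_938ce2_ag_L3 (ImagQuad SmallCM meas share lower_field not_generated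
  card_not_prim Prim)

variable {L E : Type} [Field L] [NumberField L] [IsGalois ℚ L] [IsCMField L] [Field E]
  [NumberField E] [IsCMField E]

/-- the subgroup of the subfield `F` -/
private noncomputable def sgp (x0 : E →ₐ[ℚ] L) (F : IntermediateField ℚ E) :
    Subgroup (L ≃ₐ[ℚ] L) := (F.map x0).fixingSubgroup

private theorem mem_sgp {x0 : E →ₐ[ℚ] L} {F : IntermediateField ℚ E} {σ : L ≃ₐ[ℚ] L} :
    σ ∈ sgp x0 F ↔ ∀ y ∈ F, σ (x0 y) = x0 y := by
  rw [sgp, IntermediateField.mem_fixingSubgroup_iff]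
  constructor
  · intro h y hy
    exact h _ ((IntermediateField.mem_map _).2 ⟨y, hy, rfl⟩)
  · rintro h z hz
    obtain ⟨y, hy, rfl⟩ := (IntermediateField.mem_map _).1 hz
    exact h y hy

private theorem sgp_injective (x0 : E →ₐ[ℚ] L) :
    Function.Injective (sgp x0 : IntermediateField ℚ E → Subgroup (L ≃ₐ[ℚ] L)) := by
  intro F F' h
  have h1 : F.map x0 = F'.map x0 := by
    rw [← IsGalois.fixedField_fixingSubgroup (F.map x0),
      ← IsGalois.fixedField_fixingSubgroup (F'.map x0)]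
    exact congrArg IntermediateField.fixedField h
  exact IntermediateField.map_injective x0 h1

private theorem stab_le_sgp (x0 : E →ₐ[ℚ] L) (F : IntermediateField ℚ E) :
    MulAction.stabilizer (L ≃ₐ[ℚ] L) x0 ≤ sgp x0 F := by
  intro σ hσ
  rw [mem_sgp]
  intro y _
  exact DFunLike.congr_fun (MulAction.mem_stabilizer_iff.1 hσ) y

private theorem conj_notMem_sgp (x0 : E →ₐ[ℚ] L) (F : IntermediateField ℚ E) (hF : IsCMField F) :
    conj L ∉ sgp x0 F := by
  intro h
  rw [mem_sgp] at h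
  refine IsCMField.complexConj_ne_one F ?_
  ext y
  have h1 := Pool.Agent.Lib.MP_938ce2_ag_u2.H7.conj_smul_apply (L := L) (x0.comp F.val) y
  have h2 := h y y.2
  have h3 : x0.comp F.val (IsCMField.complexConj F y) = x0.comp F.val y :=
    h1.symm.trans h2
  exact congrArg Subtype.val ((x0.comp F.val).injective h3)

/-- there is only one structure of an algebra over the rational numbers -/
private theorem transfer (F : IntermediateField ℚ E) (i : Algebra ℚ F) (n : ℕ)
    (h2 : @IsGalois ℚ _ F _ i)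
    (h3 : Nonempty (@AlgEquiv ℚ F F _ _ _ i i ≃* DihedralGroup n)) :
    @IsGalois ℚ _ F _ (IntermediateField.algebra' F) ∧
      Nonempty (@AlgEquiv ℚ F F _ _ _ (IntermediateField.algebra' F)
        (IntermediateField.algebra' F) ≃* DihedralGroup n) := by
  obtain rfl : i = IntermediateField.algebra' F := Subsingleton.elim _ _
  exact ⟨h2, h3⟩

/-- the quotient by the subgroup of a Galois subfield, over any base field -/
private theorem quot {K M D : Type} [Field K] [Field M] [Algebra K M] [IsGalois K M] [Field D]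
    [Algebra K D] (x : D →ₐ[K] M) (F : IntermediateField K D) (hF : IsGalois K F) :
    ∃ _ : (F.map x).fixingSubgroup.Normal,
      Nonempty ((M ≃ₐ[K] M) ⧸ (F.map x).fixingSubgroup ≃* (F ≃ₐ[K] F)) := by
  have hg : IsGalois K (F.map x) := IsGalois.of_algEquiv (F.equivMap x)
  have hn : (F.map x).fixingSubgroup.Normal := IsGalois.fixingSubgroup_normal_of_isGalois _
  refine ⟨hn, ?_⟩
  have e1 := QuotientGroup.liftEquiv (F.map x).fixingSubgroup
    (AlgEquiv.restrictNormalHom_surjective (F := K) (K₁ := F.map x) M)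
      (IntermediateField.restrictNormalHom_ker (F.map x)).symm
  exact ⟨e1.trans (AlgEquiv.autCongr (F.equivMap x)).symm⟩

private theorem sgp_mem_dih (x0 : E →ₐ[ℚ] L) {F : IntermediateField ℚ E} (n : ℕ)
    (h1 : IsCMField F) (h2 : IsGalois ℚ F)
    (h3 : Nonempty ((F ≃ₐ[ℚ] F) ≃* DihedralGroup (2 * n))) :
    sgp x0 F ∈ Dih (G := L ≃ₐ[ℚ] L) n (conj L) x0 := by
  obtain ⟨h4, ⟨e⟩⟩ := transfer F _ _ h2 h3
  obtain ⟨hn, ⟨e1⟩⟩ := quot x0 F h4
  exact ⟨hn, stab_le_sgp x0 F, conj_notMem_sgp x0 F h1, ⟨e1.trans e⟩⟩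

/-- RECIPE. As in `L3.ncard_imagQuad_le` (file L3/F1.lean): `F ↦ (F.map x0).fixingSubgroup` is injective; for `F`
Galois over `ℚ` it is normal (`IntermediateField.fixingSubgroup` of a normal subextension) and the quotient is
`(F.map x0) ≃ₐ[ℚ] (F.map x0)` (`IsGalois.normalAutEquivQuotient` or similar), which is isomorphic to
`F ≃ₐ[ℚ] F` (`IntermediateField.equivMap`, `AlgEquiv.autCongr`). -/
theorem ncard_dihedralCM_le (x0 : E →ₐ[ℚ] L) :
    (DihedralCM E).ncard ≤ (Dih (G := L ≃ₐ[ℚ] L) 2 (conj L) x0).ncard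
      + (Dih (G := L ≃ₐ[ℚ] L) 3 (conj L) x0).ncard := by
  refine le_trans (Set.ncard_le_ncard_of_injOn (sgp x0) (fun F hF => ?_)
    (sgp_injective x0).injOn (Set.toFinite _)) (Set.ncard_union_le _ _)
  obtain ⟨h1, h2, h3 | h3⟩ := hF
  · exact Or.inl (sgp_mem_dih x0 2 h1 h2 h3)
  · exact Or.inr (sgp_mem_dih x0 3 h1 h2 h3)

end Pool.Agent.Lib.MP_938ce2_ag_L4
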