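import Pool.Agent.Lib.MP_938ce2_ag_L4.G1

/-!
Row G2: the lower bound for fields.
-/

set_option autoImplicit false
set_option linter.unusedSectionVars false

namespace Pool.Agent.Lib.MP_938ce2_ag_L4

open Module NumberField
open Pool.Agent.Lib.MP_938ce2_ag_h60 (CMType GeneratedByDivisors conj Nondeg)
open Pool.Agent.Lib.MP_938ce2_ag_u2 (Act)
open Pool.Agent.Lib.MP_938ce2_ag_L3 (ImagQuad SmallCM meas share lower_field not_generated
  card_not_prim Prim)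

/-- `2 g 2 ^ (g / 2) / 2 ^ g → 0` -/
private theorem rest_small' (η : ℝ) (hη : 0 < η) : ∃ g₀ : ℕ, ∀ g : ℕ, g₀ ≤ g →
    2 * (g : ℝ) * 2 ^ (g / 2) / 2 ^ g ≤ η := by
  have h1 : Filter.Tendsto (fun n : ℕ => (n : ℝ) * (1 / √2) ^ n) Filter.atTop (nhds 0) := by
    refine tendsto_self_mul_const_pow_of_lt_one (by positivity) ?_
    rw [div_lt_one (by positivity)]
    exact Real.lt_sqrt_of_sq_lt (by norm_num)
  have h3 : ∀ᶠ n : ℕ in Filter.atTop, (n : ℝ) * (1 / √2) ^ n < η / 4 :=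
    h1.eventually (gt_mem_nhds (by positivity))
  obtain ⟨g₀, hg₀⟩ := Filter.eventually_atTop.1 h3
  refine ⟨g₀, fun g hg => ?_⟩
  have h5 := hg₀ g hg
  have h7 : (2 : ℝ) ^ (g / 2) / 2 ^ g ≤ (1 / √2) ^ g := by
    have h2s : √2 * √2 = (2 : ℝ) := Real.mul_self_sqrt (by norm_num)
    have h1s : (1 : ℝ) ≤ √2 := by
      rw [Real.one_le_sqrt]
      norm_num
    have h8 : (2 : ℝ) ^ (g / 2) ≤ √2 ^ g := by
      calc (2 : ℝ) ^ (g / 2) = (√2 ^ 2) ^ (g / 2) := by rw [sq, h2s]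
        _ = √2 ^ (2 * (g / 2)) := by rw [pow_mul]
        _ ≤ √2 ^ g := pow_le_pow_right₀ h1s (Nat.mul_div_le g 2)
    rw [div_pow, one_pow, div_le_div_iff₀ (by positivity) (by positivity), one_mul]
    calc (2 : ℝ) ^ (g / 2) * √2 ^ g ≤ √2 ^ g * √2 ^ g :=
          mul_le_mul_of_nonneg_right h8 (by positivity)
      _ = 2 ^ g := by rw [← mul_pow, h2s]
  have h8 : 2 * (g : ℝ) * 2 ^ (g / 2) / 2 ^ g ≤ 2 * ((g : ℝ) * (1 / √2) ^ g) := by
    rw [mul_div_assoc, mul_assoc]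
    exact mul_le_mul_of_nonneg_left (mul_le_mul_of_nonneg_left h7 (by positivity)) (by norm_num)
  linarith

private theorem min_add_two (A B : ℝ) (hA : 0 ≤ A) (hB : 0 ≤ B) :
    min 1 (A + 2 * B) ≤ min 1 A + 2 * min 1 B := by
  rcases le_total 1 A with h | h
  · rw [min_eq_left h]
    exact (min_le_left _ _).trans (by
      have := le_min zero_le_one hB
      linarith)
  · rcases le_total 1 B with h' | h'
    · rw [min_eq_left h']
      exact (min_le_left _ _).trans (by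
        have := le_min zero_le_one hA
        linarith)
    · rw [min_eq_right h, min_eq_right h']
      exact min_le_right _ _

/-- RECIPE. `lower_field` gives `(1 / 6000) min 1 (meas E) ≤ share + η / 2`. `lower_dih` with
`ncard_dihedralCM_le`, and `not_generated` (row B9), `card_not_prim` (row B10) exactly as in the proof of
`L3.lower_field` (file L3/F1.lean: degenerate types which are primitive are not `GeneratedByDivisors`, there are at most
`2 g 2 ^ (g / 2)` types which are not primitive) give `κ min 1 (d log g / g) ≤ share + η / 2`. Here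
`[E : ℚ] = 2 g`, `meas3 E = meas E + d log (2 g) / g` and `log (2 g) ≤ 2 log g`. Finally
`min 1 (A + B) ≤ min 1 A + min 1 B`. -/
theorem lower_field3 : ∃ κ : ℝ, 0 < κ ∧ ∀ η : ℝ, 0 < η → ∃ g₀ : ℕ, ∀ (L E : Type) [Field L]
    [NumberField L] [IsGalois ℚ L] [IsCMField L] [Field E] [NumberField E] [IsCMField E]
    [Nonempty (E →ₐ[ℚ] L)], g₀ ≤ finrank ℚ E → κ * min 1 (meas3 E) ≤ share L E + η := by
  classical
  obtain ⟨κ, hκ, g₁, hg₁⟩ := lower_dih
  refine ⟨1 / (6000 + 2 / κ), by positivity, ?_⟩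
  intro η hη
  obtain ⟨g₂, hg₂⟩ := rest_small' η hη
  obtain ⟨g₃, hg₃⟩ := lower_field η hη
  refine ⟨2 * g₁ + 2 * g₂ + g₃ + 4, ?_⟩
  intro L E _ _ _ _ _ _ _ hne hg
  have hne' := hne
  obtain ⟨x0⟩ := hne'
  obtain ⟨g, hE⟩ : ∃ g : ℕ, finrank ℚ E = 2 * g := ⟨_, IsTotallyComplex.finrank E⟩
  have hg1 : 2 ≤ g := by omega
  have hA : Act (L ≃ₐ[ℚ] L) (E →ₐ[ℚ] L) (conj L) g := by
    refine ⟨?_, ?_, ?_, ?_, by omega⟩
    · exact Pool.Agent.Lib.MP_938ce2_ag_h60.conj_comm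
    · exact Pool.Agent.Lib.MP_938ce2_ag_h60.conj_mul_self
    · exact fun φ => Pool.Agent.Lib.MP_938ce2_ag_h60.conj_smul_ne φ
    · rw [← hE]
      exact Pool.Agent.Lib.MP_938ce2_ag_h60.card_emb
  have : MulAction.IsPretransitive (L ≃ₐ[ℚ] L) (E →ₐ[ℚ] L) :=
    ⟨fun x y => Pool.Agent.Lib.MP_938ce2_ag_h60.exists_smul_emb x y⟩
  have h1 := hg₁ (L ≃ₐ[ℚ] L) (E →ₐ[ℚ] L) (conj L) g hA (by omega) x0
  have h2 := ncard_dihedralCM_le (L := L) x0
  have h3 := hg₃ L E (by omega)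
  have h4 := Pool.Agent.Lib.MP_938ce2_ag_u2.card_cm_all hA
  have h5 : share L E = (Nat.card {Φ : Finset (E →ₐ[ℚ] L) //
      CMType (conj L) Φ ∧ ¬ GeneratedByDivisors (L ≃ₐ[ℚ] L) Φ} : ℝ) / 2 ^ g := by
    rw [share, h4]
    push_cast
    rfl
  have h6 := Pool.Agent.Lib.MP_938ce2_ag_L3.union_le hA ({()} : Finset Unit)
    (fun _ => Finset.univ.filter fun Φ : Finset (E →ₐ[ℚ] L) =>
      CMType (conj L) Φ ∧ ¬ Nondeg (conj L) Φ)
    (fun i _ Φ hΦ => (Finset.mem_filter.1 hΦ).2)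
  rw [Finset.singleton_biUnion] at h6
  have h7 : κ * min 1 ((((Dih (G := L ≃ₐ[ℚ] L) 2 (conj L) x0).ncard
      + (Dih (G := L ≃ₐ[ℚ] L) 3 (conj L) x0).ncard : ℕ) : ℝ) * (Real.log g / g)) * 2 ^ g
      ≤ (Nat.card {Φ : Finset (E →ₐ[ℚ] L) //
      CMType (conj L) Φ ∧ ¬ GeneratedByDivisors (L ≃ₐ[ℚ] L) Φ} : ℝ) + 2 * g * 2 ^ (g / 2) := by
    refine le_trans ?_ h6
    convert h1
  have hgR : (2 : ℝ) ≤ g := by exact_mod_cast hg1
  have hg0 : (0 : ℝ) < g := by linarith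
  have hhalf : (finrank ℚ E : ℝ) / 2 = g := by
    rw [hE]
    push_cast
    ring
  have h8 := hg₂ g (by omega)
  have hN : (0 : ℝ) < 2 ^ g := by positivity
  rw [h5] at h3 ⊢
  rw [meas3, hhalf, hE]
  have hmeas : 0 ≤ meas E := by
    unfold meas
    positivity
  generalize (Nat.card {Φ : Finset (E →ₐ[ℚ] L) //
      CMType (conj L) Φ ∧ ¬ GeneratedByDivisors (L ≃ₐ[ℚ] L) Φ} : ℝ) = T at h3 h7 ⊢
  generalize (Dih (G := L ≃ₐ[ℚ] L) 2 (conj L) x0).ncard
      + (Dih (G := L ≃ₐ[ℚ] L) 3 (conj L) x0).ncard = D at h2 h7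
  generalize (DihedralCM E).ncard = d at h2 ⊢
  generalize meas E = M at h3 hmeas ⊢
  have h2R : (d : ℝ) ≤ D := by exact_mod_cast h2
  have hlog0 : 0 ≤ Real.log g := Real.log_nonneg (by linarith)
  have hlog : Real.log ((2 * g : ℕ) : ℝ) ≤ 2 * Real.log g := by
    push_cast
    rw [Real.log_mul (by norm_num) hg0.ne']
    have := Real.log_le_log (by norm_num) hgR
    linarith
  have h9 : κ * min 1 ((D : ℝ) * (Real.log g / g)) ≤ T / 2 ^ g + η := by
    have h10 : κ * min 1 ((D : ℝ) * (Real.log g / g)) ≤ (T + 2 * g * 2 ^ (g / 2)) / 2 ^ g := by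
      rw [le_div_iff₀ hN]
      exact h7
    rw [add_div] at h10
    linarith
  have h11 : (d : ℝ) * Real.log ((2 * g : ℕ) : ℝ) / g ≤ 2 * ((D : ℝ) * (Real.log g / g)) := by
    rw [← mul_div_assoc, ← mul_div_assoc]
    refine div_le_div_of_nonneg_right ?_ hg0.le
    calc (d : ℝ) * Real.log ((2 * g : ℕ) : ℝ) ≤ D * (2 * Real.log g) :=
          mul_le_mul h2R hlog (Real.log_nonneg (by push_cast; linarith)) (by positivity)
      _ = 2 * (D * Real.log g) := by ring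
  have h12 : min 1 (M + (d : ℝ) * Real.log ((2 * g : ℕ) : ℝ) / g) ≤
      min 1 M + 2 * min 1 ((D : ℝ) * (Real.log g / g)) :=
    (min_le_min le_rfl (add_le_add le_rfl h11)).trans
      (min_add_two M ((D : ℝ) * (Real.log g / g)) hmeas (by positivity))
  have h13 : min 1 ((D : ℝ) * (Real.log g / g)) ≤ (T / 2 ^ g + η) / κ := by
    rw [le_div_iff₀ hκ, mul_comm]
    exact h9
  have h14 : min 1 M ≤ 6000 * (T / 2 ^ g + η) := by linarith
  have h15 : 0 < 6000 + 2 / κ := by positivity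
  rw [one_div, inv_mul_le_iff₀ h15]
  calc min 1 (M + (d : ℝ) * Real.log ((2 * g : ℕ) : ℝ) / g)
      ≤ 6000 * (T / 2 ^ g + η) + 2 * ((T / 2 ^ g + η) / κ) := by linarith
    _ = (6000 + 2 / κ) * (T / 2 ^ g + η) := by ring

end Pool.Agent.Lib.MP_938ce2_ag_L4
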