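import Pool.Agent.Lib.MP_938ce2_ag_L4.G2

/-!
Row G3: final statements. `UpperField3` is the theorem of helper30 (main_G6).
-/

set_option autoImplicit false
set_option linter.unusedSectionVars false

namespace Pool.Agent.Lib.MP_938ce2_ag_L4

open Module NumberField Filter Topology
open Pool.Agent.Lib.MP_938ce2_ag_L3 (ImagQuad SmallCM meas share)

/-- the upper bound -/
def UpperField3 : Prop := ∃ C : ℝ, 0 < C ∧ ∀ η : ℝ, 0 < η → ∃ g₀ : ℕ, ∀ (L E : Type) [Field L]
    [NumberField L] [IsGalois ℚ L] [IsCMField L] [Field E] [NumberField E] [IsCMField E]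
    [Nonempty (E →ₐ[ℚ] L)], g₀ ≤ finrank ℚ E → share L E ≤ η + C * meas3 E

private theorem share_nonneg (L E : Type) [Field L] [NumberField L] [IsCMField L] [Field E]
    [NumberField E] : 0 ≤ share L E := by
  unfold share
  positivity

private theorem meas3_nonneg (E : Type) [Field E] [NumberField E] : 0 ≤ meas3 E := by
  have h1 : (1 : ℝ) ≤ (finrank ℚ E : ℝ) := by exact_mod_cast (finrank_pos : 0 < finrank ℚ E)
  have h2 := Real.log_nonneg h1
  unfold meas3 meas
  positivity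

/-- two-sided bound -/
theorem two_sided3 (hup : UpperField3) : ∃ C : ℝ, 0 < C ∧ ∀ η : ℝ, 0 < η → ∃ g₀ : ℕ,
    ∀ (L E : Type) [Field L] [NumberField L] [IsGalois ℚ L] [IsCMField L] [Field E]
    [NumberField E] [IsCMField E] [Nonempty (E →ₐ[ℚ] L)], g₀ ≤ finrank ℚ E →
    min 1 (meas3 E) ≤ C * share L E + η ∧ share L E ≤ η + C * meas3 E := by
  obtain ⟨C, hC, hup⟩ := hup
  obtain ⟨κ, hκ, hlow⟩ := lower_field3
  refine ⟨max κ⁻¹ C, lt_max_of_lt_right hC, fun η hη => ?_⟩
  obtain ⟨g₁, h1⟩ := hlow (κ * η) (by positivity)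
  obtain ⟨g₂, h2⟩ := hup η hη
  refine ⟨max g₁ g₂, ?_⟩
  intro L E _ _ _ _ _ _ _ _ hg
  constructor
  · have h3 := h1 L E ((le_max_left _ _).trans hg)
    have h4 : κ⁻¹ * share L E ≤ max κ⁻¹ C * share L E :=
      mul_le_mul_of_nonneg_right (le_max_left _ _) (share_nonneg L E)
    have h5 : min 1 (meas3 E) ≤ κ⁻¹ * share L E + η := by
      have h6 : min 1 (meas3 E) = κ⁻¹ * (κ * min 1 (meas3 E)) := by
        rw [← mul_assoc, inv_mul_cancel₀ hκ.ne', one_mul]
      have h7 : κ⁻¹ * (share L E + κ * η) = κ⁻¹ * share L E + η := by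
        rw [mul_add, ← mul_assoc, inv_mul_cancel₀ hκ.ne', one_mul]
      rw [h6, ← h7]
      exact mul_le_mul_of_nonneg_left h3 (inv_pos.2 hκ).le
    linarith
  · have h3 := h2 L E ((le_max_right _ _).trans hg)
    have h4 : C * meas3 E ≤ max κ⁻¹ C * meas3 E :=
      mul_le_mul_of_nonneg_right (le_max_right _ _) (meas3_nonneg E)
    linarith

/-- criterion -/
theorem criterion3 (hup : UpperField3) : ∀ (L E : ℕ → Type) [∀ i, Field (L i)]
    [∀ i, NumberField (L i)] [∀ i, IsGalois ℚ (L i)] [∀ i, IsCMField (L i)] [∀ i, Field (E i)]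
    [∀ i, NumberField (E i)] [∀ i, IsCMField (E i)] [∀ i, Nonempty (E i →ₐ[ℚ] L i)],
    Tendsto (fun i => finrank ℚ (E i)) atTop atTop →
    (Tendsto (fun i => share (L i) (E i)) atTop (𝓝 0) ↔
      Tendsto (fun i => ((ImagQuad (E i)).ncard : ℝ) / √(finrank ℚ (E i) : ℝ)) atTop (𝓝 0) ∧
      Tendsto (fun i => ((SmallCM (E i)).ncard : ℝ) / (finrank ℚ (E i) : ℝ)) atTop (𝓝 0) ∧
      Tendsto (fun i => ((DihedralCM (E i)).ncard : ℝ) * Real.log (finrank ℚ (E i)) /
        (finrank ℚ (E i) : ℝ)) atTop (𝓝 0)) := by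
  intro L E _ _ _ _ _ _ _ _ hlim
  obtain ⟨C, hC, hts⟩ := two_sided3 hup
  have hmeas : ∀ i, meas3 (E i) =
      √2 * (((ImagQuad (E i)).ncard : ℝ) / √(finrank ℚ (E i) : ℝ)) +
        2 * (((SmallCM (E i)).ncard : ℝ) / (finrank ℚ (E i) : ℝ)) +
        2 * (((DihedralCM (E i)).ncard : ℝ) * Real.log (finrank ℚ (E i)) /
          (finrank ℚ (E i) : ℝ)) := by
    intro i
    have hpos : (0 : ℝ) < (finrank ℚ (E i) : ℝ) := by exact_mod_cast (finrank_pos : 0 < _)
    have h2 : (0 : ℝ) < √2 := by positivity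
    have h3 : (0 : ℝ) < √(finrank ℚ (E i) : ℝ) := Real.sqrt_pos.2 hpos
    rw [meas3, meas, Real.sqrt_div hpos.le]
    field_simp
  have hA : ∀ i, (0 : ℝ) ≤ ((ImagQuad (E i)).ncard : ℝ) / √(finrank ℚ (E i) : ℝ) := fun i => by
    positivity
  have hB : ∀ i, (0 : ℝ) ≤ ((SmallCM (E i)).ncard : ℝ) / (finrank ℚ (E i) : ℝ) := fun i => by
    positivity
  have hD : ∀ i, (0 : ℝ) ≤ ((DihedralCM (E i)).ncard : ℝ) * Real.log (finrank ℚ (E i)) /
      (finrank ℚ (E i) : ℝ) := fun i => by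
    have h1 : (1 : ℝ) ≤ (finrank ℚ (E i) : ℝ) := by
      exact_mod_cast (finrank_pos : 0 < finrank ℚ (E i))
    have h2 := Real.log_nonneg h1
    positivity
  constructor
  · intro hs
    have hm : Tendsto (fun i => meas3 (E i)) atTop (𝓝 0) := by
      rw [Metric.tendsto_atTop]
      intro ε hε
      set δ := min ε 1 / 2 with hδ
      have hδ0 : 0 < δ := by positivity
      have hδ1 : δ < 1 := by
        have := min_le_right ε 1
        rw [hδ]
        linarith
      have hδε : δ < ε := by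
        have := min_le_left ε 1
        have h1 : 0 < min ε 1 := lt_min hε one_pos
        rw [hδ]
        linarith
      obtain ⟨g₀, hg₀⟩ := hts (δ / 2) (by positivity)
      obtain ⟨N₁, hN₁⟩ := (tendsto_atTop_atTop.1 hlim) g₀
      obtain ⟨N₂, hN₂⟩ := (Metric.tendsto_atTop.1 hs) (δ / (2 * C)) (by positivity)
      refine ⟨max N₁ N₂, fun i hi => ?_⟩
      have h1 := (hg₀ (L i) (E i) (hN₁ i ((le_max_left _ _).trans hi))).1
      have h2 := hN₂ i ((le_max_right _ _).trans hi)
      rw [Real.dist_eq, sub_zero, abs_of_nonneg (share_nonneg _ _)] at h2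
      have h3 : C * share (L i) (E i) < δ / 2 := by
        calc C * share (L i) (E i) < C * (δ / (2 * C)) := mul_lt_mul_of_pos_left h2 hC
          _ = δ / 2 := by field_simp
      have h4 : min 1 (meas3 (E i)) < δ := by linarith
      rw [Real.dist_eq, sub_zero, abs_of_nonneg (meas3_nonneg _)]
      rcases min_lt_iff.1 h4 with h5 | h5
      · linarith
      · linarith
    refine ⟨?_, ?_, ?_⟩
    · refine squeeze_zero hA (fun i => ?_) hm
      rw [hmeas i]
      have h1 : (1 : ℝ) ≤ √2 := by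
        rw [Real.one_le_sqrt]
        norm_num
      have h2 := hA i
      have h3 := hB i
      have h4 := hD i
      nlinarith
    · refine squeeze_zero hB (fun i => ?_) hm
      rw [hmeas i]
      have h2 : (0 : ℝ) ≤ √2 * (((ImagQuad (E i)).ncard : ℝ) / √(finrank ℚ (E i) : ℝ)) :=
        mul_nonneg (Real.sqrt_nonneg _) (hA i)
      have h3 := hB i
      have h4 := hD i
      linarith
    · refine squeeze_zero hD (fun i => ?_) hm
      rw [hmeas i]
      have h2 : (0 : ℝ) ≤ √2 * (((ImagQuad (E i)).ncard : ℝ) / √(finrank ℚ (E i) : ℝ)) :=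
        mul_nonneg (Real.sqrt_nonneg _) (hA i)
      have h3 := hB i
      have h4 := hD i
      linarith
  · rintro ⟨ha, hb, hd⟩
    have hm : Tendsto (fun i => meas3 (E i)) atTop (𝓝 0) := by
      have h1 := ((ha.const_mul √2).add (hb.const_mul 2)).add (hd.const_mul 2)
      rw [mul_zero, mul_zero, add_zero, add_zero] at h1
      exact h1.congr fun i => (hmeas i).symm
    rw [Metric.tendsto_atTop]
    intro ε hε
    obtain ⟨g₀, hg₀⟩ := hts (ε / 2) (by positivity)
    obtain ⟨N₁, hN₁⟩ := (tendsto_atTop_atTop.1 hlim) g₀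
    obtain ⟨N₂, hN₂⟩ := (Metric.tendsto_atTop.1 hm) (ε / (2 * C)) (by positivity)
    refine ⟨max N₁ N₂, fun i hi => ?_⟩
    have h1 := (hg₀ (L i) (E i) (hN₁ i ((le_max_left _ _).trans hi))).2
    have h2 := hN₂ i ((le_max_right _ _).trans hi)
    rw [Real.dist_eq, sub_zero, abs_of_nonneg (meas3_nonneg _)] at h2
    have h3 : C * meas3 (E i) < ε / 2 := by
      calc C * meas3 (E i) < C * (ε / (2 * C)) := mul_lt_mul_of_pos_left h2 hC
        _ = ε / 2 := by field_simp
    rw [Real.dist_eq, sub_zero, abs_of_nonneg (share_nonneg _ _)]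
    linarith

end Pool.Agent.Lib.MP_938ce2_ag_L4
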