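import Mathlib

/-!
Row N1: a lower bound for the sum of `φ(q) / q²`.
-/

set_option autoImplicit false
set_option linter.unusedSectionVars false

namespace Pool.Agent.Lib.MP_938ce2_ag_L4

open Finset

private lemma sum_sq_le (K : ℕ) (hK : 1 ≤ K) :
    ∑ k ∈ Icc 1 K, 1 / (k : ℝ) ^ 2 ≤ 2 - 1 / (K : ℝ) := by
  induction K, hK using Nat.le_induction with
  | base => norm_num
  | succ n hn ih =>
    rw [Finset.sum_Icc_succ_top (by omega)]
    have hn0 : (0 : ℝ) < n := by exact_mod_cast hn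
    have h1 : 1 / ((n + 1 : ℕ) : ℝ) ^ 2 ≤ 1 / (n : ℝ) - 1 / ((n + 1 : ℕ) : ℝ) := by
      push_cast
      rw [div_sub_div _ _ hn0.ne' (by positivity), div_le_div_iff₀ (by positivity) (by positivity)]
      nlinarith
    linarith

private lemma inner_eq (M n : ℕ) (hn : n ∈ Icc 1 M) :
    ∑ x ∈ (Icc 1 M ×ˢ Icc 1 M).filter (fun x => x.1 * x.2 = n),
      (Nat.totient x.1 : ℝ) / (x.1 : ℝ) ^ 2 * (1 / (x.2 : ℝ) ^ 2) = (n : ℝ)⁻¹ := by
  rw [mem_Icc] at hn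
  have e : (Icc 1 M ×ˢ Icc 1 M).filter (fun x => x.1 * x.2 = n) = n.divisorsAntidiagonal := by
    ext ⟨a, b⟩
    simp only [mem_filter, mem_product, mem_Icc, Nat.mem_divisorsAntidiagonal]
    constructor
    · rintro ⟨-, h⟩
      exact ⟨h, by omega⟩
    · rintro ⟨h, -⟩
      have ha : 1 ≤ a := by
        rcases Nat.eq_zero_or_pos a with h0 | h0
        · rw [h0, zero_mul] at h
          omega
        · exact h0
      have hb : 1 ≤ b := by
        rcases Nat.eq_zero_or_pos b with h0 | h0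
        · rw [h0, mul_zero] at h
          omega
        · exact h0
      have h1 : a ≤ n := by
        rw [← h]
        exact Nat.le_mul_of_pos_right a hb
      have h2 : b ≤ n := by
        rw [← h]
        exact Nat.le_mul_of_pos_left b ha
      exact ⟨⟨⟨ha, h1.trans hn.2⟩, hb, h2.trans hn.2⟩, h⟩
  rw [e]
  have hn0 : (n : ℝ) ≠ 0 := by
    have : n ≠ 0 := by omega
    exact_mod_cast this
  have h1 : ∀ x ∈ n.divisorsAntidiagonal,
      (Nat.totient x.1 : ℝ) / (x.1 : ℝ) ^ 2 * (1 / (x.2 : ℝ) ^ 2)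
        = (Nat.totient x.1 : ℝ) / (n : ℝ) ^ 2 := by
    intro x hx
    have h2 := (Nat.mem_divisorsAntidiagonal.mp hx).1
    rw [← h2]
    push_cast
    rw [mul_pow, div_mul_div_comm, mul_one]
  rw [Finset.sum_congr rfl h1, ← Finset.sum_div]
  have h3 : ∑ x ∈ n.divisorsAntidiagonal, (Nat.totient x.1 : ℝ) = n := by
    rw [Nat.sum_divisorsAntidiagonal (fun d _ => (Nat.totient d : ℝ))]
    exact_mod_cast Nat.sum_totient n
  rw [h3, pow_two, div_mul_eq_div_div, div_self hn0, one_div]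

/-- RECIPE. `∑ d ∣ n, φ(d) = n` (`Nat.sum_totient`), so
`∑_{n ≤ M} 1 / n = ∑_{n ≤ M} n / n² = ∑_{d ≤ M} φ(d) / d² ∑_{k ≤ M / d} 1 / k²`, and `∑_{k ≤ K} 1 / k² ≤ 2`
(induction: `≤ 2 - 1 / K`), and `log M ≤ ∑_{n ≤ M} 1 / n` (Mathlib: `Real.log_add_one_le_harmonic` or
`log_add_one_le_harmonic`). -/
theorem sum_totient_ge (M : ℕ) (hM : 1 ≤ M) :
    Real.log M / 2 ≤ ∑ q ∈ Icc 1 M, (Nat.totient q : ℝ) / (q : ℝ) ^ 2 := by
  have h1 : Real.log M ≤ ∑ n ∈ Icc 1 M, (n : ℝ)⁻¹ := by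
    have h2 := log_add_one_le_harmonic M
    rw [harmonic_eq_sum_Icc] at h2
    push_cast at h2
    refine le_trans ?_ h2
    have hM0 : (0 : ℝ) < M := by exact_mod_cast hM
    exact Real.log_le_log hM0 (by linarith)
  have h2 : ∑ n ∈ Icc 1 M, (n : ℝ)⁻¹ ≤ ∑ x ∈ Icc 1 M ×ˢ Icc 1 M,
      (Nat.totient x.1 : ℝ) / (x.1 : ℝ) ^ 2 * (1 / (x.2 : ℝ) ^ 2) := by
    rw [Finset.sum_congr rfl fun n hn => (inner_eq M n hn).symm]
    rw [← Finset.sum_biUnion]
    · refine Finset.sum_le_sum_of_subset_of_nonneg ?_ fun x _ _ => by positivity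
      intro x hx
      obtain ⟨n, -, hx2⟩ := Finset.mem_biUnion.mp hx
      exact (Finset.mem_filter.mp hx2).1
    · intro a _ b _ hab
      rw [Function.onFun, Finset.disjoint_left]
      intro x hx hx'
      exact hab ((Finset.mem_filter.mp hx).2.symm.trans (Finset.mem_filter.mp hx').2)
  have h3 : ∑ x ∈ Icc 1 M ×ˢ Icc 1 M,
      (Nat.totient x.1 : ℝ) / (x.1 : ℝ) ^ 2 * (1 / (x.2 : ℝ) ^ 2)
        = (∑ q ∈ Icc 1 M, (Nat.totient q : ℝ) / (q : ℝ) ^ 2) * ∑ k ∈ Icc 1 M, 1 / (k : ℝ) ^ 2 := by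
    rw [Finset.sum_product, Finset.sum_mul_sum]
  have h4 := sum_sq_le M hM
  have h5 : (0 : ℝ) ≤ ∑ q ∈ Icc 1 M, (Nat.totient q : ℝ) / (q : ℝ) ^ 2 :=
    Finset.sum_nonneg fun q _ => by positivity
  have h6 : ∑ k ∈ Icc 1 M, 1 / (k : ℝ) ^ 2 ≤ 2 := by
    have : (0 : ℝ) ≤ 1 / (M : ℝ) := by positivity
    linarith
  rw [h3] at h2
  have h7 := mul_le_mul_of_nonneg_left h6 h5
  linarith

end Pool.Agent.Lib.MP_938ce2_ag_L4
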