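import Pool.Agent.Lib.MP_938ce2_ag_L4.N1

/-!
Row N2: many solutions of `i j = k l`.
-/

set_option autoImplicit false
set_option linter.unusedSectionVars false

namespace Pool.Agent.Lib.MP_938ce2_ag_L4

open Finset

/-- the solutions of `i j = k l` with `i + j` and `k + l` of the parity of `e` -/
def solSet (R e : ℕ) : Finset (ℕ × ℕ × ℕ × ℕ) :=
  (Icc 1 R ×ˢ Icc 1 R ×ˢ Icc 1 R ×ˢ Icc 1 R).filter fun t =>
    t.1 * t.2.1 = t.2.2.1 * t.2.2.2 ∧ t.1 + t.2.1 ≡ e [MOD 2] ∧ t.2.2.1 + t.2.2.2 ≡ e [MOD 2]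

/-- the first multiplier -/
private def n2m (e p q a : ℕ) : ℕ :=
  if e % 2 = 0 then 2 * a else if p % 2 = 1 ∧ q % 2 = 1 then 2 * a else 2 * a - 1

/-- the second multiplier -/
private def n2m' (e b : ℕ) : ℕ := if e % 2 = 0 then 2 * b else 2 * b - 1

/-- the parameters -/
private def n2src (R : ℕ) : Finset (Σ _ : ℕ, ℕ × ℕ × ℕ) :=
  (Icc 1 (R / 8)).sigma fun q =>
    ((Ico 1 (1 + q)).filter fun p => q.Coprime p) ×ˢ Icc 1 (R / (4 * q)) ×ˢ Icc 1 (R / (4 * q))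

/-- the parametrisation -/
private def n2f (e : ℕ) (t : Σ _ : ℕ, ℕ × ℕ × ℕ) : ℕ × ℕ × ℕ × ℕ :=
  (n2m e t.2.1 t.1 t.2.2.1 * t.2.1, n2m' e t.2.2.2 * t.1,
    n2m e t.2.1 t.1 t.2.2.1 * t.1, n2m' e t.2.2.2 * t.2.1)

private lemma n2_mem_src {R : ℕ} {t : Σ _ : ℕ, ℕ × ℕ × ℕ} (ht : t ∈ n2src R) :
    1 ≤ t.1 ∧ t.1 ≤ R / 8 ∧ 1 ≤ t.2.1 ∧ t.2.1 ≤ t.1 ∧ t.1.Coprime t.2.1 ∧
      1 ≤ t.2.2.1 ∧ t.2.2.1 ≤ R / (4 * t.1) ∧ 1 ≤ t.2.2.2 ∧ t.2.2.2 ≤ R / (4 * t.1) := by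
  unfold n2src at ht
  rw [mem_sigma, mem_product, mem_product, mem_filter, mem_Ico, mem_Icc, mem_Icc, mem_Icc] at ht
  obtain ⟨⟨h1, h2⟩, ⟨⟨h3, h4⟩, h5⟩, ⟨h6, h7⟩, h8, h9⟩ := ht
  exact ⟨h1, h2, h3, by omega, h5, h6, h7, h8, h9⟩

private lemma n2m_bound {e p q a : ℕ} (ha : 1 ≤ a) : 1 ≤ n2m e p q a ∧ n2m e p q a ≤ 2 * a := by
  unfold n2m
  split_ifs <;> omega

private lemma n2m'_bound {e b : ℕ} (hb : 1 ≤ b) : 1 ≤ n2m' e b ∧ n2m' e b ≤ 2 * b := by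
  unfold n2m'
  split_ifs <;> omega

private lemma n2_le {R q m x a : ℕ} (hx : x ≤ q) (hm : m ≤ 2 * a) (ha : a ≤ R / (4 * q)) :
    m * x ≤ R := by
  have h1 : R / (4 * q) * (4 * q) ≤ R := Nat.div_mul_le_self _ _
  calc m * x ≤ (2 * (R / (4 * q))) * q := Nat.mul_le_mul (by omega) hx
    _ ≤ R / (4 * q) * (4 * q) := by nlinarith [Nat.zero_le (R / (4 * q) * q)]
    _ ≤ R := h1

private lemma n2_maps {R e : ℕ} {t : Σ _ : ℕ, ℕ × ℕ × ℕ} (ht : t ∈ n2src R) :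
    n2f e t ∈ solSet R e := by
  obtain ⟨q, p, a, b⟩ := t
  obtain ⟨h1, h2, h3, h4, h5, h6, h7, h8, h9⟩ := n2_mem_src ht
  simp only at h1 h2 h3 h4 h5 h6 h7 h8 h9
  obtain ⟨hm1, hm2⟩ := n2m_bound (e := e) (p := p) (q := q) h6
  obtain ⟨hn1, hn2⟩ := n2m'_bound (e := e) h8
  unfold solSet
  rw [mem_filter, mem_product, mem_product, mem_product, mem_Icc, mem_Icc, mem_Icc, mem_Icc]
  simp only [n2f]
  have hq : 1 ≤ q := h1
  refine ⟨⟨⟨Nat.mul_pos hm1 h3, n2_le h4 hm2 h7⟩, ⟨Nat.mul_pos hn1 hq, n2_le le_rfl hn2 h9⟩,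
    ⟨Nat.mul_pos hm1 hq, n2_le le_rfl hm2 h7⟩, ⟨Nat.mul_pos hn1 h3, n2_le h4 hn2 h9⟩⟩,
    by ring, ?_, ?_⟩
  · unfold n2m n2m' Nat.ModEq
    by_cases he : e % 2 = 0
    · simp only [he, if_true]
      have h0 : 2 * a * p + 2 * b * q = 2 * (a * p + b * q) := by ring
      omega
    · simp only [he, if_false]
      by_cases hpq : p % 2 = 1 ∧ q % 2 = 1
      · rw [if_pos hpq, Nat.add_mod, Nat.mul_mod, Nat.mul_mod (2 * b - 1)]
        have e1 : (2 * a) % 2 = 0 := by omega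
        have e2 : (2 * b - 1) % 2 = 1 := by omega
        rw [e1, e2, hpq.1, hpq.2]
        omega
      · rw [if_neg hpq, Nat.add_mod, Nat.mul_mod, Nat.mul_mod (2 * b - 1)]
        have e1 : (2 * a - 1) % 2 = 1 := by omega
        have e2 : (2 * b - 1) % 2 = 1 := by omega
        have e3 : ¬ (p % 2 = 0 ∧ q % 2 = 0) := by
          rintro ⟨hp, hq⟩
          have := Nat.dvd_gcd (Nat.dvd_of_mod_eq_zero hq) (Nat.dvd_of_mod_eq_zero hp)
          rw [h5] at this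
          omega
        rw [e1, e2]
        omega
  · unfold n2m n2m' Nat.ModEq
    by_cases he : e % 2 = 0
    · simp only [he, if_true]
      have h0 : 2 * a * q + 2 * b * p = 2 * (a * q + b * p) := by ring
      omega
    · simp only [he, if_false]
      by_cases hpq : p % 2 = 1 ∧ q % 2 = 1
      · rw [if_pos hpq, Nat.add_mod, Nat.mul_mod, Nat.mul_mod (2 * b - 1)]
        have e1 : (2 * a) % 2 = 0 := by omega
        have e2 : (2 * b - 1) % 2 = 1 := by omega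
        rw [e1, e2, hpq.1, hpq.2]
        omega
      · rw [if_neg hpq, Nat.add_mod, Nat.mul_mod, Nat.mul_mod (2 * b - 1)]
        have e1 : (2 * a - 1) % 2 = 1 := by omega
        have e2 : (2 * b - 1) % 2 = 1 := by omega
        have e3 : ¬ (p % 2 = 0 ∧ q % 2 = 0) := by
          rintro ⟨hp, hq⟩
          have := Nat.dvd_gcd (Nat.dvd_of_mod_eq_zero hq) (Nat.dvd_of_mod_eq_zero hp)
          rw [h5] at this
          omega
        rw [e1, e2]
        omega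

private lemma n2_inj {R e : ℕ} : Set.InjOn (n2f e) (n2src R : Set (Σ _ : ℕ, ℕ × ℕ × ℕ)) := by
  rintro ⟨q, p, a, b⟩ ht ⟨q', p', a', b'⟩ ht' h
  obtain ⟨h1, h2, h3, h4, h5, h6, h7, h8, h9⟩ := n2_mem_src (Finset.mem_coe.mp ht)
  obtain ⟨k1, k2, k3, k4, k5, k6, k7, k8, k9⟩ := n2_mem_src (Finset.mem_coe.mp ht')
  simp only at h1 h2 h3 h4 h5 h6 h7 h8 h9 k1 k2 k3 k4 k5 k6 k7 k8 k9
  obtain ⟨hm1, hm2⟩ := n2m_bound (e := e) (p := p) (q := q) h6
  obtain ⟨km1, km2⟩ := n2m_bound (e := e) (p := p') (q := q') k6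
  obtain ⟨hn1, hn2⟩ := n2m'_bound (e := e) h8
  obtain ⟨kn1, kn2⟩ := n2m'_bound (e := e) k8
  simp only [n2f, Prod.mk.injEq] at h
  obtain ⟨g1, g2, g3, g4⟩ := h
  -- p q' = p' q
  have hcross : p * q' = p' * q := by
    have h0 : (n2m e p q a * n2m e p' q' a') * (p * q') =
        (n2m e p q a * n2m e p' q' a') * (p' * q) := by
      calc (n2m e p q a * n2m e p' q' a') * (p * q')
          = (n2m e p q a * p) * (n2m e p' q' a' * q') := by ring
        _ = (n2m e p' q' a' * p') * (n2m e p q a * q) := by rw [g1, g3]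
        _ = (n2m e p q a * n2m e p' q' a') * (p' * q) := by ring
    exact Nat.eq_of_mul_eq_mul_left (Nat.mul_pos hm1 km1) h0
  have hq : q = q' := by
    apply Nat.dvd_antisymm
    · have : q ∣ p * q' := ⟨p', by rw [hcross]; ring⟩
      exact (Nat.Coprime.dvd_mul_left h5).mp this
    · have : q' ∣ p' * q := ⟨p, by rw [← hcross]; ring⟩
      exact (Nat.Coprime.dvd_mul_left k5).mp this
  subst hq
  have hp : p = p' := Nat.eq_of_mul_eq_mul_right h1 hcross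
  subst hp
  have hm : n2m e p q a = n2m e p q a' := Nat.eq_of_mul_eq_mul_right h1 g3
  have hn : n2m' e b = n2m' e b' := Nat.eq_of_mul_eq_mul_right h1 g2
  have ha : a = a' := by
    unfold n2m at hm
    split_ifs at hm <;> omega
  have hb : b = b' := by
    unfold n2m' at hn
    split_ifs at hn <;> omega
  subst ha
  subst hb
  rfl

private lemma n2_card (R : ℕ) :
    (n2src R).card = ∑ q ∈ Icc 1 (R / 8), Nat.totient q * (R / (4 * q)) ^ 2 := by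
  unfold n2src
  rw [card_sigma]
  refine sum_congr rfl fun q _ => ?_
  rw [card_product, card_product, Nat.card_Icc, Nat.filter_coprime_Ico_eq_totient]
  simp only [Nat.add_sub_cancel]
  ring

/-- RECIPE. For coprime `1 ≤ p ≤ q`, `q ≤ R / 8`, and `1 ≤ a, b ≤ R / (4 q)` take `(i, j, k, l) =
(m p, m' q, m q, m' p)`, where `m = 2 a`, `m' = 2 b` if `e` is even; if `e` is odd: `m = 2 a`,
`m' = 2 b - 1` if `p`, `q` are both odd and `m = 2 a - 1`, `m' = 2 b - 1` otherwise (then `p + q` is odd,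
because `p`, `q` are coprime). All entries are at most `2 (R / (4 q)) q ≤ R`. The map is injective: `p / q`
is `i / k` in lowest terms. The number of quadruples is
`∑_{q ≤ R / 8} φ(q) (R / (4 q)) ^ 2` (number of `1 ≤ p ≤ q` coprime to `q`; `Nat.totient` counts `p < q`
with `0` allowed only for `q = 1`: it is also the number of `p` in `Icc 1 q` or `range q`), and for
`q ≤ R / 8` the floor `R / (4 q)` is at least `R / (8 q)` as a real number. So the number is at least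
`R² / 64 ∑_{q ≤ R / 8} φ(q) / q² ≥ R² / 128 log (R / 8 floor)` by `sum_totient_ge`, and
`log (R / 8 floor) ≥ log R / 2` for `R ≥ 300`. Any positive constant is fine. -/
theorem sol_lower : ∃ κ : ℝ, 0 < κ ∧ ∃ R₀ : ℕ, ∀ R : ℕ, R₀ ≤ R → ∀ e : ℕ,
    κ * (R : ℝ) ^ 2 * Real.log R ≤ ((solSet R e).card : ℝ) := by
  refine ⟨1 / 256, by norm_num, 256, fun R hR e => ?_⟩
  have hcard : (n2src R).card ≤ (solSet R e).card :=
    card_le_card_of_injOn (n2f e) (fun t ht => Finset.mem_coe.mpr (n2_maps (Finset.mem_coe.mp ht)))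
      n2_inj
  rw [n2_card] at hcard
  have hcard' : ((∑ q ∈ Icc 1 (R / 8), Nat.totient q * (R / (4 * q)) ^ 2 : ℕ) : ℝ) ≤
      ((solSet R e).card : ℝ) := by exact_mod_cast hcard
  push_cast at hcard'
  have hk : 1 ≤ R / 8 := by omega
  have hsum := sum_totient_ge (R / 8) hk
  have hterm : ∀ q ∈ Icc 1 (R / 8), (R : ℝ) ^ 2 / 64 * ((Nat.totient q : ℝ) / (q : ℝ) ^ 2) ≤
      (Nat.totient q : ℝ) * ((R / (4 * q) : ℕ) : ℝ) ^ 2 := by
    intro q hq
    rw [mem_Icc] at hq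
    have hq1 : (0 : ℝ) < (q : ℝ) := by exact_mod_cast hq.1
    have hR8 : 8 * q ≤ R := by omega
    have hfl : R < 4 * q * (R / (4 * q) + 1) := Nat.lt_mul_div_succ R (by omega)
    have h2 : 2 ≤ R / (4 * q) := by
      rw [Nat.le_div_iff_mul_le (by omega)]
      omega
    have hnat : R ≤ 8 * q * (R / (4 * q)) := by
      calc R ≤ 4 * q * (R / (4 * q) + 1) := hfl.le
        _ ≤ 4 * q * (R / (4 * q) + R / (4 * q)) := Nat.mul_le_mul_left _ (by omega)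
        _ = 8 * q * (R / (4 * q)) := by ring
    have hreal : (R : ℝ) ≤ 8 * (q : ℝ) * ((R / (4 * q) : ℕ) : ℝ) := by exact_mod_cast hnat
    have hdiv : (R : ℝ) / (8 * (q : ℝ)) ≤ ((R / (4 * q) : ℕ) : ℝ) := by
      rw [div_le_iff₀ (by positivity)]
      linarith
    have hsq : ((R : ℝ) / (8 * (q : ℝ))) ^ 2 ≤ ((R / (4 * q) : ℕ) : ℝ) ^ 2 :=
      pow_le_pow_left₀ (by positivity) hdiv 2
    calc (R : ℝ) ^ 2 / 64 * ((Nat.totient q : ℝ) / (q : ℝ) ^ 2)
        = (Nat.totient q : ℝ) * ((R : ℝ) / (8 * (q : ℝ))) ^ 2 := by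
          field_simp
          ring
      _ ≤ _ := mul_le_mul_of_nonneg_left hsq (by positivity)
  have hlog : Real.log (R : ℝ) / 2 ≤ Real.log ((R / 8 : ℕ) : ℝ) := by
    have hk32 : 32 ≤ R / 8 := by omega
    have hnat : R ≤ (R / 8) ^ 2 := by
      have : R ≤ 8 * (R / 8) + 7 := by omega
      nlinarith
    have hreal : (R : ℝ) ≤ ((R / 8 : ℕ) : ℝ) ^ 2 := by exact_mod_cast hnat
    have hpos : (0 : ℝ) < (R : ℝ) := by
      have : 0 < R := by omega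
      exact_mod_cast this
    have := Real.log_le_log hpos hreal
    rw [Real.log_pow] at this
    push_cast at this
    linarith
  have hfin : (R : ℝ) ^ 2 / 64 * (Real.log ((R / 8 : ℕ) : ℝ) / 2) ≤ ((solSet R e).card : ℝ) := by
    calc (R : ℝ) ^ 2 / 64 * (Real.log ((R / 8 : ℕ) : ℝ) / 2)
        ≤ (R : ℝ) ^ 2 / 64 * ∑ q ∈ Icc 1 (R / 8), (Nat.totient q : ℝ) / (q : ℝ) ^ 2 :=
          mul_le_mul_of_nonneg_left hsum (by positivity)
      _ = ∑ q ∈ Icc 1 (R / 8), (R : ℝ) ^ 2 / 64 * ((Nat.totient q : ℝ) / (q : ℝ) ^ 2) := by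
          rw [mul_sum]
      _ ≤ ∑ q ∈ Icc 1 (R / 8), (Nat.totient q : ℝ) * ((R / (4 * q) : ℕ) : ℝ) ^ 2 :=
          sum_le_sum hterm
      _ ≤ _ := hcard'
  calc 1 / 256 * (R : ℝ) ^ 2 * Real.log R = (R : ℝ) ^ 2 / 64 * (Real.log R / 2 / 2) := by ring
    _ ≤ (R : ℝ) ^ 2 / 64 * (Real.log ((R / 8 : ℕ) : ℝ) / 2) := by
        apply mul_le_mul_of_nonneg_left _ (by positivity)
        linarith
    _ ≤ _ := hfin

end Pool.Agent.Lib.MP_938ce2_ag_L4
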